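import Mathlib

/-! The proportion of the classes for one curve and `r` field parameters -/

set_option autoImplicit false

open scoped Classical

namespace Run7.h707.TE.Kap

open Finset

/-- the plane -/
abbrev V : Type := ZMod 3 × ZMod 3

/-- the pairs avoiding `S` -/
noncomputable def G (S : Finset V) (r : ℕ) : Finset (V × (Fin r → V)) :=
  univ.filter fun p => ∀ s ∈ S, ∀ ν : Fin r → ZMod 3, p.1 + s + ∑ i, (ν i).val • p.2 i ≠ 0

/-- adding a vector -/
def ad (S : Finset V) (x : V) : Finset V :=
  (univ : Finset (ZMod 3)).biUnion fun t => S.image fun s => s + t.val • x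

theorem mem_ad {S : Finset V} {x y : V} : y ∈ ad S x ↔ ∃ t : ZMod 3, ∃ s ∈ S, s + t.val • x = y := by
  unfold ad
  simp only [mem_biUnion, mem_univ, true_and, mem_image]

theorem card_G (S : Finset V) (r : ℕ) : (G S (r + 1)).card = ∑ x : V, (G (ad S x) r).card := by
  have h1 : (G S (r + 1)).card = (univ.filter fun q : V × (V × (Fin r → V)) =>
      (q.2.1, q.2.2) ∈ G (ad S q.1) r).card := by
    refine card_bij' (fun p _ => (p.2 0, (p.1, fun i => p.2 i.succ)))
      (fun q _ => (q.2.1, Fin.cons q.1 q.2.2)) ?_ ?_ ?_ ?_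
    · intro p hp
      rw [mem_filter]
      refine ⟨mem_univ _, ?_⟩
      unfold G at hp ⊢
      rw [mem_filter] at hp ⊢
      refine ⟨mem_univ _, fun y hy ν => ?_⟩
      obtain ⟨t, s, hs, rfl⟩ := mem_ad.1 hy
      have h := hp.2 s hs (Fin.cons t ν)
      rw [Fin.sum_univ_succ] at h
      simp only [Fin.cons_zero, Fin.cons_succ] at h
      rw [← add_assoc] at h
      rw [← add_assoc]
      exact h
    · intro q hq
      rw [mem_filter] at hq
      have hq' := hq.2
      unfold G at hq' ⊢
      rw [mem_filter] at hq' ⊢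
      refine ⟨mem_univ _, fun s hs ν => ?_⟩
      have h := hq'.2 (s + (ν 0).val • q.1) (mem_ad.2 ⟨ν 0, s, hs, rfl⟩) fun i => ν i.succ
      rw [Fin.sum_univ_succ]
      simp only [Fin.cons_zero, Fin.cons_succ]
      rw [← add_assoc]
      rw [← add_assoc] at h
      exact h
    · intro p _
      ext1
      · rfl
      · show (Fin.cons (p.2 0) fun i => p.2 i.succ : Fin (r + 1) → V) = p.2
        exact Fin.cons_self_tail _
    · intro q _
      rfl
  rw [h1, card_filter, ← univ_product_univ, sum_product]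
  refine sum_congr rfl fun x _ => ?_
  rw [← card_filter]
  congr 1
  ext q
  simp

theorem G_univ (r : ℕ) : (G univ r).card = 0 := by
  rw [card_eq_zero, eq_empty_iff_forall_notMem]
  intro p hp
  unfold G at hp
  rw [mem_filter] at hp
  apply hp.2 (-p.1) (mem_univ _) 0
  simp

/-- a line -/
def ln (x : V) : Finset V := ad {0} x

theorem t1 : ∀ x : V, x ≠ 0 → ∀ y : V, ad (ln x) y = if y ∈ ln x then ln x else univ := by
  decide +kernel

theorem t2 : ∀ x : V, x ≠ 0 → (ln x).card = 3 := by
  decide +kernel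

theorem t3 : ad {0} (0 : V) = {0} := by
  decide +kernel

theorem G_zero (S : Finset V) : (G S 0).card = (univ.filter fun u : V => ∀ s ∈ S, u + s ≠ 0).card := by
  refine card_bij' (fun p _ => p.1) (fun u _ => (u, default)) ?_ ?_ ?_ ?_
  · intro p hp
    unfold G at hp
    rw [mem_filter] at hp ⊢
    refine ⟨mem_univ _, fun s hs => ?_⟩
    have := hp.2 s hs default
    simpa using this
  · intro u hu
    unfold G
    rw [mem_filter] at hu ⊢
    refine ⟨mem_univ _, fun s hs ν => ?_⟩
    simpa using hu.2 s hs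
  · intro p _
    exact Prod.ext rfl (Subsingleton.elim _ _)
  · intro u _
    rfl

theorem t4 : ∀ x : V, x ≠ 0 →
    (@Finset.filter V (fun u : V => ∀ s ∈ ln x, u + s ≠ 0) (fun _ => inferInstance) univ).card = 6 := by
  decide +kernel

theorem t5 : (@Finset.filter V (fun u : V => ∀ s ∈ ({0} : Finset V), u + s ≠ 0)
    (fun _ => inferInstance) univ).card = 8 := by
  decide +kernel

theorem G_ln (r : ℕ) : ∀ x : V, x ≠ 0 → (G (ln x) r).card = 6 * 3 ^ r := by
  induction r with
  | zero =>
    intro x hx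
    rw [G_zero, pow_zero, mul_one, ← t4 x hx]
  | succ r ih =>
    intro x hx
    rw [card_G]
    have h1 : ∀ y : V, (G (ad (ln x) y) r).card = if y ∈ ln x then 6 * 3 ^ r else 0 := by
      intro y
      rw [t1 x hx y]
      split_ifs
      · exact ih x hx
      · exact G_univ r
    simp only [h1]
    rw [← sum_filter, filter_mem_eq_inter, univ_inter, sum_const, t2 x hx, smul_eq_mul, pow_succ]
    ring

theorem G_0 (r : ℕ) : (G {0} r).card + 16 = 24 * 3 ^ r := by
  induction r with
  | zero =>
    have : (G {0} 0).card = 8 := by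
      rw [G_zero, ← t5]
    rw [this]
    norm_num
  | succ r ih =>
    rw [card_G, ← add_sum_erase univ _ (mem_univ (0 : V)), t3]
    have h1 : ∑ x ∈ univ.erase (0 : V), (G (ad {0} x) r).card = 8 * (6 * 3 ^ r) := by
      have h2 : ∀ x ∈ univ.erase (0 : V), (G (ad {0} x) r).card = 6 * 3 ^ r := fun x hx =>
        G_ln r x (ne_of_mem_erase hx)
      rw [sum_congr rfl h2, sum_const, smul_eq_mul, card_erase_of_mem (mem_univ _)]
      rfl
    rw [h1, pow_succ]
    omega

/-- **The number of the classes.** -/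
theorem card_kap (r : ℕ) : ({u : (Unit → V) × (Fin r → V) | ∀ (_ : Unit) (ν : Fin r → ZMod 3),
    ∑ _k : Unit, 1 • u.1 () + ∑ i, (ν i).val • u.2 i ≠ 0}.ncard : ℝ) = 24 * 3 ^ r - 16 := by
  have h1 : {u : (Unit → V) × (Fin r → V) | ∀ (_ : Unit) (ν : Fin r → ZMod 3),
      ∑ _k : Unit, 1 • u.1 () + ∑ i, (ν i).val • u.2 i ≠ 0} =
      (fun q : V × (Fin r → V) => ((fun _ : Unit => q.1), q.2)) '' (G {0} r : Set (V × (Fin r → V))) := by
    ext u
    simp only [Set.mem_image, mem_coe, Set.mem_ofPred_eq]
    constructor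
    · intro h
      refine ⟨(u.1 (), u.2), ?_, rfl⟩
      unfold G
      rw [mem_filter]
      refine ⟨mem_univ _, fun s hs ν => ?_⟩
      rw [mem_singleton] at hs
      subst hs
      simpa using h () ν
    · rintro ⟨q, hq, rfl⟩ _ ν
      unfold G at hq
      rw [mem_filter] at hq
      simpa using hq.2 0 (mem_singleton_self _) ν
  have hinj : Function.Injective
      (fun q : V × (Fin r → V) => (((fun _ : Unit => q.1), q.2) : (Unit → V) × (Fin r → V))) := by
    intro q q' h
    have h1 := (Prod.ext_iff.1 h).1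
    have h2 := (Prod.ext_iff.1 h).2
    exact Prod.ext (congrFun h1 ()) h2
  rw [h1, Set.ncard_image_of_injective _ hinj, Set.ncard_coe_finset]
  have h2 := G_0 r
  have h3 : ((G {0} r).card : ℝ) + 16 = 24 * 3 ^ r := by exact_mod_cast h2
  linarith

end Run7.h707.TE.Kap
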