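import Pool.Agent.Run7.h707.TE.Ell
import Pool.Agent.Run7.h707.TE.Kap

/-! The final statement for the elliptic curves `E_a` over the fields of cube roots -/

set_option autoImplicit false
set_option linter.unusedVariables false
set_option linter.unusedSectionVars false

open scoped Classical

namespace Run7.h707.TE

open Finset Filter NumberField IsDedekindDomain WeierstrassCurve
open Pool.Agent.Y692.QS (Ei w nr)
open Pool.Agent.Y703.XK (c9)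
open Pool.Agent.Y696.CTK (ED Tri)
open Pool.Agent.TH841.NF.D (Sha)
open Run7.h707.TC (FamO ExO)

section
variable {K : Type} [Field K] [NumberField K] {r : ℕ}

/-- all the pairs -/
def AllL (X : ℕ) (p : 𝓞 K × (Fin r → 𝓞 K)) : Prop :=
  (Algebra.norm ℤ p.1 ≤ X ∧ FamO p.1) ∧ ∀ i, Algebra.norm ℤ (p.2 i) ≤ X ∧ FamO (p.2 i)

/-- the family -/
def FamL (p : 𝓞 K × (Fin r → 𝓞 K)) : Prop :=
  (∀ ν : Fin r → ZMod 3, ¬ ExO (p.1 * bp p.2 ν)) ∧ ∀ ν : Fin r → ZMod 3, ν ≠ 0 → ¬ UO (bp p.2 ν)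

/-- all the curves over `K` have finitely many points and no `3`-part of `Ш` -/
def TriL (p : 𝓞 K × (Fin r → 𝓞 K)) : Prop := ∀ ν : Fin r → ZMod 3, Tri (p.1 * bp p.2 ν)

/-- the exponents -/
def n1 : Unit → Unit → ℕ := fun _ _ => 1

theorem dO_n1 (a : Unit → 𝓞 K) (t : Unit) : dO (n1 t) a = a () := by
  unfold dO n1
  simp

theorem ncard_L (P : 𝓞 K × (Fin r → 𝓞 K) → Prop) :
    {p : 𝓞 K × (Fin r → 𝓞 K) | P p}.ncard =
      {q : (Unit → 𝓞 K) × (Fin r → 𝓞 K) | P (q.1 (), q.2)}.ncard := by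
  have hinj : Function.Injective (fun q : (Unit → 𝓞 K) × (Fin r → 𝓞 K) =>
      ((q.1 (), q.2) : 𝓞 K × (Fin r → 𝓞 K))) := by
    intro q q' h
    have h1 := (Prod.ext_iff.1 h).1
    have h2 := (Prod.ext_iff.1 h).2
    exact Prod.ext (funext fun _ => h1) h2
  rw [← Set.ncard_image_of_injective _ hinj]
  congr 1
  ext p
  simp only [Set.mem_ofPred_eq, Set.mem_image]
  constructor
  · intro h
    exact ⟨(fun _ => p.1, p.2), h, rfl⟩
  · rintro ⟨q, h, rfl⟩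
    exact h

theorem allL_iff (X : ℕ) (q : (Unit → 𝓞 K) × (Fin r → 𝓞 K)) :
    AllL X (q.1 (), q.2) ↔ AllP X q := by
  unfold AllL AllP
  refine and_congr ⟨fun h _ => h, fun h => h ()⟩ Iff.rfl

theorem famL_iff (q : (Unit → 𝓞 K) × (Fin r → 𝓞 K)) :
    FamL (q.1 (), q.2) ↔ FamP n1 q := by
  unfold FamL FamP
  simp only [dO_n1]
  exact and_congr ⟨fun h _ => h, fun h => h ()⟩ Iff.rfl

theorem triL_iff (q : (Unit → 𝓞 K) × (Fin r → 𝓞 K)) :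
    TriL (q.1 (), q.2) ↔ TriP n1 q := by
  unfold TriL TriP
  simp only [dO_n1]
  exact ⟨fun h _ => h, fun h => h ()⟩

theorem kapP_n1 (r : ℕ) : kapP n1 r = (24 * 3 ^ r - 16) / 9 ^ (r + 1) := by
  unfold kapP
  rw [Fintype.card_unit, add_comm 1 r]
  congr 1
  rw [← Kap.card_kap r]
  congr 2

/-- **The final statement for the elliptic curves.** -/
theorem finL (K : Type) [Field K] [NumberField K] [IsCyclotomicExtension {3} ℚ K] (r : ℕ) :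
    (∃ C : ℝ, 0 < C ∧ ∃ X₀ : ℕ, ∀ X : ℕ, X₀ ≤ X → C * (X : ℝ) ^ (r + 1) ≤
      ({p : 𝓞 K × (Fin r → 𝓞 K) | AllL X p}.ncard : ℝ)) ∧
    Tendsto (fun X : ℕ => ({p : 𝓞 K × (Fin r → 𝓞 K) | AllL X p ∧ FamL p}.ncard : ℝ) /
      ({p : 𝓞 K × (Fin r → 𝓞 K) | AllL X p}.ncard : ℝ)) atTop
      (nhds ((24 * 3 ^ r - 16) / 9 ^ (r + 1))) ∧
    Tendsto (fun X : ℕ => ({p : 𝓞 K × (Fin r → 𝓞 K) | AllL X p ∧ FamL p ∧ TriL p}.ncard : ℝ) /
      ({p : 𝓞 K × (Fin r → 𝓞 K) | AllL X p}.ncard : ℝ)) atTop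
      (nhds ((24 * 3 ^ r - 16) / 9 ^ (r + 1) *
        (∏' i : ℕ, (1 - (1 / 3 : ℝ) ^ (2 * i + 1))) ^ 3 ^ r)) ∧
    ∀ p : 𝓞 K × (Fin r → 𝓞 K), FamO p.1 → (∀ i, FamO (p.2 i)) → FamL p →
      ∀ (F : Type) [Field F] [NumberField F] [Algebra K F] (θ : Fin r → F),
      (∀ i, θ i ^ 3 = algebraMap K F (p.2 i)) →
      (∀ S : Subfield F, (∀ k : K, algebraMap K F k ∈ S) → (∀ i, θ i ∈ S) → S = ⊤) →
      Module.finrank K F = 3 ^ r ∧
      ∃ Λ : ℂ → ℂ, Differentiable ℂ Λ ∧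
        (∀ s : ℂ, 3 / 2 < s.re → Λ s = (ED (algebraMap K F (p.1 : 𝓞 K))).LSeries s) ∧
        (TriL p → Λ 1 ≠ 0 ∧ Finite (ED (algebraMap K F (p.1 : 𝓞 K))).toAffine.Point ∧
          ∀ (n : ℕ) (x : Sha (ED (algebraMap K F (p.1 : 𝓞 K)))),
            3 ^ n • x = 0 → 3 ^ r • x = 0) := by
  obtain ⟨⟨j, hj⟩, -⟩ := Pool.Agent.Y455.CTK.jex K
  obtain ⟨h1, h2, h3⟩ := law_P (r := r) n1 j hj (fun t => ⟨(), by
    unfold n1
    rw [Nat.cast_one]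
    exact one_ne_zero⟩) (fun t t' h => absurd (Subsingleton.elim t t') h)
  rw [kapP_n1] at h2 h3
  have e1 : Fintype.card Unit + r = r + 1 := by rw [Fintype.card_unit, add_comm]
  have e2 : Fintype.card Unit * 3 ^ r = 3 ^ r := by rw [Fintype.card_unit, one_mul]
  rw [e1] at h1
  rw [e2] at h3
  refine ⟨?_, ?_, ?_, ?_⟩
  · obtain ⟨C, X₀, hC, h⟩ := h1
    refine ⟨C, hC, X₀, fun X hX => ?_⟩
    rw [ncard_L]
    simp only [allL_iff]
    exact h X hX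
  · refine h2.congr fun X => ?_
    rw [ncard_L, ncard_L]
    simp only [allL_iff, famL_iff]
  · refine h3.congr fun X => ?_
    rw [ncard_L, ncard_L]
    simp only [allL_iff, famL_iff, triL_iff]
  · intro p hA hB hF F _ _ _ θ hθ hgen
    obtain ⟨q, hq⟩ : ∃ q : (Unit → 𝓞 K) × (Fin r → 𝓞 K), (q.1 (), q.2) = p :=
      ⟨(fun _ => p.1, p.2), rfl⟩
    subst hq
    obtain ⟨hd, L, hL⟩ := ell_T n1 j hj (p := q) (fun _ => hA) hB ((famL_iff q).1 hF) F θ hθ hgen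
    have hLt := hL ()
    rw [dO_n1] at hLt
    exact ⟨hd, L (), hLt.1, hLt.2.1, fun hT => hLt.2.2 hT⟩

end

end Run7.h707.TE
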