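import Pool.Agent.Run7.h707.TE.Fld

/-! The local factors of Mathlib's `L`-series of `E_δ` over any number field -/

set_option autoImplicit false
set_option linter.unusedVariables false
set_option linter.unusedSectionVars false
set_option linter.style.haveILetI false

open scoped Classical

namespace Run7.h707.TE

open NumberField IsDedekindDomain WeierstrassCurve
open Pool.Agent.W189.NF (aV eV redMap Ov mem_max_iff finite_res card_res redMap_eq_zero aLoc eLoc)
open Pool.Agent.H921R2.TatePole (nm two_le_nm)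
open Pool.Agent.Y698 (AP min_count v_unit AP_equiv card_point vc_int)
open Pool.Agent.Y696.CTK
open Run7.h707.TC (GoodAt)

section Local
variable (R : Type) [CommRing R] [IsDomain R] [IsDiscreteValuationRing R] {L : Type}
  [Field L] [Algebra R L] [IsFractionRing R L]

open IsDiscreteValuationRing

/-- a curve isomorphic to one with an integral equation with a unit discriminant -/
theorem min_good' {W₀ : WeierstrassCurve R} (hΔ : IsUnit W₀.Δ) {W : WeierstrassCurve L}
    {C' : VariableChange L} (hW : C' • W = W₀.map (algebraMap R L)) :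
    (W.minimal R).HasGoodReduction R := by
  have hWint : IsIntegral R (C' • W) := ⟨⟨W₀, hW⟩⟩
  have hvW : (maximalIdeal R).valuation L (C' • W).Δ = 1 := by
    rw [hW, map_Δ]
    exact v_unit R hΔ
  obtain ⟨C, hC⟩ : ∃ C : VariableChange L, W.minimal R = C • W := ⟨_, rfl⟩
  have hmin : IsMinimal R (W.minimal R) := inferInstance
  refine ⟨?_⟩
  obtain ⟨h1, h2⟩ := hmin.val_Δ_maximal
  have e1 : (C' * C⁻¹) • W.minimal R = C' • W := by rw [hC, mul_smul, inv_smul_smul]
  have h3 := h2 (j := C' * C⁻¹) (by simp only [e1]; exact hWint)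
  simp only [e1, one_smul] at h3
  have hle : valuation_Δ_aux R (W.minimal R) ≤ valuation_Δ_aux R (C' • W) := by
    rw [← Subtype.coe_le_coe, valuation_Δ_aux_eq_of_isIntegral R (C' • W), hvW]
    exact (valuation_Δ_aux R (W.minimal R)).2
  have h4 := le_antisymm hle (h3 hle)
  have h5 := congrArg Subtype.val h4
  rw [valuation_Δ_aux_eq_of_isIntegral, valuation_Δ_aux_eq_of_isIntegral] at h5
  rw [h5]
  exact hvW

/-- the local factor at a place of good reduction -/
theorem min_count' {W₀ : WeierstrassCurve R} (hΔ : IsUnit W₀.Δ) {W : WeierstrassCurve L}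
    {C' : VariableChange L} (hW : C' • W = W₀.map (algebraMap R L))
    [Finite (IsLocalRing.ResidueField R)] :
    aLoc R W = (Nat.card (IsLocalRing.ResidueField R) : ℤ) -
      Nat.card (AP (W₀.map (IsLocalRing.residue R))) ∧
    eLoc R W = Nat.card (IsLocalRing.ResidueField R) := by
  have hg := min_good' R hΔ hW
  unfold aLoc eLoc
  rw [if_pos hg, if_pos hg]
  refine ⟨?_, rfl⟩
  obtain ⟨C, hC⟩ : ∃ C : VariableChange L, W.minimal R = C • W := ⟨_, rfl⟩
  have h1 : ((W.minimal R).integralModel R).map (algebraMap R L) =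
      (C * C'⁻¹) • W₀.map (algebraMap R L) := by
    have := baseChange_integralModel_eq R (W.minimal R)
    rw [← hW, mul_smul, inv_smul_smul, ← hC]
    exact this
  have h2 : IsUnit ((W.minimal R).integralModel R).Δ := by
    have h3 := hg.goodReduction
    rw [← integralModel_Δ_eq R (W.minimal R),
      IsDedekindDomain.HeightOneSpectrum.valuation_eq_one_iff_notMem] at h3
    by_contra h4
    exact h3 ((IsLocalRing.mem_maximalIdeal _).2 h4)
  obtain ⟨C₀, hC₀⟩ := vc_int R hΔ h2 h1
  have h3 : (W.minimal R).reduction R = (C₀.map (IsLocalRing.residue R)) •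
      (W₀.map (IsLocalRing.residue R)) := by
    unfold WeierstrassCurve.reduction
    rw [hC₀, ← WeierstrassCurve.map_variableChange]
  have h4 : ((W.minimal R).reduction R).Δ ≠ 0 := by
    unfold WeierstrassCurve.reduction
    rw [map_Δ]
    exact (h2.map _).ne_zero
  rw [card_point _ h4, h3, Nat.card_congr (AP_equiv _ _)]
  push_cast
  ring

end Local

section places
variable {K : Type} [Field K] [NumberField K]

theorem intVal_od (v : HeightOneSpectrum (𝓞 K)) {x : 𝓞 K} (hx : x ≠ 0) :
    v.intValuation x = WithZero.exp (-(od v x : ℤ)) := by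
  have h0 : v.intValuation x ≠ 0 := v.intValuation_ne_zero x hx
  obtain ⟨k, hk⟩ : ∃ k : ℤ, v.intValuation x = WithZero.exp k :=
    ⟨WithZero.log _, (WithZero.exp_log h0).symm⟩
  have h1 := (v.intValuation_le_pow_iff_mem x (od v x)).2 ((od_le v hx).1 le_rfl)
  have h2 : ¬ v.intValuation x ≤ WithZero.exp (-((od v x + 1 : ℕ) : ℤ)) := fun h => by
    have h3 := (od_le v hx).2 ((v.intValuation_le_pow_iff_mem x (od v x + 1)).1 h)
    omega
  rw [hk] at h1 h2 ⊢
  rw [WithZero.exp_le_exp] at h1 h2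
  congr 1
  push_cast at h2
  omega

/-- the valuation of a uniformizer in the completion -/
theorem valL_unif {v : HeightOneSpectrum (𝓞 K)} {t : 𝓞 K} (ht0 : t ≠ 0) (ht : od v t = 1) :
    (IsDiscreteValuationRing.maximalIdeal (v.adicCompletionIntegers K)).valuation
      (v.adicCompletion K) (algebraMap K (v.adicCompletion K) (t : K)) =
        WithZero.exp (-1 : ℤ) := by
  have hq : ((algebraMap (𝓞 K) (Ov v) t : Ov v) : v.adicCompletion K) =
      algebraMap K (v.adicCompletion K) (t : K) := coe_comp v t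
  have h1 : Valued.v (algebraMap K (v.adicCompletion K) (t : K)) = WithZero.exp (-1 : ℤ) := by
    rw [Pool.Agent.H723R3.valued_algebraMap]
    have h2 := HeightOneSpectrum.valuation_of_algebraMap (K := K) v t
    rw [intVal_od v ht0, ht] at h2
    exact h2
  have hlt : ∀ x : Ov v, ¬ IsUnit x → Valued.v (x : v.adicCompletion K) ≤ WithZero.exp (-1 : ℤ) := by
    intro x hx
    have h2 := (mem_max_iff v x).1 ((IsLocalRing.mem_maximalIdeal x).2 hx)
    by_cases h0 : Valued.v (x : v.adicCompletion K) = 0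
    · rw [h0]
      exact zero_le
    · obtain ⟨k, hk⟩ : ∃ k : ℤ, Valued.v (x : v.adicCompletion K) = WithZero.exp k :=
        ⟨WithZero.log _, (WithZero.exp_log h0).symm⟩
      rw [hk] at h2 ⊢
      rw [← WithZero.exp_zero, WithZero.exp_lt_exp] at h2
      rw [WithZero.exp_le_exp]
      omega
  have hirr : Irreducible (algebraMap (𝓞 K) (Ov v) t : Ov v) := by
    constructor
    · intro hu
      have h2 := HeightOneSpectrum.adicCompletionIntegers.isUnit_iff_valued_eq_one.1 hu
      rw [hq, h1, WithZero.exp_eq_one] at h2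
      omega
    · intro a b hab
      by_contra hcon
      push Not at hcon
      have h2 := mul_le_mul' (hlt a hcon.1) (hlt b hcon.2)
      have h3 : ((a * b : Ov v) : v.adicCompletion K) =
        (a : v.adicCompletion K) * (b : v.adicCompletion K) := rfl
      rw [← map_mul, ← h3, ← hab, hq, h1, ← WithZero.exp_add, WithZero.exp_le_exp] at h2
      omega
  have h2 := (IsDiscreteValuationRing.irreducible_iff_uniformizer _).1 hirr
  have h3 := (IsDiscreteValuationRing.maximalIdeal (Ov v)).intValuation_singleton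
    (r := (algebraMap (𝓞 K) (Ov v) t : Ov v)) (hirr.ne_zero) h2
  have h4 := (IsDiscreteValuationRing.maximalIdeal (Ov v)).valuation_of_algebraMap
    (K := v.adicCompletion K) (algebraMap (𝓞 K) (Ov v) t : Ov v)
  rw [h3] at h4
  refine Eq.trans ?_ h4
  congr 1

/-- the valuation in the completion -/
theorem valL_od (v : HeightOneSpectrum (𝓞 K)) {x : 𝓞 K} (hx : x ≠ 0) :
    (IsDiscreteValuationRing.maximalIdeal (v.adicCompletionIntegers K)).valuation
      (v.adicCompletion K) (algebraMap K (v.adicCompletion K) (x : K)) =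
        WithZero.exp (-(od v x : ℤ)) := by
  obtain ⟨t, ht0, ht⟩ := ex_unif v
  have htp : t ^ od v x ≠ 0 := pow_ne_zero _ ht0
  have hod : od v (t ^ od v x) = od v x := by rw [od_pow v ht0, ht, mul_one]
  obtain ⟨s, u, hs, hsu, hou⟩ := ex_div v htp hx hod.le
  have hu0 : u ≠ 0 := by
    rintro rfl
    rw [mul_zero] at hsu
    have hs0 : s ≠ 0 := by
      rintro rfl
      exact hs (zero_mem _)
    exact mul_ne_zero hs0 hx hsu
  have huv : u ∉ v.asIdeal := by
    rw [← od_zero v hu0]
    omega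
  have h1 := congrArg (fun z : 𝓞 K => (IsDiscreteValuationRing.maximalIdeal
    (v.adicCompletionIntegers K)).valuation
      (v.adicCompletion K) (algebraMap K (v.adicCompletion K) (z : K))) hsu
  simp only [map_mul, map_pow] at h1
  rw [valL_unit hs, valL_unit huv, one_mul, mul_one, valL_unif ht0 ht, ← WithZero.exp_nsmul] at h1
  rw [h1]
  congr 1
  simp

/-- a place of additive reduction -/
theorem add_F {v : HeightOneSpectrum (𝓞 K)} {δ : 𝓞 K} (hδ : δ ≠ 0)
    (hm : ¬ 12 ∣ 3 * od v (3 : 𝓞 K) + 4 * od v δ) :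
    aV (ED (δ : K)) v = 0 ∧ eV (ED (δ : K)) v = 0 := by
  unfold aV eV
  rw [bcK]
  refine min_add0 (v.adicCompletionIntegers K) hm ?_ (ED_c₄ _)
  have h3 : (3 : 𝓞 K) ≠ 0 := by norm_num
  have e : (ED (algebraMap K (v.adicCompletion K) (δ : K))).Δ =
      -((algebraMap K (v.adicCompletion K) ((3 : 𝓞 K) : K)) ^ 3 *
        (algebraMap K (v.adicCompletion K) (δ : K)) ^ 4) := by
    rw [ED_Δ]
    have : algebraMap K (v.adicCompletion K) ((3 : 𝓞 K) : K) = 3 := by
      have h : ((3 : 𝓞 K) : K) = 3 := by norm_cast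
      rw [h, map_ofNat]
    rw [this]
    ring
  rw [e, Valuation.map_neg, map_mul, map_pow, map_pow, valL_od v h3, valL_od v hδ,
    ← WithZero.exp_nsmul, ← WithZero.exp_nsmul, ← WithZero.exp_add]
  congr 1
  simp only [nsmul_eq_mul]
  push_cast
  ring

/-- the change of the variables -/
theorem vc_ED {L : Type} [Field L] {δ r : L} {u : Lˣ} (h : δ = r * (u : L) ^ 3) :
    (⟨u, 0, 0, 0⟩ : VariableChange L) • ED δ = ED r := by
  have hu : (u : L) ≠ 0 := u.ne_zero
  ext
  · simp [ED, variableChange_a₁]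
  · simp [ED, variableChange_a₂]
  · rw [variableChange_a₃]
    simp only [ED]
    rw [h]
    push_cast
    field_simp
    ring
  · simp [ED, variableChange_a₄]
  · simp [ED, variableChange_a₆]

/-- isomorphic curves -/
theorem iso_F {v : HeightOneSpectrum (𝓞 K)} (h3 : (3 : 𝓞 K) ∉ v.asIdeal) {δ r z z' : 𝓞 K}
    (hδ : δ ≠ 0) (hr : r ∉ v.asIdeal) (hz : z ≠ 0) (h : δ * z ^ 3 = r * z' ^ 3) :
    aV (ED (δ : K)) v = aV (ED (r : K)) v ∧ eV (ED (δ : K)) v = eV (ED (r : K)) v := by
  have hfin := finite_res v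
  have hz' : z' ≠ 0 := by
    rintro rfl
    rw [zero_pow three_ne_zero, mul_zero] at h
    exact mul_ne_zero hδ (pow_ne_zero 3 hz) h
  set f : K →+* v.adicCompletion K := algebraMap K (v.adicCompletion K) with hf
  have hfz : ∀ x : 𝓞 K, x ≠ 0 → f (x : K) ≠ 0 := fun x hx => by
    rw [Ne, map_eq_zero]
    exact fun h' => hx (RingOfIntegers.ext h')
  have hΔ : IsUnit (EDr (algebraMap (𝓞 K) (Ov v) r)).Δ := by
    rw [EDr_Δ]
    have e : (-27 : Ov v) = -((algebraMap (𝓞 K) (Ov v) 3) ^ 3) := by
      rw [map_ofNat]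
      norm_num
    rw [e]
    exact (((isUnit_of_notMem h3).pow 3).neg).mul ((isUnit_of_notMem hr).pow 4)
  have hWr : ED (f (r : K)) = (EDr (algebraMap (𝓞 K) (Ov v) r)).map
      (algebraMap (Ov v) (v.adicCompletion K)) := by
    rw [EDr_map, coe_comp]
  have hC : (⟨Units.mk0 (f (z' : K) / f (z : K)) (div_ne_zero (hfz z' hz') (hfz z hz)), 0, 0, 0⟩ :
      VariableChange (v.adicCompletion K)) • ED (f (δ : K)) =
      (EDr (algebraMap (𝓞 K) (Ov v) r)).map (algebraMap (Ov v) (v.adicCompletion K)) := by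
    rw [← hWr]
    apply vc_ED
    rw [Units.val_mk0, div_pow]
    have h1 : f (δ : K) * f (z : K) ^ 3 = f (r : K) * f (z' : K) ^ 3 := by
      have h2 := congrArg (fun x : 𝓞 K => f (x : K)) h
      simp only [map_mul, map_pow] at h2
      exact h2
    have hz3 := pow_ne_zero 3 (hfz z hz)
    rw [← mul_div_assoc, eq_div_iff hz3]
    exact h1
  obtain ⟨a1, a2⟩ := min_count' (v.adicCompletionIntegers K) hΔ hC
  obtain ⟨b1, b2⟩ := min_count (v.adicCompletionIntegers K) hΔ hWr
  unfold aV eV
  rw [bcK, bcK]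
  exact ⟨a1.trans b1.symm, a2.trans b2.symm⟩

/-- **The local factors of Mathlib's `L`-series.** -/
theorem av_tr {v : HeightOneSpectrum (𝓞 K)} {δ : 𝓞 K} (hδ : δ ≠ 0)
    (hm : (3 : 𝓞 K) ∈ v.asIdeal → ¬ 12 ∣ 3 * od v (3 : 𝓞 K) + 4 * od v δ) :
    aV (ED (δ : K)) v = tr δ v ∧ eV (ED (δ : K)) v = dt δ v := by
  by_cases hg : (3 : 𝓞 K) ∉ v.asIdeal ∧ GoodAt δ v
  · obtain ⟨z, z', hz, hr, h⟩ := hg.2.choose_spec
    obtain ⟨e1, e2⟩ := iso_F hg.1 hδ hr hz h
    obtain ⟨β, -, c2, -⟩ := Pool.Agent.N883.FG.exists_bg v hg.1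
    obtain ⟨-, b2, b3, b4⟩ := c2 _ hr
    unfold tr dt
    rw [dif_pos hg, if_pos hg, e1, e2]
    have b4' : (Nv v hg.2.choose : ℂ) = nm v - (β hg.2.choose + (starRingEnd ℂ) (β hg.2.choose)) := b4
    constructor
    · have h5 : ((aV (ED (hg.2.choose : K)) v : ℤ) : ℂ) =
          (((nm v : ℤ) - (Nv v hg.2.choose : ℤ) : ℤ) : ℂ) := by
        rw [b2]
        push_cast
        rw [b4']
        ring
      exact_mod_cast h5
    · exact_mod_cast b3
  · have h12 : ¬ 12 ∣ 3 * od v (3 : 𝓞 K) + 4 * od v δ := by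
      by_cases h3 : (3 : 𝓞 K) ∈ v.asIdeal
      · exact hm h3
      · have h4 : ¬ 3 ∣ od v δ := fun h => hg ⟨h3, (good_iff hδ v).2 h⟩
        rw [od_of_notMem v h3]
        omega
    obtain ⟨e1, e2⟩ := add_F hδ h12
    unfold tr dt
    rw [dif_neg hg, if_neg hg]
    exact ⟨e1, e2⟩

end places

end Run7.h707.TE
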