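import Mathlib

/-! Existence of the field generated by cube roots -/

set_option autoImplicit false

namespace Run7.h707.TE

theorem ex_F {K : Type} [Field K] [NumberField K] {r : ℕ} (b : Fin r → K) :
    ∃ (F : Type) (_ : Field F) (_ : NumberField F) (_ : Algebra K F) (θ : Fin r → F),
      (∀ i, θ i ^ 3 = algebraMap K F (b i)) ∧
      ∀ S : Subfield F, (∀ k : K, algebraMap K F k ∈ S) → (∀ i, θ i ∈ S) → S = ⊤ := by
  have h1 : ∀ i, ∃ x : AlgebraicClosure K, x ^ 3 = algebraMap K (AlgebraicClosure K) (b i) :=
    fun i => IsAlgClosed.exists_pow_nat_eq _ (by norm_num)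
  choose x hx using h1
  have hfd : FiniteDimensional K (IntermediateField.adjoin K (Set.range x)) :=
    IntermediateField.finiteDimensional_adjoin fun y _ => Algebra.IsIntegral.isIntegral y
  refine ⟨IntermediateField.adjoin K (Set.range x), inferInstance,
    NumberField.of_module_finite K _, inferInstance,
    fun i => ⟨x i, IntermediateField.subset_adjoin K _ ⟨i, rfl⟩⟩, fun i => ?_, ?_⟩
  · apply Subtype.ext
    exact hx i
  · intro S hK hS
    rw [eq_top_iff]
    rintro ⟨y, hy⟩ -
    have h2 : ∀ z ∈ IntermediateField.adjoin K (Set.range x),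
        ∃ hz : z ∈ IntermediateField.adjoin K (Set.range x), (⟨z, hz⟩ :
          IntermediateField.adjoin K (Set.range x)) ∈ S := by
      intro z hz
      induction hz using IntermediateField.adjoin_induction with
      | mem z hz =>
        obtain ⟨i, rfl⟩ := hz
        exact ⟨_, hS i⟩
      | algebraMap k => exact ⟨_, hK k⟩
      | add z w hz hw h3 h4 =>
        obtain ⟨h5, h6⟩ := h3
        obtain ⟨h7, h8⟩ := h4
        exact ⟨add_mem h5 h7, add_mem h6 h8⟩
      | inv z hz h3 =>
        obtain ⟨h5, h6⟩ := h3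
        exact ⟨inv_mem h5, inv_mem h6⟩
      | mul z w hz hw h3 h4 =>
        obtain ⟨h5, h6⟩ := h3
        obtain ⟨h7, h8⟩ := h4
        exact ⟨mul_mem h5 h7, mul_mem h6 h8⟩
    exact (h2 y hy).2

end Run7.h707.TE
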