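import Pool.Agent.Run7.h707.TD.Law
import Pool.Agent.Run7.h707.TC.Fin

/-! The law for the tuples, general finite index types, over the ring of integers -/

set_option autoImplicit false
set_option linter.unusedVariables false
set_option linter.unusedSectionVars false

open scoped Classical

namespace Run7.h707.TE

open Finset Filter NumberField
open Pool.Agent.Y692.QS (Ei w nr)
open Pool.Agent.Y703.XK (c9)
open Pool.Agent.Y696.CTK (Tri)
open Pool.Agent.XLK (fcc)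
open Run7.h707.TC (dlt UC NEc FamU FamO ExO famO_iff exO_iff)
open Run7.h707.TD

theorem fin_all (m X : ℕ) : {a : Fin m → Ei | ∀ k, nr (a k) ≤ X ∧ FamU (a k)}.Finite := by
  have h4 : {a : Fin m → Ei | ∀ k, nr (a k) ≤ X ∧ FamU (a k)} ⊆
      (fun p : Fin m → ZMod 3 × Ei => fun k => ew (p k)) ''
        (PX m X : Set (Fin m → ZMod 3 × Ei)) := by
    intro a ha
    have h5 : ∀ k, ∃ p : ZMod 3 × Ei, p ∈ (univ : Finset (ZMod 3)) ×ˢ
        Pool.Agent.N883.FF.Den3.CF X ∧ ew p = a k := by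
      intro k
      obtain ⟨p, hp⟩ := famU_ew.1 (ha k)
      exact ⟨p, hp⟩
    choose p hp using h5
    exact ⟨p, Finset.mem_coe.2 (Fintype.mem_piFinset.2 fun k => (hp k).1),
      funext fun k => (hp k).2⟩
  exact ((PX m X).finite_toSet.image _).subset h4

section
variable {m Mt Mu : ℕ} (n : Fin Mt → Fin m → ℕ) (n' : Fin Mu → Fin m → ℕ)

/-- removing the tuples with a product that is a unit times a cube does not change the limit -/
theorem lim_uc (hn' : ∀ t, ∃ k, (n' t k : ZMod 3) ≠ 0) (P : (Fin m → Ei) → Prop) {L : ℝ}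
    (h : Tendsto (fun X : ℕ => ({a : Fin m → Ei | (∀ k, nr (a k) ≤ X ∧ FamU (a k)) ∧ P a}.ncard : ℝ) /
      (AT m X : ℝ)) atTop (nhds L)) :
    Tendsto (fun X : ℕ => ({a : Fin m → Ei | (∀ k, nr (a k) ≤ X ∧ FamU (a k)) ∧ P a ∧
      ∀ t, ¬ UC (dlt (n' t) a)}.ncard : ℝ) / (AT m X : ℝ)) atTop (nhds L) := by
  have h2 := uc_lim n' hn'
  have h3 := h.sub h2
  rw [sub_zero] at h3
  refine tendsto_of_tendsto_of_tendsto_of_le_of_le h3 h (fun X => ?_) fun X => ?_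
  · show _ - _ ≤ _
    rw [← sub_div]
    refine div_le_div_of_nonneg_right ?_ (Nat.cast_nonneg _)
    rw [sub_le_iff_le_add]
    have h4 : {a : Fin m → Ei | (∀ k, nr (a k) ≤ X ∧ FamU (a k)) ∧ P a} ⊆
        {a : Fin m → Ei | (∀ k, nr (a k) ≤ X ∧ FamU (a k)) ∧ P a ∧ ∀ t, ¬ UC (dlt (n' t) a)} ∪
        {a : Fin m → Ei | (∀ k, nr (a k) ≤ X ∧ FamU (a k)) ∧ ∃ t, UC (dlt (n' t) a)} := by
      rintro a ⟨h5, h6⟩
      by_cases h8 : ∃ t, UC (dlt (n' t) a)
      · exact Or.inr ⟨h5, h8⟩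
      · exact Or.inl ⟨h5, h6, fun t h9 => h8 ⟨t, h9⟩⟩
    have hf1 : {a : Fin m → Ei | (∀ k, nr (a k) ≤ X ∧ FamU (a k)) ∧ P a ∧
      ∀ t, ¬ UC (dlt (n' t) a)}.Finite := (fin_all m X).subset fun a ha => ha.1
    have hf2 : {a : Fin m → Ei | (∀ k, nr (a k) ≤ X ∧ FamU (a k)) ∧
      ∃ t, UC (dlt (n' t) a)}.Finite := (fin_all m X).subset fun a ha => ha.1
    have h10 := (Set.ncard_le_ncard h4 (hf1.union hf2)).trans (Set.ncard_union_le _ _)
    rw [cnt_ew m X fun a => ∃ t, UC (dlt (n' t) a)] at h10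
    have h11 := Nat.cast_le (α := ℝ).2 h10
    rw [Nat.cast_add] at h11
    refine h11.trans (Eq.le ?_)
    congr 1
    exact congrArg Nat.cast (fcc fun _ _ => Iff.rfl)
  · refine div_le_div_of_nonneg_right ?_ (Nat.cast_nonneg _)
    have hf : {a : Fin m → Ei | (∀ k, nr (a k) ≤ X ∧ FamU (a k)) ∧ P a}.Finite :=
      (fin_all m X).subset fun a ha => ha.1
    have hsub : {a : Fin m → Ei | (∀ k, nr (a k) ≤ X ∧ FamU (a k)) ∧ P a ∧
        ∀ t, ¬ UC (dlt (n' t) a)} ⊆ {a : Fin m → Ei | (∀ k, nr (a k) ≤ X ∧ FamU (a k)) ∧ P a} :=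
      fun a ha => ⟨ha.1, ha.2.1⟩
    exact Nat.cast_le.2 (Set.ncard_le_ncard hsub hf)

end

/-! ### general index types, over the ring of integers -/

section
variable {K : Type} [Field K] [NumberField K] {I : Type} [Fintype I]

/-- the monomial -/
noncomputable def dO (n : I → ℕ) (a : I → 𝓞 K) : 𝓞 K := ∏ k, a k ^ n k

/-- a unit times a cube -/
def UO (δ : 𝓞 K) : Prop := ∃ u x : 𝓞 K, IsUnit u ∧ δ = u * x ^ 3

/-- the equivalence of the tuples -/
noncomputable def eqI (j : Ei ≃+* 𝓞 K) {m : ℕ} (eI : I ≃ Fin m) : (Fin m → Ei) ≃ (I → 𝓞 K) :=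
  (Equiv.arrowCongr eI.symm j.toEquiv)

theorem eqI_apply (j : Ei ≃+* 𝓞 K) {m : ℕ} (eI : I ≃ Fin m) (b : Fin m → Ei) (k : I) :
    eqI j eI b k = j (b (eI k)) := rfl

theorem ncard_eqI (j : Ei ≃+* 𝓞 K) {m : ℕ} (eI : I ≃ Fin m) (P : (I → 𝓞 K) → Prop) :
    {a : I → 𝓞 K | P a}.ncard = {b : Fin m → Ei | P (eqI j eI b)}.ncard := by
  rw [← Set.ncard_image_of_injective _ (eqI j eI).injective]
  congr 1
  ext a
  simp only [Set.mem_ofPred_eq, Set.mem_image]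
  constructor
  · intro h
    exact ⟨(eqI j eI).symm a, by simpa using h, by simp⟩
  · rintro ⟨b, h1, rfl⟩
    exact h1

theorem dO_eqI (j : Ei ≃+* 𝓞 K) {m : ℕ} (eI : I ≃ Fin m) (n : I → ℕ) (b : Fin m → Ei) :
    dO n (eqI j eI b) = j (dlt (fun k => n (eI.symm k)) b) := by
  unfold dO dlt
  rw [map_prod, ← Equiv.prod_comp eI]
  refine prod_congr rfl fun k _ => ?_
  show _ = j (b (eI k) ^ n (eI.symm (eI k)))
  rw [map_pow, eqI_apply, Equiv.symm_apply_apply]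

theorem uO_iff (j : Ei ≃+* 𝓞 K) (x : Ei) : UO (j x) ↔ UC x := by
  constructor
  · rintro ⟨u, y, hu, h⟩
    obtain ⟨u, rfl⟩ := j.surjective u
    obtain ⟨y, rfl⟩ := j.surjective y
    refine ⟨u, y, (MulEquiv.isUnit_map j).1 hu, ?_⟩
    apply j.injective
    rw [map_mul, map_pow]
    exact h
  · rintro ⟨u, y, hu, h⟩
    exact ⟨j u, j y, hu.map j, by rw [h, map_mul, map_pow]⟩

/-- all the tuples -/
def AllO (X : ℕ) (a : I → 𝓞 K) : Prop := ∀ k, Algebra.norm ℤ (a k) ≤ X ∧ FamO (a k)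

/-- the proportion of the classes -/
noncomputable def kapI {J : Type} (n : J → I → ℕ) : ℝ :=
  ({u : I → ZMod 3 × ZMod 3 | ∀ t, ∑ k, n t k • u k ≠ 0}.ncard : ℝ) / 9 ^ Fintype.card I

theorem kapI_eq {J : Type} (n : J → I → ℕ) {m Mt : ℕ} (eI : I ≃ Fin m) (eJ : J ≃ Fin Mt) :
    kapI n = kap9 (fun t k => n (eJ.symm t) (eI.symm k)) := by
  unfold kapI kap9
  have h1 : Fintype.card I = m := by
    rw [Fintype.card_congr eI, Fintype.card_fin]
  rw [h1]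
  congr 2
  have hinj : Function.Injective (fun b : Fin m → ZMod 3 × ZMod 3 => fun k : I => b (eI k)) := by
    intro b b' h
    funext k
    have := congrFun h (eI.symm k)
    simpa using this
  have h2 : {u : I → ZMod 3 × ZMod 3 | ∀ t, ∑ k, n t k • u k ≠ 0} =
      (fun b : Fin m → ZMod 3 × ZMod 3 => fun k : I => b (eI k)) ''
        {b : Fin m → ZMod 3 × ZMod 3 | ∀ t, ∑ k, n (eJ.symm t) (eI.symm k) • b k ≠ 0} := by
    ext u
    simp only [Set.mem_ofPred_eq, Set.mem_image]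
    constructor
    · intro h
      refine ⟨fun k => u (eI.symm k), fun t => ?_, by simp⟩
      rw [Equiv.sum_comp eI.symm (fun k => n (eJ.symm t) k • u k)]
      exact h _
    · rintro ⟨b, hb, rfl⟩ t
      have h := hb (eJ t)
      rw [← Equiv.sum_comp eI] at h
      simpa using h
  rw [h2, Set.ncard_image_of_injective _ hinj, ← Set.ncard_coe_finset]
  congr 1
  ext b
  simp

end

section
variable {K : Type} [Field K] [NumberField K] {I J J' : Type} [Fintype I] [Fintype J]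
  [Fintype J']

/-- **The law over the ring of integers, general index types.** -/
theorem lawI (j : Ei ≃+* 𝓞 K) (hj : ∀ z : Ei, Algebra.norm ℤ (j z) = nr z) (n : J → I → ℕ)
    (n' : J' → I → ℕ) (hn : ∀ t, ∃ k, (n t k : ZMod 3) ≠ 0) (hn' : ∀ t, ∃ k, (n' t k : ZMod 3) ≠ 0)
    (hsep : ∀ t t', t ≠ t' → (∃ k, (n t k : ZMod 3) ≠ n t' k) ∧
      ∃ k, (n t k : ZMod 3) ≠ - (n t' k : ZMod 3)) :
    (∃ (c : ℝ) (X₀ : ℕ), 0 < c ∧ ∀ X : ℕ, X₀ ≤ X → c * (X : ℝ) ^ Fintype.card I ≤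
      ({a : I → 𝓞 K | AllO X a}.ncard : ℝ)) ∧
    Tendsto (fun X : ℕ => ({a : I → 𝓞 K | AllO X a ∧ (∀ t, ¬ ExO (dO (n t) a)) ∧
      ∀ t, ¬ UO (dO (n' t) a)}.ncard : ℝ) / ({a : I → 𝓞 K | AllO X a}.ncard : ℝ)) atTop
      (nhds (kapI n)) ∧
    Tendsto (fun X : ℕ => ({a : I → 𝓞 K | AllO X a ∧ ((∀ t, ¬ ExO (dO (n t) a)) ∧
      ∀ t, ¬ UO (dO (n' t) a)) ∧ ∀ t, Tri (dO (n t) a)}.ncard : ℝ) /
      ({a : I → 𝓞 K | AllO X a}.ncard : ℝ)) atTop
      (nhds (kapI n * c9 ^ Fintype.card J)) := by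
  set eI := Fintype.equivFin I with heI
  set eJ := Fintype.equivFin J with heJ
  set eJ' := Fintype.equivFin J' with heJ'
  set m := Fintype.card I with hm
  obtain ⟨N, hN⟩ : ∃ N : Fin (Fintype.card J) → Fin m → ℕ,
    N = fun t k => n (eJ.symm t) (eI.symm k) := ⟨_, rfl⟩
  obtain ⟨N', hN'⟩ : ∃ N' : Fin (Fintype.card J') → Fin m → ℕ,
    N' = fun t k => n' (eJ'.symm t) (eI.symm k) := ⟨_, rfl⟩
  have h1 : ∀ t, ∃ k, (N t k : ZMod 3) ≠ 0 := fun t => by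
    obtain ⟨k, hk⟩ := hn (eJ.symm t)
    exact ⟨eI k, by rw [hN]; simpa using hk⟩
  have h1' : ∀ t, ∃ k, (N' t k : ZMod 3) ≠ 0 := fun t => by
    obtain ⟨k, hk⟩ := hn' (eJ'.symm t)
    exact ⟨eI k, by rw [hN']; simpa using hk⟩
  have hs : ∀ t t', t ≠ t' → (∃ k, (N t k : ZMod 3) ≠ N t' k) ∧
      ∃ k, (N t k : ZMod 3) ≠ - (N t' k : ZMod 3) := fun t t' ht => by
    obtain ⟨⟨k, hk⟩, ⟨k', hk'⟩⟩ := hsep (eJ.symm t) (eJ.symm t') (fun h => ht (eJ.symm.injective h))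
    exact ⟨⟨eI k, by rw [hN]; simpa using hk⟩, ⟨eI k', by rw [hN]; simpa using hk'⟩⟩
  have e0 : ∀ X : ℕ, {a : I → 𝓞 K | AllO X a}.ncard = AT m X := by
    intro X
    rw [ncard_eqI j eI]
    unfold AT
    congr 1
    ext b
    simp only [Set.mem_ofPred_eq, AllO, eqI_apply, hj, famO_iff]
    constructor
    · intro h k
      have := h (eI.symm k)
      rwa [Equiv.apply_symm_apply] at this
    · intro h k
      exact h (eI k)
  have hd : ∀ (t : J) (b : Fin m → Ei), dO (n t) (eqI j eI b) = j (dlt (N (eJ t)) b) := by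
    intro t b
    rw [dO_eqI, hN]
    simp
  have hd' : ∀ (t : J') (b : Fin m → Ei), dO (n' t) (eqI j eI b) = j (dlt (N' (eJ' t)) b) := by
    intro t b
    rw [dO_eqI, hN']
    simp
  have hA : ∀ (X : ℕ) (b : Fin m → Ei), AllO X (eqI j eI b) ↔ ∀ k, nr (b k) ≤ X ∧ FamU (b k) := by
    intro X b
    simp only [AllO, eqI_apply, hj, famO_iff]
    constructor
    · intro h k
      have := h (eI.symm k)
      rwa [Equiv.apply_symm_apply] at this
    · intro h k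
      exact h (eI k)
  have hE : ∀ b : Fin m → Ei, (∀ t, ¬ ExO (dO (n t) (eqI j eI b))) ↔ ∀ t, NEc (dlt (N t) b) := by
    intro b
    simp only [hd, exO_iff j hj]
    exact ⟨fun h t => by simpa using h (eJ.symm t), fun h t => h _⟩
  have hU : ∀ b : Fin m → Ei, (∀ t, ¬ UO (dO (n' t) (eqI j eI b))) ↔ ∀ t, ¬ UC (dlt (N' t) b) := by
    intro b
    simp only [hd', uO_iff]
    exact ⟨fun h t => by simpa using h (eJ'.symm t), fun h t => h _⟩
  have hT : ∀ b : Fin m → Ei, (∀ t, Tri (dO (n t) (eqI j eI b))) ↔ ∀ t, Tri (j (dlt (N t) b)) := by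
    intro b
    simp only [hd]
    exact ⟨fun h t => by simpa using h (eJ.symm t), fun h t => h _⟩
  have ek : kapI n = kap9 N := by rw [kapI_eq n eI eJ, hN]
  refine ⟨?_, ?_, ?_⟩
  · obtain ⟨c, X₀, hc, h⟩ := AT_low (m := m)
    exact ⟨c, X₀, hc, fun X hX => by rw [e0]; exact h X hX⟩
  · have h2 := lim_uc N' h1' (fun b => ∀ t, NEc (dlt (N t) b)) (L := kap9 N) (NV_lim N h1)
    rw [ek]
    refine h2.congr fun X => ?_
    rw [e0, ncard_eqI j eI]
    congr 3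
    ext b
    exact and_congr (hA X b).symm (and_congr (hE b).symm (hU b).symm)
  · have h2 := lim_uc N' h1' (fun b => (∀ t, NEc (dlt (N t) b)) ∧ ∀ t, Tri (j (dlt (N t) b)))
      (L := kap9 N * c9 ^ Fintype.card J) (lawV N j h1 hs)
    rw [ek]
    refine h2.congr fun X => ?_
    rw [e0, ncard_eqI j eI]
    congr 3
    ext b
    constructor
    · rintro ⟨a1, ⟨a2, a3⟩, a4⟩
      exact ⟨(hA X b).2 a1, ⟨(hE b).2 a2, (hU b).2 a4⟩, (hT b).2 a3⟩
    · rintro ⟨a1, ⟨a2, a4⟩, a3⟩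
      exact ⟨(hA X b).1 a1, ⟨(hE b).1 a2, (hT b).1 a3⟩, (hU b).1 a4⟩

end

end Run7.h707.TE
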