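import Pool.Agent.Run7.h707.TE.Fld
import Pool.Agent.Y455.CTK.JEX

/-! The final statement: diagonal cubic hypersurfaces over the fields of cube roots -/

set_option autoImplicit false
set_option linter.unusedVariables false
set_option linter.unusedSectionVars false

open scoped Classical

namespace Run7.h707.TE

open Finset Filter NumberField IsDedekindDomain
open Pool.Agent.N883.FG
open Pool.Agent.N883.DQ (Dt)
open Pool.Agent.Y692.QS (Ei w nr)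
open Pool.Agent.Y703.XK (c9)
open Pool.Agent.H921R2.TatePole (nm)
open Pool.Agent.Y696.CTK (ED Tri)
open Pool.Agent.TH841.NF.D (Sha)
open Run7.h707.TC (FamO ExO IsLFT nT nT_ne nT_sep nT_cases mem_SS)

section
variable {K : Type} [Field K] [NumberField K]

theorem dO_nT {c : ℕ} (a : Fin (2 * c + 3) → 𝓞 K) (T : Finset (Fin (2 * c + 3))) :
    dO (nT T) a = Dt a T := by
  unfold Pool.Agent.N883.DQ.Dt dO nT
  have h1 : ∏ i ∈ T, a i = ∏ i, if i ∈ T then a i else 1 := by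
    rw [Finset.prod_ite_mem, Finset.univ_inter]
  rw [h1, ← Finset.prod_mul_distrib]
  refine Finset.prod_congr rfl fun k _ => ?_
  split_ifs
  · rw [pow_two]
  · rw [pow_one, mul_one]

theorem nT_sep2 {c : ℕ} {T T' : Finset (Fin (2 * c + 3))} (hT : T ∈ SS c) (hT' : T' ∈ SS c)
    (hne : T ≠ T') : (∃ k, (nT T k : ZMod 3) ≠ nT T' k) ∧
      ∃ k, (nT T k : ZMod 3) ≠ - (nT T' k : ZMod 3) := by
  have k₀ : Fin (2 * c + 3) := ⟨0, by omega⟩
  obtain ⟨k, hk⟩ := nT_sep hT hT' hne k₀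
  constructor
  · by_contra h
    push Not at h
    apply hk
    rw [h k, h k₀]
  · by_contra h
    push Not at h
    apply hk
    rw [h k, h k₀]
    ring

variable {r : ℕ}

/-- the family of the pairs (coefficients, field parameters) -/
def FamH {c : ℕ} (p : (Fin (2 * c + 3) → 𝓞 K) × (Fin r → 𝓞 K)) : Prop :=
  (∀ T : Finset (Fin (2 * c + 3)), T.card = c → ∀ ν : Fin r → ZMod 3,
    ¬ ExO (Dt p.1 T * bp p.2 ν)) ∧ ∀ ν : Fin r → ZMod 3, ν ≠ 0 → ¬ UO (bp p.2 ν)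

/-- all the curves over `K` have finitely many points and no `3`-part of `Ш` -/
def TriH {c : ℕ} (p : (Fin (2 * c + 3) → 𝓞 K) × (Fin r → 𝓞 K)) : Prop :=
  ∀ T : Finset (Fin (2 * c + 3)), T.card = c → ∀ ν : Fin r → ZMod 3, Tri (Dt p.1 T * bp p.2 ν)

/-- the proportion of the family -/
noncomputable def kapH (c r : ℕ) : ℝ :=
  ({u : (Fin (2 * c + 3) → ZMod 3 × ZMod 3) × (Fin r → ZMod 3 × ZMod 3) |
    ∀ T : Finset (Fin (2 * c + 3)), T.card = c → ∀ ν : Fin r → ZMod 3,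
    ∑ k, u.1 k + ∑ k ∈ T, u.1 k + ∑ i, (ν i).val • u.2 i ≠ 0}.ncard : ℝ) / 9 ^ (2 * c + 3 + r)

theorem famH_iff {c : ℕ} (p : (Fin (2 * c + 3) → 𝓞 K) × (Fin r → 𝓞 K)) :
    FamH p ↔ FamP (fun T : ↥(SS c) => nT (T : Finset (Fin (2 * c + 3)))) p := by
  unfold FamH FamP
  simp only [Subtype.forall, dO_nT, mem_SS]

theorem triH_iff {c : ℕ} (p : (Fin (2 * c + 3) → 𝓞 K) × (Fin r → 𝓞 K)) :
    TriH p ↔ TriP (fun T : ↥(SS c) => nT (T : Finset (Fin (2 * c + 3)))) p := by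
  unfold TriH TriP
  simp only [Subtype.forall, dO_nT, mem_SS]

theorem kapH_eq (c r : ℕ) :
    kapH c r = kapP (fun T : ↥(SS c) => nT (T : Finset (Fin (2 * c + 3)))) r := by
  unfold kapH kapP
  rw [Fintype.card_fin]
  congr 3
  ext u
  simp only [Set.mem_ofPred_eq, Subtype.forall, mem_SS]
  refine forall_congr' fun T => imp_congr_right fun hT => forall_congr' fun ν => not_congr ?_
  have h : ∑ k, nT T k • u.1 k = ∑ k, u.1 k + ∑ k ∈ T, u.1 k := by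
    have h1 : ∑ i ∈ T, u.1 i = ∑ i, if i ∈ T then u.1 i else 0 := by
      rw [Finset.sum_ite_mem, Finset.univ_inter]
    rw [h1, ← Finset.sum_add_distrib]
    refine Finset.sum_congr rfl fun k _ => ?_
    unfold nT
    split_ifs
    · rw [two_nsmul]
    · rw [one_nsmul, add_zero]
  rw [h]

/-- **The final statement.** -/
theorem finE (K : Type) [Field K] [NumberField K] [IsCyclotomicExtension {3} ℚ K] :
    (0.639 : ℝ) < ∏' i : ℕ, (1 - (1 / 3 : ℝ) ^ (2 * i + 1)) ∧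
    ∀ c : ℕ, c ≤ 2 → ∀ r : ℕ,
      0 < kapH c r ∧
      (∃ C : ℝ, 0 < C ∧ ∃ X₀ : ℕ, ∀ X : ℕ, X₀ ≤ X → C * (X : ℝ) ^ (2 * c + 3 + r) ≤
        ({p : (Fin (2 * c + 3) → 𝓞 K) × (Fin r → 𝓞 K) | AllP X p}.ncard : ℝ)) ∧
      Tendsto (fun X : ℕ =>
        ({p : (Fin (2 * c + 3) → 𝓞 K) × (Fin r → 𝓞 K) | AllP X p ∧ FamH p}.ncard : ℝ) /
        ({p : (Fin (2 * c + 3) → 𝓞 K) × (Fin r → 𝓞 K) | AllP X p}.ncard : ℝ)) atTop
        (nhds (kapH c r)) ∧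
      Tendsto (fun X : ℕ =>
        ({p : (Fin (2 * c + 3) → 𝓞 K) × (Fin r → 𝓞 K) | AllP X p ∧ FamH p ∧ TriH p}.ncard : ℝ) /
        ({p : (Fin (2 * c + 3) → 𝓞 K) × (Fin r → 𝓞 K) | AllP X p}.ncard : ℝ)) atTop
        (nhds (kapH c r *
          (∏' i : ℕ, (1 - (1 / 3 : ℝ) ^ (2 * i + 1))) ^ ((2 * c + 3).choose c * 3 ^ r))) ∧
      ∀ p : (Fin (2 * c + 3) → 𝓞 K) × (Fin r → 𝓞 K), (∀ k, FamO (p.1 k)) → (∀ i, FamO (p.2 i)) →
        FamH p → ∀ (F : Type) [Field F] [NumberField F] [Algebra K F] (θ : Fin r → F),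
        (∀ i, θ i ^ 3 = algebraMap K F (p.2 i)) →
        (∀ S : Subfield F, (∀ k : K, algebraMap K F k ∈ S) → (∀ i, θ i ∈ S) → S = ⊤) →
        Module.finrank K F = 3 ^ r ∧
        ∃ L : ℂ → ℂ, IsLFT (fun k => algebraMap (𝓞 K) (𝓞 F) (p.1 k)) L ∧
          (TriH p → L (c + 1) ≠ 0 ∧ ∀ T : Finset (Fin (2 * c + 3)), T.card = c →
            Finite (ED (algebraMap K F (Dt p.1 T : 𝓞 K))).toAffine.Point ∧
            ∀ (n : ℕ) (x : Sha (ED (algebraMap K F (Dt p.1 T : 𝓞 K)))),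
              3 ^ n • x = 0 → 3 ^ r • x = 0) := by
  obtain ⟨⟨j, hj⟩, -⟩ := Pool.Agent.Y455.CTK.jex K
  refine ⟨Pool.Agent.XLK.t_C9.2.2.2.1, fun c hc r => ?_⟩
  have k₀ : Fin (2 * c + 3) := ⟨0, by omega⟩
  have hcard : Fintype.card ↥(SS c) = (2 * c + 3).choose c := by
    rw [Fintype.card_coe]
    unfold SS
    rw [card_powersetCard, card_univ, Fintype.card_fin]
  obtain ⟨h1, h2, h3⟩ := law_P (r := r) (fun T : ↥(SS c) => nT (T : Finset (Fin (2 * c + 3)))) j hj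
    (fun t => ⟨k₀, nT_ne _ k₀⟩)
    (fun t t' h => nT_sep2 t.2 t'.2 fun h' => h (Subtype.ext h'))
  simp only [← famH_iff, ← triH_iff, ← kapH_eq, hcard, Fintype.card_fin] at h1 h2 h3
  refine ⟨?_, ?_, h2, h3, ?_⟩
  · rw [kapH_eq]
    exact kapP_pos _ k₀ fun t => nT_ne _ k₀
  · obtain ⟨C, X₀, hC, h⟩ := h1
    exact ⟨C, hC, X₀, h⟩
  · intro p hA hB hF F _ _ _ θ hθ hgen
    obtain ⟨hd, L, hL⟩ := fld_T (fun T : ↥(SS c) => nT (T : Finset (Fin (2 * c + 3)))) j hj hA hB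
      ((famH_iff p).1 hF) F θ hθ hgen
    refine ⟨hd, ?_⟩
    obtain ⟨LT, hLT⟩ : ∃ LT : Finset (Fin (2 * c + 3)) → ℂ → ℂ, ∀ T : ↥(SS c), LT T = L T := by
      refine ⟨fun T => if h : T ∈ SS c then L ⟨T, h⟩ else 0, fun T => ?_⟩
      exact dif_pos T.2
    have hDt : ∀ T : Finset (Fin (2 * c + 3)), Dt (fun k => algebraMap (𝓞 K) (𝓞 F) (p.1 k)) T =
        algebraMap (𝓞 K) (𝓞 F) (Dt p.1 T) := by
      intro T
      unfold Pool.Agent.N883.DQ.Dt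
      rw [map_mul, map_prod, map_prod]
    have hne : ∀ k, algebraMap (𝓞 K) (𝓞 F) (p.1 k) ≠ 0 := fun k => alg_ne (ne_of_famO (hA k))
    refine ⟨_, gen_F hc hne (L := LT) (fun T hT => ?_) (fun T hT s hs => ?_), fun ht => ⟨?_, ?_⟩⟩
    · rw [hLT ⟨T, hT⟩]
      exact (hL ⟨T, hT⟩).1
    · rw [hLT ⟨T, hT⟩, hDt, ← dO_nT]
      exact (hL ⟨T, hT⟩).2.1 s hs
    · refine Finset.prod_ne_zero_iff.2 fun T hT => ?_
      rw [add_sub_cancel_left, hLT ⟨T, hT⟩]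
      refine ((hL ⟨T, hT⟩).2.2 fun ν => ?_).1
      rw [dO_nT]
      exact ht T (mem_SS.1 hT) ν
    · intro T hT
      have h5 := ((hL ⟨T, mem_SS.2 hT⟩).2.2 fun ν => by rw [dO_nT]; exact ht T hT ν).2
      rw [dO_nT] at h5
      exact h5

end

end Run7.h707.TE
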