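import Pool.Agent.Run7.h707.TE.Loc

/-! Ramification and residue degrees -/

set_option autoImplicit false
set_option linter.unusedVariables false
set_option linter.unusedSectionVars false
set_option linter.style.haveILetI false
set_option linter.deprecated false

open scoped Classical

namespace Run7.h707.TE

open Finset NumberField IsDedekindDomain
open Pool.Agent.H921R2.TatePole (nm two_le_nm)
open Pool.Agent.R433.MD (Fib fib_le fdeg nm_fib algFib_mk und fdeg_pos)
open Run7.h707.TC (GoodAt)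

section
variable {K : Type} [Field K] [NumberField K] {N : Type} [Field N] [NumberField N] [Algebra K N]

/-- the ramification index -/
noncomputable def ram {v : HeightOneSpectrum (𝓞 K)} (w : Fib N v) : ℕ :=
  v.asIdeal.ramificationIdx' w.1.asIdeal

theorem lies {v : HeightOneSpectrum (𝓞 K)} (w : Fib N v) : w.1.asIdeal.LiesOver v.asIdeal :=
  ⟨fib_le w⟩

theorem alg_ne {x : 𝓞 K} (hx : x ≠ 0) : algebraMap (𝓞 K) (𝓞 N) x ≠ 0 :=
  (map_ne_zero_iff _ (RingOfIntegers.algebraMap.injective K N)).2 hx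

theorem mem_fib {v : HeightOneSpectrum (𝓞 K)} (w : Fib N v) (x : 𝓞 K) :
    algebraMap (𝓞 K) (𝓞 N) x ∈ w.1.asIdeal ↔ x ∈ v.asIdeal := by
  conv_rhs => rw [fib_le w]
  rfl

theorem od_fib {v : HeightOneSpectrum (𝓞 K)} (w : Fib N v) {x : 𝓞 K} (hx : x ≠ 0) :
    od w.1 (algebraMap (𝓞 K) (𝓞 N) x) = ram w * od v x := by
  have hl := lies w
  have h1 := Ideal.IsDedekindDomain.emultiplicity_map_eq_ramificationIdx'_mul (S := 𝓞 N)
    (v := v.asIdeal) (w := w.1.asIdeal) (I := Ideal.span {x}) (span_ne hx)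
    v.prime.irreducible w.1.prime.irreducible w.1.ne_bot
  rw [Ideal.map_span, Set.image_singleton, (fin_od w.1 (alg_ne hx)).emultiplicity_eq_multiplicity,
    (fin_od v hx).emultiplicity_eq_multiplicity] at h1
  unfold od ram
  exact_mod_cast h1

theorem card_pow {k E : Type} [Field k] [Ring E] [Finite E] (A : Algebra k E) :
    Nat.card E = Nat.card k ^ (@Module.finrank k E _ _ A.toModule) := by
  letI := A
  have : Module.Finite k E := Module.Finite.of_finite
  exact Module.natCard_eq_pow_finrank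

/-- **the sum of `e f`** -/
theorem sum_fib (v : HeightOneSpectrum (𝓞 K)) :
    ∑ w : Fib N v, ram w * fdeg w = Module.finrank K N := by
  have hm : v.asIdeal.IsMaximal := v.isMaximal
  have h1 := Ideal.sum_ramification_inertia (𝓞 N) K N (p := v.asIdeal) v.ne_bot
  rw [← h1]
  refine Finset.sum_bij (fun w _ => w.1.asIdeal) ?_ ?_ ?_ ?_
  · intro w _
    rw [IsDedekindDomain.mem_primesOverFinset_iff v.ne_bot]
    exact ⟨w.1.isPrime, lies w⟩
  · intro w _ w' _ h
    exact Subtype.ext (HeightOneSpectrum.ext h)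
  · intro P hP
    rw [IsDedekindDomain.mem_primesOverFinset_iff v.ne_bot] at hP
    obtain ⟨hP1, hP2⟩ := hP
    have hne : P ≠ ⊥ := by
      rintro rfl
      have := hP2.over
      apply v.ne_bot
      rw [this, Ideal.under_def]
      exact Ideal.comap_bot_of_injective _ (RingOfIntegers.algebraMap.injective K N)
    refine ⟨⟨⟨P, hP1, hne⟩, HeightOneSpectrum.ext ?_⟩, mem_univ _, rfl⟩
    exact hP2.over.symm
  · intro w _
    have hl := lies w
    rw [Ideal.inertiaDeg'_algebraMap]
    unfold ram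
    refine congrArg _ (Nat.pow_right_injective (two_le_nm v) ?_)
    show nm v ^ fdeg w = nm v ^ _
    rw [← nm_fib w, ← card_nm v, ← card_nm w.1]
    exact card_pow _

theorem ram_pos {v : HeightOneSpectrum (𝓞 K)} (w : Fib N v) : 0 < ram w := by
  have hl := lies w
  exact Nat.pos_of_ne_zero (Ideal.IsDedekindDomain.ramificationIdx'_ne_zero_of_liesOver _ v.ne_bot)

/-- one place with `e f = 3` -/
theorem one_fib {v : HeightOneSpectrum (𝓞 K)} (h3 : Module.finrank K N = 3) (w : Fib N v)
    (hw : 3 ≤ ram w * fdeg w) : (∀ w' : Fib N v, w' = w) ∧ ram w * fdeg w = 3 := by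
  have h1 := sum_fib (N := N) v
  rw [h3, ← Finset.add_sum_erase univ _ (mem_univ w)] at h1
  have h2 : ∀ w' ∈ univ.erase w, False := by
    intro w' hw'
    have h4 : ram w' * fdeg w' ≤ ∑ x ∈ univ.erase w, ram x * fdeg x :=
      Finset.single_le_sum (f := fun x : Fib N v => ram x * fdeg x) (fun _ _ => Nat.zero_le _) hw'
    have h5 : 0 < ram w' * fdeg w' := Nat.mul_pos (ram_pos w') (fdeg_pos w')
    omega
  refine ⟨fun w' => ?_, ?_⟩
  · by_contra h
    exact h2 w' (mem_erase.2 ⟨h, mem_univ _⟩)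
  · have h4 : ∑ x ∈ univ.erase w, ram x * fdeg x = 0 :=
      Finset.sum_eq_zero fun x hx => (h2 x hx).elim
    omega

/-- three places -/
theorem three_fib {v : HeightOneSpectrum (𝓞 K)} (h3 : Module.finrank K N = 3) (w : Fin 3 → Fib N v)
    (hw : Function.Injective w) : Function.Bijective w ∧ ∀ i, ram (w i) = 1 ∧ fdeg (w i) = 1 := by
  have h1 := sum_fib (N := N) v
  rw [h3] at h1
  have h2 : ∑ i : Fin 3, ram (w i) * fdeg (w i) ≤ 3 := by
    have h5 : ∑ x ∈ univ.image w, ram x * fdeg x = ∑ i : Fin 3, ram (w i) * fdeg (w i) :=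
      Finset.sum_image fun a _ b _ h => hw h
    rw [← h5]
    exact (Finset.sum_le_sum_of_subset (subset_univ _)).trans h1.le
  have h4 : ∀ i, 1 ≤ ram (w i) * fdeg (w i) := fun i => Nat.mul_pos (ram_pos _) (fdeg_pos _)
  rw [Fin.sum_univ_three] at h2
  have h5 : ∀ i, ram (w i) * fdeg (w i) = 1 := by
    intro i
    have a0 := h4 0
    have a1 := h4 1
    have a2 := h4 2
    fin_cases i
    · show ram (w 0) * fdeg (w 0) = 1
      omega
    · show ram (w 1) * fdeg (w 1) = 1
      omega
    · show ram (w 2) * fdeg (w 2) = 1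
      omega
  refine ⟨⟨hw, fun x => ?_⟩, fun i => ⟨Nat.eq_one_of_mul_eq_one_right (h5 i),
    Nat.eq_one_of_mul_eq_one_left (h5 i)⟩⟩
  by_contra hx
  push Not at hx
  have h6 : x ∉ univ.image w := by
    rw [mem_image]
    rintro ⟨i, -, hi⟩
    exact hx i hi
  have h7 : ∑ y ∈ insert x (univ.image w), ram y * fdeg y ≤ 3 :=
    (Finset.sum_le_sum_of_subset (subset_univ _)).trans h1.le
  rw [Finset.sum_insert h6, Finset.sum_image fun a _ b _ h => hw h, Fin.sum_univ_three, h5, h5,
    h5] at h7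
  have h8 : 0 < ram x * fdeg x := Nat.mul_pos (ram_pos _) (fdeg_pos _)
  omega

end

end Run7.h707.TE
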