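import Pool.Agent.Run7.h707.TE.Mod
import Pool.Agent.Run7.h707.TE.Ex
import Pool.Agent.Y455.CTK.JEX

/-! The elliptic curves `E_δ` over the fields of cube roots, Mathlib's `L`-series -/

set_option autoImplicit false
set_option linter.unusedVariables false
set_option linter.unusedSectionVars false
set_option linter.style.haveILetI false

open scoped Classical

namespace Run7.h707.TE

open Finset Filter NumberField IsDedekindDomain WeierstrassCurve
open Pool.Agent.N883.FG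
open Pool.Agent.W189.NF (aV eV)
open Pool.Agent.Y692.QS (Ei w nr)
open Pool.Agent.Y703.XK (c9)
open Pool.Agent.H921R2.TatePole (nm two_le_nm)
open Pool.Agent.Y696 (HBd LSeries_hasProd')
open Pool.Agent.Y696.CTK
open Pool.Agent.TH841.NF.D (Sha)
open Pool.Agent.R433.MD (Fib fib_le fdeg)
open Pool.Agent.R432.C (gal3)
open Run7.h707.TC (FamO ExO GoodAt)

section
variable {K : Type} [Field K] [NumberField K] {N : Type} [Field N] [NumberField N] [Algebra K N]

theorem ram_dvd [IsGalois K N] {v : HeightOneSpectrum (𝓞 K)} (w : Fib N v) :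
    ram w ∣ Module.finrank K N := by
  have hl := lies w
  have hp : v.asIdeal.IsPrime := v.isPrime
  have hw : w.1.asIdeal.IsPrime := w.1.isPrime
  have h1 := Ideal.ncard_primesOver_mul_ramificationIdxIn_mul_inertiaDegIn v.asIdeal (𝓞 N)
    Gal(N/K)
  rw [IsGalois.card_aut_eq_finrank,
    Ideal.ramificationIdxIn_eq_ramificationIdx v.asIdeal w.1.asIdeal Gal(N/K)] at h1
  have h2 : ram w = w.1.asIdeal.ramificationIdx (𝓞 K) :=
    Ideal.ramificationIdx'_eq_ramificationIdx _ _ v.ne_bot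
  rw [h2, ← h1]
  exact (Dvd.intro _ rfl : _ ∣ _).mul_left _

/-- the order of `√-3` at the place above three -/
theorem od_tht (j : Ei ≃+* 𝓞 K) {v : HeightOneSpectrum (𝓞 K)} (h3 : (3 : 𝓞 K) ∈ v.asIdeal) :
    od v (j tht) = 1 := by
  have hprime : Prime (j tht) := (MulEquiv.prime_iff j).2 tht_prime
  have hsq : (j tht) ^ 2 = -3 := by
    rw [← map_pow]
    have : tht ^ 2 = -3 := by decide
    rw [this, map_neg, map_ofNat]
  have hmem : j tht ∈ v.asIdeal := by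
    apply v.isPrime.mem_of_pow_mem 2
    rw [hsq]
    exact neg_mem h3
  have hspan : Ideal.span {j tht} = v.asIdeal := by
    have hm : (Ideal.span {j tht}).IsMaximal :=
      ((Ideal.span_singleton_prime hprime.ne_zero).2 hprime).isMaximal (by
        rw [Ne, Ideal.span_singleton_eq_bot]
        exact hprime.ne_zero)
    exact hm.eq_of_le v.isPrime.ne_top ((Ideal.span_singleton_le_iff_mem _).2 hmem)
  have h1 : 1 ≤ od v (j tht) := (od_le v hprime.ne_zero).2 (by rwa [pow_one])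
  have h2 : ¬ 2 ≤ od v (j tht) := by
    intro h
    have h4 := (od_le v hprime.ne_zero).1 h
    rw [← hspan, Ideal.span_singleton_pow, Ideal.mem_span_singleton, pow_two] at h4
    obtain ⟨c, hc⟩ := h4
    apply hprime.not_isUnit
    have h5 : j tht * 1 = j tht * (j tht * c) := by
      rw [mul_one, ← mul_assoc]
      exact hc
    have h6 := mul_left_cancel₀ hprime.ne_zero h5
    exact isUnit_of_dvd_one ⟨c, h6⟩
  omega

/-- additive reduction at the places above three of an extension of odd degree -/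
theorem three_F (j : Ei ≃+* 𝓞 K) [IsGalois K N] (hodd : Odd (Module.finrank K N)) {δ : 𝓞 N}
    {w : HeightOneSpectrum (𝓞 N)} (h3 : (3 : 𝓞 N) ∈ w.asIdeal) :
    ¬ 12 ∣ 3 * od w (3 : 𝓞 N) + 4 * od w δ := by
  obtain ⟨v, wv, hwv⟩ : ∃ (v : HeightOneSpectrum (𝓞 K)) (wv : Fib N v), wv.1 = w :=
    ⟨Pool.Agent.R433.MD.und w, ⟨w, rfl⟩, rfl⟩
  subst hwv
  have h3v : (3 : 𝓞 K) ∈ v.asIdeal := by
    rw [← mem_fib wv]
    rwa [map_ofNat]
  have h1 := od_tht j h3v
  have hθ0 : j tht ≠ 0 := (map_ne_zero_iff j j.injective).2 tht_prime.ne_zero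
  have hsq : (j tht) ^ 2 = -3 := by
    rw [← map_pow]
    have : tht ^ 2 = -3 := by decide
    rw [this, map_neg, map_ofNat]
  have h2 := od_fib wv hθ0
  rw [h1, mul_one] at h2
  have h4 : od wv.1 (3 : 𝓞 N) = 2 * ram wv := by
    rw [← h2]
    have hne : algebraMap (𝓞 K) (𝓞 N) (j tht) ≠ 0 := alg_ne hθ0
    rw [← od_pow wv.1 hne, ← map_pow, hsq, map_neg, map_ofNat]
    unfold od
    rw [Ideal.span_singleton_neg]
  have h5 : Odd (ram wv) := by
    obtain ⟨c, hc⟩ := ram_dvd wv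
    rw [hc] at hodd
    exact (Nat.odd_mul.1 hodd).1
  obtain ⟨k, hk⟩ := h5
  rw [h4, hk]
  omega

/-- **Mathlib's `L`-series from the Euler product** -/
theorem ser_F {δ : 𝓞 N} (hδ : δ ≠ 0) (hω : ∃ z : N, z ^ 2 + z + 1 = 0)
    (hm : ∀ w : HeightOneSpectrum (𝓞 N), (3 : 𝓞 N) ∈ w.asIdeal →
      ¬ 12 ∣ 3 * od w (3 : 𝓞 N) + 4 * od w δ) {s : ℂ} (hs : 3 / 2 < s.re) {L : ℂ}
    (hL : HasProd (fun w : HeightOneSpectrum (𝓞 N) => lf δ w ((nm w : ℂ) ^ (-s))) L) :
    (ED (δ : N)).LSeries s = L := by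
  have hav := fun w : HeightOneSpectrum (𝓞 N) => av_tr (v := w) hδ (hm w)
  obtain ⟨-, h1⟩ := LSeries_hasProd' (ED (δ : N)) (fun v => by
    rw [(hav v).1, (hav v).2]
    exact hbd_lf hω δ hδ v) hs
  refine (HasProd.unique (h1.congr_fun fun w => ?_) hL)
  unfold lf
  rw [(hav w).1, (hav w).2]

end

section
variable {K : Type} [Field K] [NumberField K] {I₀ J₀ : Type} [Fintype I₀] [Fintype J₀]
  (n₀ : J₀ → I₀ → ℕ) {r : ℕ}

/-- **The elliptic curves over the field of the cube roots.** -/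
theorem ell_T (j : Ei ≃+* 𝓞 K) (hj : ∀ z : Ei, Algebra.norm ℤ (j z) = nr z)
    {p : (I₀ → 𝓞 K) × (Fin r → 𝓞 K)} (hA : ∀ k, FamO (p.1 k)) (hB : ∀ i, FamO (p.2 i))
    (hF : FamP n₀ p) (F : Type) [Field F] [NumberField F] [Algebra K F] (θ : Fin r → F)
    (hθ : ∀ i, θ i ^ 3 = algebraMap K F (p.2 i))
    (hgen : ∀ S : Subfield F, (∀ k : K, algebraMap K F k ∈ S) → (∀ i, θ i ∈ S) → S = ⊤) :
    Module.finrank K F = 3 ^ r ∧ ∃ L : J₀ → ℂ → ℂ, ∀ t, Differentiable ℂ (L t) ∧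
      (∀ s : ℂ, 3 / 2 < s.re →
        L t s = (ED (algebraMap K F (dO (n₀ t) p.1 : 𝓞 K))).LSeries s) ∧
      ((∀ ν : Fin r → ZMod 3, Tri (dO (n₀ t) p.1 * bp p.2 ν)) → L t 1 ≠ 0 ∧
        Finite (ED (algebraMap K F (dO (n₀ t) p.1 : 𝓞 K))).toAffine.Point ∧
        ∀ (k : ℕ) (y : Sha (ED (algebraMap K F (dO (n₀ t) p.1 : 𝓞 K)))),
          3 ^ k • y = 0 → 3 ^ r • y = 0) := by
  obtain ⟨ω, hω⟩ := ex_om (K := K) j
  obtain ⟨hd, L, hL⟩ := fld_T n₀ j hj hA hB hF F θ hθ hgen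
  have hωK : (ω : K) ^ 2 + (ω : K) + 1 = 0 := by
    exact_mod_cast congrArg (fun x : 𝓞 K => (x : K)) hω
  obtain ⟨hfd, hgal⟩ := gal3 (K := K) (F := F) hωK (fun i => (p.2 i : K)) θ hθ hgen
  refine ⟨hd, L, fun t => ⟨(hL t).1, fun s hs => ?_, (hL t).2.2⟩⟩
  have h1 := ser_F (N := F) (δ := algebraMap (𝓞 K) (𝓞 F) (dO (n₀ t) p.1)) (alg_ne (dO_ne hA _))
    (om_K (om_N (N := F) hω)) (fun w hw => three_F (K := K) (N := F) j (by
      rw [hd]
      exact Odd.pow (by decide)) hw) hs ((hL t).2.1 s hs)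
  rw [← h1]
  rfl

end

end Run7.h707.TE
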