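import Pool.Agent.Run7.h707.TE.Ord

/-! The curves `y² + r y = x³` over finite fields -/

set_option autoImplicit false
set_option linter.unusedVariables false
set_option linter.unusedSectionVars false
set_option linter.style.haveILetI false

open scoped Classical

namespace Run7.h707.TE

open Finset
open Pool.Agent.N883.DQ (IsBeta Cn Dt exists_beta)
open Pool.Agent.N883.C (bt bt_cube bt_norm card_aff exists_cubic chi3 chi_eq card_cube)

/-- the number of the affine points -/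
noncomputable def ct (k : Type) [Field k] (r : k) : ℕ :=
  Nat.card {p : k × k // p.2 ^ 2 + r * p.2 = p.1 ^ 3}

section ext
variable {k : Type} [Field k] [Fintype k]

theorem cn_one {β : k → ℂ} (hβ : IsBeta β) {r : k} (hr : r ≠ 0) (E : Type) [Field E] [Finite E]
    [Algebra k E] :
    (Nat.card (Cn (fun i : Fin 3 => algebraMap k E ((![1, 1, r] : Fin 3 → k) i))) : ℂ) =
      (Nat.card E : ℂ) ^ 2 - (Nat.card E - 1) *
        (β r ^ Module.finrank k E + ((starRingEnd ℂ) (β r)) ^ Module.finrank k E) := by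
  have ha : ∀ i, (![1, 1, r] : Fin 3 → k) i ≠ 0 := by
    intro i
    fin_cases i
    · exact one_ne_zero
    · exact one_ne_zero
    · exact hr
  have h := hβ.2.2 0 (by norm_num) (![1, 1, r] : Fin 3 → k) ha E
  have hD : Dt (![1, 1, r] : Fin 3 → k) ∅ = r := by
    unfold Dt
    rw [Fin.prod_univ_three, prod_empty, mul_one]
    simp
  rw [powersetCard_zero, sum_singleton, hD, pow_zero, one_mul, one_mul] at h
  exact h

/-- the points over an extension -/
theorem ext_ct {β : k → ℂ} (hβ : IsBeta β) (h3 : (3 : k) ≠ 0) {r : k} (hr : r ≠ 0)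
    (E : Type) [Field E] [Finite E] [Algebra k E] :
    (ct E (algebraMap k E r) : ℂ) = Nat.card E -
      (β r ^ Module.finrank k E + ((starRingEnd ℂ) (β r)) ^ Module.finrank k E) := by
  letI : Fintype E := Fintype.ofFinite E
  have h3E : (3 : E) ≠ 0 := by
    have : (algebraMap k E) 3 ≠ 0 := (map_ne_zero _).2 h3
    rwa [map_ofNat] at this
  obtain ⟨γ, hγ⟩ := exists_beta E h3E
  have hrE : algebraMap k E r ≠ 0 := (map_ne_zero _).2 hr
  have h1 := cn_one hβ hr E
  have h2 := cn_one hγ hrE E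
  have e : (fun i : Fin 3 => algebraMap E E ((![1, 1, algebraMap k E r] : Fin 3 → E) i)) =
      fun i : Fin 3 => algebraMap k E ((![1, 1, r] : Fin 3 → k) i) := by
    funext i
    fin_cases i
    · show algebraMap E E 1 = algebraMap k E 1
      rw [map_one, map_one]
    · show algebraMap E E 1 = algebraMap k E 1
      rw [map_one, map_one]
    · rfl
  rw [e, h1, Module.finrank_self, pow_one, pow_one] at h2
  have hE : (Nat.card E : ℂ) - 1 ≠ 0 := by
    have h5 : 1 < Nat.card E := Finite.one_lt_card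
    have h6 : ((Nat.card E : ℕ) : ℂ) ≠ ((1 : ℕ) : ℂ) := by
      exact_mod_cast h5.ne'
    rw [sub_ne_zero]
    rwa [Nat.cast_one] at h6
  have h4 : β r ^ Module.finrank k E + ((starRingEnd ℂ) (β r)) ^ Module.finrank k E =
      γ (algebraMap k E r) + (starRingEnd ℂ) (γ (algebraMap k E r)) := by
    apply mul_left_cancel₀ hE
    linear_combination -h2
  have h5 := (hγ.2.1 _ hrE).2
  unfold ct
  rw [h5, h4, ← Nat.card_eq_fintype_card]
  ring

/-- the eigenvalues and the cubic character -/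
theorem ex_beta3 (h3 : (3 : k) ≠ 0) (hω : ∃ z : k, z ^ 2 + z + 1 = 0) : ∃ β : k → ℂ, IsBeta β ∧
    ∀ u : k, u ≠ 0 → (¬ ∃ z : k, z ^ 3 = u) → ∃ ζ : ℂ, ζ ^ 2 + ζ + 1 = 0 ∧
      ‖ζ‖ = 1 ∧ ∀ r : k, β (r * u) = ζ * β r := by
  have hdiv : 3 ∣ Fintype.card k - 1 := by
    obtain ⟨z, hz⟩ := hω
    have hz0 : z ≠ 0 := by
      rintro rfl
      simp at hz
    have hz1 : z ≠ 1 := by
      rintro rfl
      apply h3
      linear_combination hz
    have hz3 : z ^ 3 = 1 := by linear_combination (z - 1) * hz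
    have h1 : orderOf (Units.mk0 z hz0) = 3 := by
      have : Fact (Nat.Prime 3) := ⟨Nat.prime_three⟩
      refine orderOf_eq_prime ?_ ?_
      · ext
        push_cast
        rw [Units.val_mk0]
        exact hz3
      · intro h
        apply hz1
        have := congrArg Units.val h
        rwa [Units.val_mk0, Units.val_one] at this
    rw [← Fintype.card_units, ← h1]
    exact orderOf_dvd_card
  obtain ⟨χ, h, h1⟩ := exists_cubic (k := k) hdiv
  obtain ⟨ψ, hψ⟩ : ∃ ψ : AddChar k ℂ, ψ ≠ 1 := by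
    obtain ⟨ψ, hψ⟩ := (AddChar.exists_apply_ne_zero (a := (1 : k))).2 one_ne_zero
    refine ⟨ψ, ?_⟩
    rintro rfl
    simp at hψ
  refine ⟨bt χ ψ, ⟨fun δ z hz => bt_cube h δ hz, fun δ hδ => ⟨bt_norm h h1 hψ hδ,
      card_aff h h1 hψ hδ⟩, fun c hc a ha E _ _ _ => Pool.Agent.N883.DQ.Cn_E hc h h1 hψ ha⟩,
      fun u hu hnc => ?_⟩
  have hc := card_cube h h1 u
  have he : Nat.card {x : k // x ^ 3 = u} = 0 := by
    rw [Nat.card_eq_zero]
    left
    exact ⟨fun x => hnc ⟨x.1, x.2⟩⟩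
  rw [he, Nat.cast_zero] at hc
  have hu3 := chi3 h hu
  refine ⟨χ u ^ 2, ?_, ?_, fun r => ?_⟩
  · linear_combination χ u * hu3 - hc
  · have h5 : ‖χ u‖ ^ 3 = 1 := by rw [← norm_pow, hu3, norm_one]
    have h6 : ‖χ u‖ = 1 := (pow_eq_one_iff_of_nonneg (norm_nonneg _) (by norm_num)).1 h5
    rw [norm_pow, h6, one_pow]
  · unfold bt
    rw [map_mul]
    ring

/-- the product of the three factors -/
theorem three_fac {β ζ x : ℂ} (hζ : ζ ^ 2 + ζ + 1 = 0) (hn : ‖ζ‖ = 1) (q : ℂ)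
    (hq : β * (starRingEnd ℂ) β = q) :
    (1 - (β + (starRingEnd ℂ) β) * x + q * x ^ 2) *
      ((1 - (ζ * β + (starRingEnd ℂ) (ζ * β)) * x + q * x ^ 2) *
      (1 - (ζ ^ 2 * β + (starRingEnd ℂ) (ζ ^ 2 * β)) * x + q * x ^ 2)) =
      1 - (β ^ 3 + ((starRingEnd ℂ) β) ^ 3) * x ^ 3 + q ^ 3 * (x ^ 3) ^ 2 := by
  have hz : ζ * (starRingEnd ℂ) ζ = 1 := by
    rw [Complex.mul_conj, Complex.normSq_eq_norm_sq, hn]
    simp
  set η := (starRingEnd ℂ) ζ with hη
  set γ := (starRingEnd ℂ) β with hγ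
  have hζ3 : ζ ^ 3 = 1 := by linear_combination (ζ - 1) * hζ
  have hη2 : η = ζ ^ 2 := by linear_combination ζ ^ 2 * hz - η * hζ3
  have e1 : (starRingEnd ℂ) (ζ * β) = η * γ := by rw [map_mul]
  have e2 : (starRingEnd ℂ) (ζ ^ 2 * β) = η ^ 2 * γ := by rw [map_mul, map_pow]
  rw [e1, e2, hη2, ← hq]
  have e3 : (ζ ^ 2) ^ 2 = ζ := by linear_combination ζ * hζ3
  rw [e3]
  have f1 : 1 - (β + γ) * x + β * γ * x ^ 2 = (1 - β * x) * (1 - γ * x) := by ring
  have f2 : 1 - (ζ * β + ζ ^ 2 * γ) * x + β * γ * x ^ 2 =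
      (1 - ζ * β * x) * (1 - ζ ^ 2 * γ * x) := by
    linear_combination (-β * γ * x ^ 2) * hζ3
  have f3 : 1 - (ζ ^ 2 * β + ζ * γ) * x + β * γ * x ^ 2 =
      (1 - ζ ^ 2 * β * x) * (1 - ζ * γ * x) := by
    linear_combination (-β * γ * x ^ 2) * hζ3
  have key : ∀ y : ℂ, (1 - y) * ((1 - ζ * y) * (1 - ζ ^ 2 * y)) = 1 - y ^ 3 := by
    intro y
    linear_combination (y ^ 2 * ζ - y) * hζ - y ^ 3 * hζ3
  rw [f1, f2, f3]
  have k1 := key (β * x)
  have k2 := key (γ * x)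
  calc _ = ((1 - β * x) * ((1 - ζ * (β * x)) * (1 - ζ ^ 2 * (β * x)))) *
      ((1 - γ * x) * ((1 - ζ * (γ * x)) * (1 - ζ ^ 2 * (γ * x)))) := by ring
    _ = (1 - (β * x) ^ 3) * (1 - (γ * x) ^ 3) := by rw [k1, k2]
    _ = _ := by ring

end ext

end Run7.h707.TE
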