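import Pool.Agent.Run7.h707.TE.Gen

/-! The field generated by the cube roots of the parameters -/

set_option autoImplicit false
set_option linter.unusedVariables false
set_option linter.unusedSectionVars false

open scoped Classical

namespace Run7.h707.TE

open Finset Filter NumberField IsDedekindDomain
open Pool.Agent.Y692.QS (Ei w nr)
open Pool.Agent.H921R2.TatePole (nm)
open Pool.Agent.Y696.CTK (ED Tri)
open Pool.Agent.TH841.NF.D (Sha)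
open Pool.Agent.R432.C (gal3 cubic pts)
open Run7.h707.TC (FamO ExO)

section
variable {K : Type} [Field K] [NumberField K]

theorem coe_bp {r : ℕ} (b : Fin r → 𝓞 K) (ν : Fin r → ZMod 3) :
    ((bp b ν : 𝓞 K) : K) = ∏ i, (b i : K) ^ (ν i).val := by
  unfold bp
  have : ((∏ i, b i ^ (ν i).val : 𝓞 K) : K) = algebraMap (𝓞 K) K (∏ i, b i ^ (ν i).val) := rfl
  rw [this, map_prod]
  rfl

theorem ne_of_famO {a : 𝓞 K} (h : FamO a) : a ≠ 0 := by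
  rintro rfl
  have h1 := h.1 0 (by simp)
  exact not_isUnit_zero h1

theorem bp_ne {r : ℕ} {b : Fin r → 𝓞 K} (hb : ∀ i, FamO (b i)) (ν : Fin r → ZMod 3) :
    bp b ν ≠ 0 := Finset.prod_ne_zero_iff.2 fun i _ => pow_ne_zero _ (ne_of_famO (hb i))

theorem dO_ne {I : Type} [Fintype I] {a : I → 𝓞 K} (ha : ∀ i, FamO (a i)) (n : I → ℕ) :
    dO n a ≠ 0 := Finset.prod_ne_zero_iff.2 fun i _ => pow_ne_zero _ (ne_of_famO (ha i))

theorem not_cube {x : 𝓞 K} (h : ¬ UO x) (y : K) : y ^ 3 ≠ (x : K) := by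
  intro hy
  have hint : IsIntegral ℤ y := by
    refine IsIntegral.of_pow (n := 3) (by norm_num) ?_
    rw [hy]
    exact x.isIntegral_coe
  apply h
  refine ⟨1, ⟨y, hint⟩, isUnit_one, ?_⟩
  apply RingOfIntegers.ext
  rw [one_mul]
  exact hy.symm

theorem ex_om (j : Ei ≃+* 𝓞 K) : ∃ ω : 𝓞 K, ω ^ 2 + ω + 1 = 0 := by
  refine ⟨j w, ?_⟩
  rw [← map_pow, ← map_add, ← map_one j, ← map_add]
  have : (w : Ei) ^ 2 + w + 1 = 0 := by decide
  rw [this, map_zero]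

variable {I₀ J₀ : Type} [Fintype I₀] [Fintype J₀] (n₀ : J₀ → I₀ → ℕ) {r : ℕ}

/-- **The curves over the field of the cube roots.** -/
theorem fld_T (j : Ei ≃+* 𝓞 K) (hj : ∀ z : Ei, Algebra.norm ℤ (j z) = nr z)
    {p : (I₀ → 𝓞 K) × (Fin r → 𝓞 K)} (hA : ∀ k, FamO (p.1 k)) (hB : ∀ i, FamO (p.2 i))
    (hF : FamP n₀ p) (F : Type) [Field F] [NumberField F] [Algebra K F] (θ : Fin r → F)
    (hθ : ∀ i, θ i ^ 3 = algebraMap K F (p.2 i))
    (hgen : ∀ S : Subfield F, (∀ k : K, algebraMap K F k ∈ S) → (∀ i, θ i ∈ S) → S = ⊤) :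
    Module.finrank K F = 3 ^ r ∧ ∃ L : J₀ → ℂ → ℂ, ∀ t, Differentiable ℂ (L t) ∧
      (∀ s : ℂ, 3 / 2 < s.re → HasProd (fun v : HeightOneSpectrum (𝓞 F) =>
        lf (algebraMap (𝓞 K) (𝓞 F) (dO (n₀ t) p.1)) v ((nm v : ℂ) ^ (-s))) (L t s)) ∧
      ((∀ ν : Fin r → ZMod 3, Tri (dO (n₀ t) p.1 * bp p.2 ν)) → L t 1 ≠ 0 ∧
        Finite (ED (algebraMap K F (dO (n₀ t) p.1 : 𝓞 K))).toAffine.Point ∧
        ∀ (k : ℕ) (y : Sha (ED (algebraMap K F (dO (n₀ t) p.1 : 𝓞 K)))),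
          3 ^ k • y = 0 → 3 ^ r • y = 0) := by
  obtain ⟨ω, hω⟩ := ex_om (K := K) j
  have hωK : (ω : K) ^ 2 + (ω : K) + 1 = 0 := by
    exact_mod_cast congrArg (fun x : 𝓞 K => (x : K)) hω
  -- integral cube roots
  have hint : ∀ i, IsIntegral ℤ (θ i) := fun i => by
    refine IsIntegral.of_pow (n := 3) (by norm_num) ?_
    rw [hθ]
    exact ((p.2 i).isIntegral_coe).map (algebraMap K F).toIntAlgHom
  obtain ⟨θ', hθ'⟩ : ∃ θ' : Fin r → 𝓞 F, ∀ i, (θ' i : F) = θ i :=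
    ⟨fun i => ⟨θ i, hint i⟩, fun i => rfl⟩
  have hθ3 : ∀ i, θ' i ^ 3 = algebraMap (𝓞 K) (𝓞 F) (p.2 i) := fun i => by
    apply RingOfIntegers.ext
    rw [coe_pw, hθ', hθ]
    rfl
  have hind : ∀ ν : Fin r → ZMod 3, ν ≠ 0 → ∀ y : K, y ^ 3 ≠ ∏ i, (p.2 i : K) ^ (ν i).val := by
    intro ν hν y
    rw [← coe_bp]
    exact not_cube (hF.2 ν hν) y
  obtain ⟨hd, hE⟩ := tower r K F ω hω p.2 (fun i => ne_of_famO (hB i)) hind θ' hθ3
    (fun S h1 h2 => hgen S h1 fun i => by rw [← hθ']; exact h2 i)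
  refine ⟨hd, ?_⟩
  -- the functions over `K`
  have hAB : ∀ k, FamO ((Sum.elim p.1 p.2 : I₀ ⊕ Fin r → 𝓞 K) k) := by
    rintro (k | k)
    · exact hA k
    · exact hB k
  have hone : ∀ (t : J₀) (ν : Fin r → ZMod 3), ∃ Lf : ℂ → ℂ, Differentiable ℂ Lf ∧
      (∀ s : ℂ, 3 / 2 < s.re → HasProd (fun v : HeightOneSpectrum (𝓞 K) =>
        lf (dO (n₀ t) p.1 * bp p.2 ν) v ((nm v : ℂ) ^ (-s))) (Lf s)) ∧
      (Tri (dO (n₀ t) p.1 * bp p.2 ν) → Lf 1 ≠ 0) := by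
    intro t ν
    have h1 := one_lf (K := K) j hj (I := I₀ ⊕ Fin r) (Sum.elim (n₀ t) fun i => (ν i).val)
      (a := Sum.elim p.1 p.2) hAB (by rw [dO_elim]; exact hF.1 t ν)
    rw [dO_elim] at h1
    exact h1
  choose Lf h1 h2 h3 using hone
  refine ⟨fun t s => ∏ ν, Lf t ν s, fun t => ⟨Differentiable.fun_finsetProd fun ν _ => h1 t ν,
    fun s hs => ?_, fun hT => ⟨?_, ?_⟩⟩⟩
  · exact hE (dO (n₀ t) p.1) (dO_ne hA _) s hs (fun ν => Lf t ν s) fun ν => h2 t ν s hs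
  · exact Finset.prod_ne_zero_iff.2 fun ν _ => h3 t ν (hT ν)
  · obtain ⟨hfd, hgal⟩ := gal3 (K := K) (F := F) hωK (fun i => (p.2 i : K)) θ hθ hgen
    have hD : ((dO (n₀ t) p.1 : 𝓞 K) : K) ≠ 0 := fun h => dO_ne hA (n₀ t) (RingOfIntegers.ext h)
    have hd0 : ∀ i, (p.2 i : K) ≠ 0 := fun i h => ne_of_famO (hB i) (RingOfIntegers.ext h)
    have hco : ∀ ν : Fin r → ZMod 3, ((dO (n₀ t) p.1 : 𝓞 K) : K) * ∏ i, (p.2 i : K) ^ (ν i).val =
        ((dO (n₀ t) p.1 * bp p.2 ν : 𝓞 K) : K) := fun ν => by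
      rw [coe_ml, coe_bp]
    refine ⟨?_, ?_⟩
    · refine pts (K := K) (F := F) hωK (fun i => (p.2 i : K)) θ hd0 hθ hgen hD fun ν => ?_
      rw [hco]
      exact (hT ν).1
    · intro k y hy
      have h5 := cubic (K := K) (F := F) hωK (fun i => (p.2 i : K)) θ hd0 hθ hgen hD
        (fun ν => by
          rw [hco]
          exact (hT ν).2) k y hy
      rwa [Fintype.card_fin] at h5

end

end Run7.h707.TE
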