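import Pool.Agent.Run7.h707.TE.One
import Pool.Agent.R432.C7

/-! Pairs: coefficients and field parameters -/

set_option autoImplicit false
set_option linter.unusedVariables false
set_option linter.unusedSectionVars false

open scoped Classical

namespace Run7.h707.TE

open Finset Filter NumberField IsDedekindDomain
open Pool.Agent.Y692.QS (Ei w nr)
open Pool.Agent.Y703.XK (c9)
open Pool.Agent.H921R2.TatePole (nm)
open Pool.Agent.Y696.CTK (ED Tri)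
open Pool.Agent.TH841.NF.D (Sha)
open Run7.h707.TC (FamO ExO)

section
variable {K : Type} [Field K] [NumberField K] {I₀ J₀ : Type} [Fintype I₀] [Fintype J₀]
  (n₀ : J₀ → I₀ → ℕ) {r : ℕ}

/-- the exponents -/
def nG (t : J₀ × (Fin r → ZMod 3)) : I₀ ⊕ Fin r → ℕ :=
  Sum.elim (n₀ t.1) fun i => (t.2 i).val

/-- the exponents of the field parameters -/
def nU (ν : {ν : Fin r → ZMod 3 // ν ≠ 0}) : I₀ ⊕ Fin r → ℕ :=
  Sum.elim (fun _ => 0) fun i => (ν.1 i).val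

/-- the products of the field parameters -/
noncomputable def bp (b : Fin r → 𝓞 K) (ν : Fin r → ZMod 3) : 𝓞 K := ∏ i, b i ^ (ν i).val

/-- all the pairs -/
def AllP (X : ℕ) (p : (I₀ → 𝓞 K) × (Fin r → 𝓞 K)) : Prop :=
  (∀ k, Algebra.norm ℤ (p.1 k) ≤ X ∧ FamO (p.1 k)) ∧
    ∀ k, Algebra.norm ℤ (p.2 k) ≤ X ∧ FamO (p.2 k)

/-- the family -/
def FamP (p : (I₀ → 𝓞 K) × (Fin r → 𝓞 K)) : Prop :=
  (∀ (t : J₀) (ν : Fin r → ZMod 3), ¬ ExO (dO (n₀ t) p.1 * bp p.2 ν)) ∧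
    ∀ ν : Fin r → ZMod 3, ν ≠ 0 → ¬ UO (bp p.2 ν)

/-- all the curves have finitely many points and no `3`-part of `Ш` -/
def TriP (p : (I₀ → 𝓞 K) × (Fin r → 𝓞 K)) : Prop :=
  ∀ (t : J₀) (ν : Fin r → ZMod 3), Tri (dO (n₀ t) p.1 * bp p.2 ν)

/-- the proportion of the classes -/
noncomputable def kapP (r : ℕ) : ℝ :=
  ({u : (I₀ → ZMod 3 × ZMod 3) × (Fin r → ZMod 3 × ZMod 3) | ∀ (t : J₀) (ν : Fin r → ZMod 3),
    ∑ k, n₀ t k • u.1 k + ∑ i, (ν i).val • u.2 i ≠ 0}.ncard : ℝ) / 9 ^ (Fintype.card I₀ + r)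

theorem dO_elim (n : I₀ → ℕ) (ν : Fin r → ZMod 3) (a : I₀ → 𝓞 K) (b : Fin r → 𝓞 K) :
    dO (Sum.elim n fun i => (ν i).val) (Sum.elim a b) = dO n a * bp b ν := by
  unfold dO bp
  rw [Fintype.prod_sum_type]
  rfl

/-- the equivalence of pairs and functions on the sum -/
theorem ncard_pair {α I I' : Type} (P : (I → α) × (I' → α) → Prop) :
    {p : (I → α) × (I' → α) | P p}.ncard =
      {a : I ⊕ I' → α | P (fun i => a (Sum.inl i), fun i => a (Sum.inr i))}.ncard := by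
  have hinj : Function.Injective (fun (a : I ⊕ I' → α) =>
      ((fun i => a (Sum.inl i), fun i => a (Sum.inr i)) : (I → α) × (I' → α))) := by
    intro a a' h
    funext x
    rcases x with i | i
    · exact congrFun (Prod.ext_iff.1 h).1 i
    · exact congrFun (Prod.ext_iff.1 h).2 i
  rw [← Set.ncard_image_of_injective _ hinj]
  congr 1
  ext p
  simp only [Set.mem_ofPred_eq, Set.mem_image]
  constructor
  · intro h
    exact ⟨Sum.elim p.1 p.2, h, rfl⟩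
  · rintro ⟨a, h, rfl⟩
    exact h

theorem kapP_eq : kapP n₀ r = kapI (nG n₀ (r := r)) := by
  unfold kapP kapI
  rw [ncard_pair, Fintype.card_sum, Fintype.card_fin]
  congr 3
  ext u
  simp only [Set.mem_ofPred_eq, Prod.forall, Fintype.sum_sum_type]
  exact Iff.rfl

theorem kapP_pos (k₀ : I₀) (hn : ∀ t, (n₀ t k₀ : ZMod 3) ≠ 0) : 0 < kapP n₀ r := by
  unfold kapP
  refine div_pos ?_ (by positivity)
  rw [Nat.cast_pos, Set.ncard_pos (Set.toFinite _)]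
  refine ⟨(Pi.single k₀ (1, 0), 0), fun t ν h => ?_⟩
  have h1 : ∑ k, n₀ t k • (Pi.single k₀ ((1 : ZMod 3), (0 : ZMod 3)) : I₀ → ZMod 3 × ZMod 3) k =
      n₀ t k₀ • ((1 : ZMod 3), (0 : ZMod 3)) := by
    rw [Fintype.sum_eq_single k₀ (fun k hk => by rw [Pi.single_eq_of_ne hk, smul_zero]),
      Pi.single_eq_same]
  have h2 : ∑ i : Fin r, (ν i).val • (0 : Fin r → ZMod 3 × ZMod 3) i = 0 :=
    Finset.sum_eq_zero fun i _ => by rw [Pi.zero_apply, smul_zero]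
  rw [h1, h2, add_zero] at h
  have h3 := (Prod.ext_iff.1 h).1
  rw [Prod.smul_fst, Prod.fst_zero, nsmul_eq_mul, mul_one] at h3
  exact hn t h3

/-- **The law for the pairs.** -/
theorem law_P (j : Ei ≃+* 𝓞 K) (hj : ∀ z : Ei, Algebra.norm ℤ (j z) = nr z)
    (hn : ∀ t, ∃ k, (n₀ t k : ZMod 3) ≠ 0)
    (hs : ∀ t t', t ≠ t' → (∃ k, (n₀ t k : ZMod 3) ≠ n₀ t' k) ∧
      ∃ k, (n₀ t k : ZMod 3) ≠ - (n₀ t' k : ZMod 3)) :
    (∃ (c : ℝ) (X₀ : ℕ), 0 < c ∧ ∀ X : ℕ, X₀ ≤ X → c * (X : ℝ) ^ (Fintype.card I₀ + r) ≤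
      ({p : (I₀ → 𝓞 K) × (Fin r → 𝓞 K) | AllP X p}.ncard : ℝ)) ∧
    Tendsto (fun X : ℕ => ({p : (I₀ → 𝓞 K) × (Fin r → 𝓞 K) | AllP X p ∧ FamP n₀ p}.ncard : ℝ) /
      ({p : (I₀ → 𝓞 K) × (Fin r → 𝓞 K) | AllP X p}.ncard : ℝ)) atTop (nhds (kapP n₀ r)) ∧
    Tendsto (fun X : ℕ => ({p : (I₀ → 𝓞 K) × (Fin r → 𝓞 K) | AllP X p ∧ FamP n₀ p ∧
      TriP n₀ p}.ncard : ℝ) / ({p : (I₀ → 𝓞 K) × (Fin r → 𝓞 K) | AllP X p}.ncard : ℝ)) atTop
      (nhds (kapP n₀ r * c9 ^ (Fintype.card J₀ * 3 ^ r))) := by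
  have hval : ∀ x : ZMod 3, ((x.val : ℕ) : ZMod 3) = x := fun x => ZMod.natCast_zmod_val x
  obtain ⟨h1, h2, h3⟩ := lawI (J' := {ν : Fin r → ZMod 3 // ν ≠ 0}) j hj (nG n₀ (r := r))
    (nU (I₀ := I₀)) (fun t => by
      obtain ⟨k, hk⟩ := hn t.1
      exact ⟨Sum.inl k, hk⟩) (fun ν => by
      obtain ⟨i, hi⟩ : ∃ i, ν.1 i ≠ 0 := by
        by_contra h
        push Not at h
        exact ν.2 (funext h)
      refine ⟨Sum.inr i, ?_⟩
      show (((ν.1 i).val : ℕ) : ZMod 3) ≠ 0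
      rw [hval]
      exact hi) (fun t t' htt => by
      by_cases h : t.1 = t'.1
      · have h4 : t.2 ≠ t'.2 := fun h' => htt (Prod.ext h h')
        obtain ⟨i, hi⟩ := Function.ne_iff.1 h4
        obtain ⟨k, hk⟩ := hn t.1
        refine ⟨⟨Sum.inr i, ?_⟩, ⟨Sum.inl k, ?_⟩⟩
        · show (((t.2 i).val : ℕ) : ZMod 3) ≠ (((t'.2 i).val : ℕ) : ZMod 3)
          rw [hval, hval]
          exact hi
        · show (n₀ t.1 k : ZMod 3) ≠ - (n₀ t'.1 k : ZMod 3)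
          rw [← h]
          have : ∀ x : ZMod 3, x ≠ 0 → x ≠ -x := by decide
          exact this _ hk
      · obtain ⟨⟨k, hk⟩, ⟨k', hk'⟩⟩ := hs _ _ h
        exact ⟨⟨Sum.inl k, hk⟩, ⟨Sum.inl k', hk'⟩⟩)
  have hA : ∀ (X : ℕ) (a : I₀ ⊕ Fin r → 𝓞 K),
      AllP X (fun i => a (Sum.inl i), fun i => a (Sum.inr i)) ↔ AllO X a := by
    intro X a
    unfold AllP AllO
    rw [Sum.forall]
  have hdO : ∀ (a : I₀ ⊕ Fin r → 𝓞 K) (t : J₀) (ν : Fin r → ZMod 3),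
      dO (nG n₀ (t, ν)) a = dO (n₀ t) (fun i => a (Sum.inl i)) * bp (fun i => a (Sum.inr i)) ν := by
    intro a t ν
    unfold dO bp nG
    rw [Fintype.prod_sum_type]
    rfl
  have hdU : ∀ (a : I₀ ⊕ Fin r → 𝓞 K) (ν : {ν : Fin r → ZMod 3 // ν ≠ 0}),
      dO (nU ν) a = bp (fun i => a (Sum.inr i)) ν.1 := by
    intro a ν
    unfold dO bp nU
    rw [Fintype.prod_sum_type]
    simp
  have hF : ∀ a : I₀ ⊕ Fin r → 𝓞 K,
      FamP n₀ (fun i => a (Sum.inl i), fun i => a (Sum.inr i)) ↔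
      (∀ t, ¬ ExO (dO (nG n₀ t) a)) ∧ ∀ t : {ν : Fin r → ZMod 3 // ν ≠ 0}, ¬ UO (dO (nU t) a) := by
    intro a
    unfold FamP
    simp only [Prod.forall, hdO, hdU, Subtype.forall]
  have hT : ∀ a : I₀ ⊕ Fin r → 𝓞 K,
      TriP n₀ (fun i => a (Sum.inl i), fun i => a (Sum.inr i)) ↔
      ∀ t, Tri (dO (nG n₀ t) a) := by
    intro a
    unfold TriP
    simp only [Prod.forall, hdO]
  have e0 : ∀ X : ℕ, {p : (I₀ → 𝓞 K) × (Fin r → 𝓞 K) | AllP X p}.ncard =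
      {a : I₀ ⊕ Fin r → 𝓞 K | AllO X a}.ncard := by
    intro X
    rw [ncard_pair]
    simp only [hA]
  rw [kapP_eq]
  refine ⟨?_, ?_, ?_⟩
  · obtain ⟨c, X₀, hc, h⟩ := h1
    refine ⟨c, X₀, hc, fun X hX => ?_⟩
    rw [e0]
    have := h X hX
    rwa [Fintype.card_sum, Fintype.card_fin] at this
  · refine h2.congr fun X => ?_
    rw [e0, ncard_pair]
    simp only [hA, hF]
  · have hc : Fintype.card (J₀ × (Fin r → ZMod 3)) = Fintype.card J₀ * 3 ^ r := by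
      rw [Fintype.card_prod, Fintype.card_fun, ZMod.card, Fintype.card_fin]
    rw [← hc]
    refine h3.congr fun X => ?_
    rw [e0, ncard_pair]
    simp only [hA, hF, hT]

end

end Run7.h707.TE
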