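import Pool.Agent.Run7.h707.TE.Step
import Pool.Agent.Y696.Hss

/-! One step of the tower: the Euler products -/

set_option autoImplicit false
set_option linter.unusedVariables false
set_option linter.unusedSectionVars false
set_option linter.style.haveILetI false

open scoped Classical

namespace Run7.h707.TE

open Finset NumberField IsDedekindDomain
open Pool.Agent.W189.NF
open Pool.Agent.H921R2.TatePole (nm two_le_nm nm_summable)
open Pool.Agent.R433.MD (Fib fib_le fdeg nm_fib algFib_mk und fdeg_pos hasProd_fib)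
open Pool.Agent.Y696 (HBd coeff_bd)
open Run7.h707.TC (GoodAt)

section gen
variable {K : Type} [Field K] [NumberField K]

/-- the power series of a factor -/
noncomputable def ps (a e : ℤ) : PowerSeries ℤ := PowerSeries.invOfUnit
  ((1 - Polynomial.C a * Polynomial.X + Polynomial.C e * Polynomial.X ^ 2 :
      Polynomial ℤ) : PowerSeries ℤ) 1

theorem fdata_gen {a e : HeightOneSpectrum (𝓞 K) → ℤ}
    (hE : ∀ v : HeightOneSpectrum (𝓞 K), HBd (a v) (e v) (nm v)) {σ : ℝ}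
    (hσ : 3 / 2 < σ) : FData (fun v : HeightOneSpectrum (𝓞 K) => nm v)
      (fun v => ps (a v) (e v)) σ where
  two_le := two_le_nm
  north := northcott_nm
  const := fun v => by
    rw [← PowerSeries.coeff_zero_eq_constantCoeff]
    exact (inv_coeff (a v) (e v)).1
  sum := by
    have hg : Summable fun n : ℕ => ((n : ℝ) + 2) * (1 / 2 : ℝ) ^ n := by
      have g1 := summable_pow_mul_geometric_of_norm_lt_one (R := ℝ) 1 (r := 1 / 2)
        (by rw [Real.norm_eq_abs]; norm_num [abs_of_pos])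
      have g2 := summable_geometric_of_lt_one (r := (1 / 2 : ℝ)) (by norm_num) (by norm_num)
      refine (g1.add (g2.mul_left 2)).congr fun n => ?_
      ring
    have h1 := ((nm_summable (K := K) (x := σ - 1 / 2) (by linarith))).mul_of_nonneg hg
      (fun v => by positivity) (fun n => by positivity)
    refine Summable.of_nonneg_of_le (fun x => by positivity) (fun x => ?_) h1
    obtain ⟨v, n⟩ := x
    simp only
    have hq2 : (2 : ℝ) ≤ nm v := by exact_mod_cast two_le_nm v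
    have hq0 : (0 : ℝ) < nm v := by linarith
    obtain ⟨e0, e1, e2⟩ := inv_coeff (a v) (e v)
    have h3 := coeff_bd (hE v) (c := fun k => (ps (a v) (e v)).coeff k) e0 e1 e2 (n + 1)
    have h4 : (nm v : ℝ) ^ (-(σ * (n + 1))) = ((nm v : ℝ) ^ (-σ)) ^ (n + 1) := by
      rw [← Real.rpow_natCast, ← Real.rpow_mul hq0.le]
      congr 1
      push_cast
      ring
    rw [h4]
    set y := (nm v : ℝ) ^ (-(σ - 1 / 2)) with hy
    have hy0 : 0 ≤ y := by positivity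
    have h5 : Real.sqrt (nm v) * (nm v : ℝ) ^ (-σ) = y := by
      rw [hy, Real.sqrt_eq_rpow, ← Real.rpow_add hq0]
      congr 1
      ring
    have hy1 : y ≤ 1 / 2 := by
      calc y ≤ (nm v : ℝ) ^ (-1 : ℝ) :=
            Real.rpow_le_rpow_of_exponent_le (by linarith) (by linarith)
        _ = (nm v : ℝ)⁻¹ := Real.rpow_neg_one _
        _ ≤ 2⁻¹ := inv_anti₀ (by norm_num) hq2
        _ = 1 / 2 := by norm_num
    calc |(((ps (a v) (e v)).coeff (n + 1) : ℤ) : ℝ)| * ((nm v : ℝ) ^ (-σ)) ^ (n + 1) ≤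
        (((n + 1 : ℕ) : ℝ) + 1) * Real.sqrt (nm v) ^ (n + 1) * ((nm v : ℝ) ^ (-σ)) ^ (n + 1) := by
          gcongr
      _ = ((n : ℝ) + 2) * (Real.sqrt (nm v) * (nm v : ℝ) ^ (-σ)) ^ (n + 1) := by
          rw [mul_pow]; push_cast; ring
      _ = y * (((n : ℝ) + 2) * y ^ n) := by rw [h5, pow_succ]; ring
      _ ≤ y * (((n : ℝ) + 2) * (1 / 2) ^ n) := by gcongr

/-- **the Euler product converges to the right of `3/2`** -/
theorem hp_gen {a e : HeightOneSpectrum (𝓞 K) → ℤ}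
    (hE : ∀ v : HeightOneSpectrum (𝓞 K), HBd (a v) (e v) (nm v)) {s : ℂ} (hs : 3 / 2 < s.re) :
    ∃ P : ℂ, HasProd (fun v : HeightOneSpectrum (𝓞 K) =>
      (1 - (a v : ℂ) * (nm v : ℂ) ^ (-s) + (e v : ℂ) * ((nm v : ℂ) ^ (-s)) ^ 2)⁻¹) P := by
  have h1 := (fdata_gen hE hs).main (s := s) le_rfl
  have h3 : (fun v : HeightOneSpectrum (𝓞 K) =>
      (1 - (a v : ℂ) * (nm v : ℂ) ^ (-s) + (e v : ℂ) * ((nm v : ℂ) ^ (-s)) ^ 2)⁻¹) =
      fun v => ∑' k : ℕ, ((ps (a v) (e v)).coeff k : ℂ) * ((nm v : ℂ) ^ (-s)) ^ k := by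
    funext v
    obtain ⟨e0, e1, e2⟩ := inv_coeff (a v) (e v)
    refine (rec_sum (c := fun k => (ps (a v) (e v)).coeff k) e0 e1 e2 ?_).symm
    have h4 := (fdata_gen hE hs).single v (τ := s.re) le_rfl
    refine Summable.of_norm_bounded h4 fun k => ?_
    have hq0 : (0 : ℝ) ≤ nm v := by positivity
    rw [norm_mul, norm_pow, Complex.norm_intCast,
      Complex.norm_natCast_cpow_of_pos (by have := two_le_nm v; omega)]
    apply le_of_eq
    congr 1
    rw [Complex.neg_re, ← Real.rpow_natCast, ← Real.rpow_mul hq0]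
    congr 1
    ring
  rw [h3]
  exact ⟨_, h1.2⟩

theorem hp_lf (hω : ∃ z : K, z ^ 2 + z + 1 = 0) {δ : 𝓞 K} (hδ : δ ≠ 0) {s : ℂ}
    (hs : 3 / 2 < s.re) :
    ∃ P : ℂ, HasProd (fun v : HeightOneSpectrum (𝓞 K) => lf δ v ((nm v : ℂ) ^ (-s))) P :=
  hp_gen (a := fun v => tr δ v) (e := fun v => dt δ v) (hbd_lf hω δ hδ) hs

end gen

section step
variable {K : Type} [Field K] [NumberField K] {N : Type} [Field N] [NumberField N] [Algebra K N]

theorem om_K {ω : 𝓞 K} (hω : ω ^ 2 + ω + 1 = 0) : ∃ z : K, z ^ 2 + z + 1 = 0 :=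
  ⟨ω, by exact_mod_cast congrArg (fun x : 𝓞 K => (x : K)) hω⟩

theorem om_N {ω : 𝓞 K} (hω : ω ^ 2 + ω + 1 = 0) :
    (algebraMap (𝓞 K) (𝓞 N) ω) ^ 2 + algebraMap (𝓞 K) (𝓞 N) ω + 1 = 0 := by
  rw [← map_pow, ← map_add, ← map_one (algebraMap (𝓞 K) (𝓞 N)), ← map_add, hω, map_zero]

/-- **One step of the tower: the Euler products.** -/
theorem step_glob {ω : 𝓞 K} (hω : ω ^ 2 + ω + 1 = 0) (h3f : Module.finrank K N = 3) {b : 𝓞 K}
    (hb : b ≠ 0) {θ : 𝓞 N} (hθ : θ ^ 3 = algebraMap (𝓞 K) (𝓞 N) b) (τ : 𝓞 N ≃ₐ[𝓞 K] 𝓞 N)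
    (hτ : τ θ = algebraMap (𝓞 K) (𝓞 N) ω * θ) {δ : 𝓞 K} (hδ : δ ≠ 0) {s : ℂ}
    (hs : 3 / 2 < s.re) {L : Fin 3 → ℂ}
    (hL : ∀ i : Fin 3, HasProd (fun v : HeightOneSpectrum (𝓞 K) =>
      lf (δ * b ^ (i : ℕ)) v ((nm v : ℂ) ^ (-s))) (L i)) :
    HasProd (fun w : HeightOneSpectrum (𝓞 N) =>
      lf (algebraMap (𝓞 K) (𝓞 N) δ) w ((nm w : ℂ) ^ (-s))) (∏ i, L i) := by
  obtain ⟨P, hP⟩ := hp_lf (om_K (om_N (N := N) hω)) (alg_ne (N := N) hδ) hs
  have h1 := hasProd_fib (K := K) hP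
  have h2 : (fun v : HeightOneSpectrum (𝓞 K) => ∏ w : Fib N v,
      lf (algebraMap (𝓞 K) (𝓞 N) δ) w.1 ((nm w.1 : ℂ) ^ (-s))) =
      fun v => ∏ i : Fin 3, lf (δ * b ^ (i : ℕ)) v ((nm v : ℂ) ^ (-s)) :=
    funext fun v => step_loc hω h3f hb hθ τ hτ hδ v (-s)
  rw [h2] at h1
  have h3 := hasProd_prod (s := (univ : Finset (Fin 3))) fun i _ => hL i
  rw [← h1.unique h3]
  exact hP

/-- an extension of degree one -/
theorem triv_glob {ω : 𝓞 K} (hω : ω ^ 2 + ω + 1 = 0) (h1f : Module.finrank K N = 1) {δ : 𝓞 K}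
    (hδ : δ ≠ 0) {s : ℂ} (hs : 3 / 2 < s.re) {L : ℂ}
    (hL : HasProd (fun v : HeightOneSpectrum (𝓞 K) => lf δ v ((nm v : ℂ) ^ (-s))) L) :
    HasProd (fun w : HeightOneSpectrum (𝓞 N) =>
      lf (algebraMap (𝓞 K) (𝓞 N) δ) w ((nm w : ℂ) ^ (-s))) L := by
  obtain ⟨P, hP⟩ := hp_lf (om_K (om_N (N := N) hω)) (alg_ne (N := N) hδ) hs
  have h1 := hasProd_fib (K := K) hP
  have h2 : (fun v : HeightOneSpectrum (𝓞 K) => ∏ w : Fib N v,
      lf (algebraMap (𝓞 K) (𝓞 N) δ) w.1 ((nm w.1 : ℂ) ^ (-s))) =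
      fun v => lf δ v ((nm v : ℂ) ^ (-s)) := by
    funext v
    have h3 := sum_fib (N := N) v
    rw [h1f] at h3
    obtain ⟨w₀, -⟩ : (univ : Finset (Fib N v)).Nonempty := by
      by_contra h8
      rw [not_nonempty_iff_eq_empty] at h8
      rw [h8, Finset.sum_empty] at h3
      omega
    rw [← Finset.add_sum_erase univ _ (mem_univ w₀)] at h3
    have h5 : 0 < ram w₀ * fdeg w₀ := Nat.mul_pos (ram_pos _) (fdeg_pos _)
    have huni : ∀ w : Fib N v, w = w₀ := by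
      intro w
      by_contra h
      have h8 : ram w * fdeg w ≤ ∑ x ∈ univ.erase w₀, ram x * fdeg x :=
        Finset.single_le_sum (f := fun x : Fib N v => ram x * fdeg x) (fun _ _ => Nat.zero_le _)
          (mem_erase.2 ⟨h, mem_univ _⟩)
      have h9 : 0 < ram w * fdeg w := Nat.mul_pos (ram_pos _) (fdeg_pos _)
      omega
    have h6 : ram w₀ * fdeg w₀ = 1 := by omega
    have hram : ram w₀ = 1 := Nat.eq_one_of_mul_eq_one_right h6
    have hf : fdeg w₀ = 1 := Nat.eq_one_of_mul_eq_one_left h6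
    have hnm : nm w₀.1 = nm v := by rw [nm_fib w₀, hf, pow_one]
    rw [Fintype.prod_eq_single w₀ fun w hw => absurd (huni w) hw]
    by_cases h3v : (3 : 𝓞 K) ∈ v.asIdeal
    · rw [lf_three h3v, lf_three]
      have := (mem_fib w₀ (3 : 𝓞 K)).2 h3v
      rwa [map_ofNat] at this
    · obtain ⟨β, hβ⟩ := ex_Bt v h3v (om_K hω)
      by_cases hvδ : 3 ∣ od v δ
      · obtain ⟨r, y, y', hy, hr, h⟩ := (good_iff hδ v).2 hvδ
        rw [lf_val h3v hβ hδ hr hy h, lf_fib (om_K hω) h3v hβ w₀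
          (z := algebraMap (𝓞 K) (𝓞 N) y) (z' := algebraMap (𝓞 K) (𝓞 N) y')
          (alg_ne hδ) hr (alg_ne hy) (by rw [← map_pow, ← map_mul, h, map_mul, map_pow]), hf, hnm,
          pow_one, pow_one]
      · rw [lf_bad hδ hvδ, lf_bad (alg_ne hδ) (by rw [od_fib w₀ hδ, hram, one_mul]; exact hvδ)]
  rw [h2] at h1
  rw [← h1.unique hL]
  exact hP

end step

end Run7.h707.TE
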