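import Pool.Agent.Run7.h707.TE.Tow
import Pool.Agent.Run7.h707.TC.LfT2

/-! The `L`-functions of the hypersurfaces over any number field, from the Euler products of the
curves -/

set_option autoImplicit false
set_option linter.unusedVariables false
set_option linter.unusedSectionVars false
set_option linter.style.haveILetI false

open scoped Classical

namespace Run7.h707.TE

open Finset NumberField IsDedekindDomain
open Pool.Agent.N883.FG
open Pool.Agent.W189.NF (aV eV)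
open Pool.Agent.H921R2.TatePole (nm two_le_nm)
open Pool.Agent.Y696.CTK (ED)
open Pool.Agent.N883.DQ (Dt)
open Run7.h707.TC (GoodAt IsLoc IsLFT mem_SS)

section
variable {K : Type} [Field K] [NumberField K]

/-- a function of the units at `v` invariant under the cubes does not depend on the model -/
theorem wd_cube {v : HeightOneSpectrum (𝓞 K)} {β : 𝓞 K → ℂ}
    (hβ : ∀ r z : 𝓞 K, z ∉ v.asIdeal → β (r * z ^ 3) = β r) {r r' y z : 𝓞 K}
    (hr : r ∉ v.asIdeal) (hr' : r' ∉ v.asIdeal) (hz : z ≠ 0)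
    (h : r' * z ^ 3 = r * y ^ 3) : β r = β r' := by
  have hr0 : r ≠ 0 := by
    rintro rfl
    exact hr (zero_mem _)
  have hr0' : r' ≠ 0 := by
    rintro rfl
    exact hr' (zero_mem _)
  have hy : y ≠ 0 := by
    rintro rfl
    rw [zero_pow three_ne_zero, mul_zero] at h
    exact mul_ne_zero hr0' (pow_ne_zero 3 hz) h
  have hod : od v z = od v y := by
    have := congrArg (od v) h
    rw [od_mul v hr0 (pow_ne_zero 3 hy), od_mul v hr0' (pow_ne_zero 3 hz), od_pow v hy,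
      od_pow v hz, od_of_notMem v hr, od_of_notMem v hr'] at this
    omega
  obtain ⟨s, t, hs, ht, hot⟩ := ex_div v hy hz hod.symm.le
  -- `s * z = y * t`
  have ht0 : t ≠ 0 := by
    rintro rfl
    rw [mul_zero] at ht
    have hs0 : s ≠ 0 := by
      rintro rfl
      exact hs (zero_mem _)
    exact mul_ne_zero hs0 hz ht
  have htv : t ∉ v.asIdeal := by
    rw [← od_zero v ht0]
    omega
  have h5 : r * s ^ 3 = r' * t ^ 3 := by
    apply mul_left_cancel₀ (pow_ne_zero 3 hy)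
    have h6 : s ^ 3 * z ^ 3 = y ^ 3 * t ^ 3 := by rw [← mul_pow, ht, mul_pow]
    linear_combination r' * h6 - s ^ 3 * h
  rw [← hβ r s hs, h5, hβ r' t htv]

/-- the local factor is the one of the `L`-series of a good model -/
theorem lf_fac {v : HeightOneSpectrum (𝓞 K)} {δ R Z : 𝓞 K} (hδ : δ ≠ 0) (hrel : δ = R * Z ^ 3)
    (hbad : 3 * R ∈ v.asIdeal → aV (ED (R : K)) v = 0 ∧ eV (ED (R : K)) v = 0)
    (hnog : R ∈ v.asIdeal → ¬ GoodAt δ v) (x : ℂ) : lf δ v x = fac R v x := by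
  by_cases h3 : (3 : 𝓞 K) ∈ v.asIdeal
  · obtain ⟨x1, x2⟩ := hbad (Ideal.mul_mem_right _ _ h3)
    rw [lf_three h3]
    simp only [fac, x1, x2]
    simp
  · by_cases hR : R ∈ v.asIdeal
    · obtain ⟨x1, x2⟩ := hbad (Ideal.mul_mem_left _ _ hR)
      rw [lf_bad hδ (fun h => hnog hR ((good_iff hδ v).2 h))]
      simp only [fac, x1, x2]
      simp
    · obtain ⟨β, c1, c2, -⟩ := exists_bg v h3
      have hg : (3 : 𝓞 K) ∉ v.asIdeal ∧ GoodAt δ v :=
        ⟨h3, R, 1, Z, one_ne_zero, hR, by rw [one_pow, mul_one, hrel]⟩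
      obtain ⟨b1, b2, b3, b4⟩ := c2 R hR
      obtain ⟨z, z', hz, hr, h⟩ := hg.2.choose_spec
      have e1 : β (hg.2.choose) = β R := by
        have hZ : Z ≠ 0 := by
          rintro rfl
          rw [zero_pow three_ne_zero, mul_zero] at hrel
          exact hδ hrel
        refine wd_cube c1 hr hR (y := z') (z := Z * z) (mul_ne_zero hZ hz) ?_
        exact Eq.trans (by rw [hrel]; ring) h
      obtain ⟨-, -, -, d4⟩ := c2 _ hr
      unfold lf fac tr dt
      rw [dif_pos hg, if_pos hg, b2, b3]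
      have h7 : (Nv v hg.2.choose : ℂ) = nm v - (β R + (starRingEnd ℂ) (β R)) := by
        rw [← e1]
        exact d4
      push_cast
      rw [h7]
      congr 2
      ring

/-- **The `L`-function of the hypersurface over any number field**, from the Euler products of the
curves. -/
theorem gen_F {c : ℕ} (hc : c ≤ 2) {a : Fin (2 * c + 3) → 𝓞 K} (ha : ∀ i, a i ≠ 0)
    {L : Finset (Fin (2 * c + 3)) → ℂ → ℂ} (hdiff : ∀ T ∈ SS c, Differentiable ℂ (L T))
    (hL : ∀ T ∈ SS c, ∀ s : ℂ, 3 / 2 < s.re → HasProd (fun w : HeightOneSpectrum (𝓞 K) =>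
      lf (Dt a T) w ((nm w : ℂ) ^ (-s))) (L T s)) :
    IsLFT a (fun s => ∏ T ∈ SS c, L T (s - c)) := by
  have hch : ∀ v : HeightOneSpectrum (𝓞 K), ∃ β : 𝓞 K → ℂ, (3 : 𝓞 K) ∉ v.asIdeal →
      (∀ δ z : 𝓞 K, z ∉ v.asIdeal → β (δ * z ^ 3) = β δ) ∧
      (∀ δ : 𝓞 K, δ ∉ v.asIdeal → β δ * (starRingEnd ℂ) (β δ) = nm v ∧
        ((aV (ED (δ : K)) v : ℤ) : ℂ) = β δ + (starRingEnd ℂ) (β δ) ∧
        ((eV (ED (δ : K)) v : ℤ) : ℂ) = nm v ∧
        (Nat.card {P : (𝓞 K ⧸ v.asIdeal) × (𝓞 K ⧸ v.asIdeal) //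
          P.2 ^ 2 + Ideal.Quotient.mk v.asIdeal δ * P.2 = P.1 ^ 3} : ℂ) =
            nm v - (β δ + (starRingEnd ℂ) (β δ))) ∧
      ∀ c : ℕ, c ≤ 2 → ∀ a : Fin (2 * c + 3) → 𝓞 K, (∀ i, a i ∉ v.asIdeal) →
        IsFrob a v (∑ T ∈ SS c, two c (nm v) (β (Dt a T))) := by
    intro v
    by_cases h3 : (3 : 𝓞 K) ∈ v.asIdeal
    · exact ⟨0, fun h => absurd h3 h⟩
    · obtain ⟨β, hβ⟩ := exists_bg v h3
      exact ⟨β, fun _ => hβ⟩
  choose β hβ using hch
  have hDt0 : ∀ T, Dt a T ≠ 0 := fun T => by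
    unfold Pool.Agent.N883.DQ.Dt
    exact mul_ne_zero (Finset.prod_ne_zero_iff.2 fun i _ => ha i)
      (Finset.prod_ne_zero_iff.2 fun i _ => ha i)
  -- the multisets
  let AT : HeightOneSpectrum (𝓞 K) → Finset (Fin (2 * c + 3)) → Multiset ℂ := fun v T =>
    if h : (3 : 𝓞 K) ∉ v.asIdeal ∧ GoodAt (Dt a T) v then two c (nm v) (β v h.2.choose) else 0
  -- the factors
  have hfac : ∀ (v : HeightOneSpectrum (𝓞 K)) (T : Finset (Fin (2 * c + 3))) (s : ℂ),
      ((AT v T).map (fun α => (1 - α * (nm v : ℂ) ^ (-s))⁻¹)).prod =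
      lf (Dt a T) v ((nm v : ℂ) ^ (-(s - c))) := by
    intro v T s
    have e : (nm v : ℂ) ^ (-(s - c)) = (nm v : ℂ) ^ c * (nm v : ℂ) ^ (-s) := by
      rw [show -(s - (c : ℂ)) = (c : ℂ) + -s by ring, Complex.cpow_add _ _ (nm_ne v),
        Complex.cpow_natCast]
    rw [e]
    by_cases hg : (3 : 𝓞 K) ∉ v.asIdeal ∧ GoodAt (Dt a T) v
    · obtain ⟨c1, c2, -⟩ := hβ v hg.1
      obtain ⟨z, z', hz, hr, h⟩ := hg.2.choose_spec
      obtain ⟨b1, -, -, b4⟩ := c2 _ hr
      simp only [AT, dif_pos hg]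
      unfold lf tr dt
      rw [dif_pos hg, if_pos hg, two_prod, ← mul_inv]
      have h7 : (Nv v hg.2.choose : ℂ) = nm v -
          (β v hg.2.choose + (starRingEnd ℂ) (β v hg.2.choose)) := b4
      push_cast
      rw [h7]
      congr 1
      linear_combination ((nm v : ℂ) ^ c * (nm v : ℂ) ^ (-s)) ^ 2 * b1
    · simp only [AT, dif_neg hg]
      unfold lf tr dt
      rw [dif_neg hg, if_neg hg]
      simp
  have hsub : Differentiable ℂ (fun s : ℂ => s - (c : ℂ)) := differentiable_id.sub_const _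
  have hnorm : ∀ (v : HeightOneSpectrum (𝓞 K)) (x : ℂ), x * (starRingEnd ℂ) x = nm v →
      ∀ α ∈ two c (nm v) x, ‖α‖ ^ 2 = (nm v : ℝ) ^ (2 * c + 1) := by
    intro v x hx α hα
    have key : ∀ x : ℂ, x * (starRingEnd ℂ) x = nm v →
        ‖(nm v : ℂ) ^ c * x‖ ^ 2 = (nm v : ℝ) ^ (2 * c + 1) := by
      intro x hx
      have h1 : ‖x‖ ^ 2 = (nm v : ℝ) := by
        rw [Complex.sq_norm]
        rw [Complex.mul_conj] at hx
        exact_mod_cast hx
      rw [norm_mul, mul_pow, h1, norm_pow, Complex.norm_natCast]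
      ring
    have : α = (nm v : ℂ) ^ c * x ∨ α = (nm v : ℂ) ^ c * (starRingEnd ℂ) x := by
      simpa [two] using hα
    rcases this with rfl | rfl
    · exact key _ hx
    · refine key _ ?_
      rw [Complex.conj_conj, mul_comm]
      exact hx
  refine ⟨Differentiable.fun_finsetProd fun T hT => (hdiff T hT).comp hsub,
    fun v => ∑ T ∈ SS c, AT v T, fun v h3 hav => ?_, fun v h3 => ⟨AT v, fun T hT => ?_, rfl⟩,
    fun v h3 => ?_, fun s hs => ?_⟩
  · obtain ⟨c1, c2, c3⟩ := hβ v h3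
    have hDt : ∀ T, Dt a T ∉ v.asIdeal := by
      intro T h'
      unfold Pool.Agent.N883.DQ.Dt at h'
      rcases v.isPrime.mem_or_mem h' with h1 | h1
      · obtain ⟨i, -, hi⟩ := (Ideal.IsPrime.prod_mem_iff (hp := v.isPrime)).1 h1
        exact hav i hi
      · obtain ⟨i, -, hi⟩ := (Ideal.IsPrime.prod_mem_iff (hp := v.isPrime)).1 h1
        exact hav i hi
    have hA : ∑ T ∈ SS c, AT v T = ∑ T ∈ SS c, two c (nm v) (β v (Dt a T)) := by
      refine Finset.sum_congr rfl fun T hT => ?_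
      have hg : (3 : 𝓞 K) ∉ v.asIdeal ∧ GoodAt (Dt a T) v :=
        ⟨h3, Dt a T, 1, 1, one_ne_zero, hDt T, rfl⟩
      simp only [AT, dif_pos hg]
      obtain ⟨z, z', hz, hr, h⟩ := hg.2.choose_spec
      rw [wd_cube c1 hr (hDt T) hz h]
    refine ⟨?_, ?_, fun α hα => ?_⟩
    · show IsFrob _ v (∑ T ∈ SS c, AT v T)
      rw [hA]
      exact c3 c hc a hav
    · show (∑ T ∈ SS c, AT v T).card = _
      rw [hA, card_sum_ms]
      have h2 : ∀ T ∈ SS c, (two c (nm v) (β v (Dt a T))).card = 2 :=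
        fun T _ => by simp [two]
      rw [Finset.sum_congr rfl h2, Finset.sum_const, smul_eq_mul]
      unfold SS
      rw [Finset.card_powersetCard, Finset.card_univ, Fintype.card_fin, mul_comm]
    · have hα' : α ∈ ∑ T ∈ SS c, AT v T := hα
      rw [hA] at hα'
      obtain ⟨T, -, hT⟩ := mem_sum_ms _ _ hα'
      exact hnorm v _ (c2 _ (hDt T)).1 α hT
  · obtain ⟨c1, c2, c3⟩ := hβ v h3
    by_cases hg : (3 : 𝓞 K) ∉ v.asIdeal ∧ GoodAt (Dt a T) v
    · left
      obtain ⟨z, z', hz, hr, h⟩ := hg.2.choose_spec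
      obtain ⟨b1, -, -, b4⟩ := c2 _ hr
      refine ⟨hg.2.choose, z, z', hz, hr, h, β v hg.2.choose, b1, b4, ?_⟩
      simp only [AT, dif_pos hg]
      rfl
    · right
      refine ⟨fun h => hg ⟨h3, h⟩, ?_⟩
      simp only [AT, dif_neg hg]
  · show ∑ T ∈ SS c, AT v T = 0
    refine Finset.sum_eq_zero fun T _ => ?_
    simp only [AT]
    rw [dif_neg fun h => h.1 h3]
  · have hre : 3 / 2 < (s - (c : ℂ)).re := by
      rw [Complex.sub_re, Complex.natCast_re]
      linarith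
    have h1 : HasProd (fun v : HeightOneSpectrum (𝓞 K) => ∏ T ∈ SS c,
        lf (Dt a T) v ((nm v : ℂ) ^ (-(s - c))))
        (∏ T ∈ SS c, L T (s - c)) :=
      hasProd_prod fun T hT => hL T hT _ hre
    refine h1.congr_fun fun v => ?_
    show ((∑ T ∈ SS c, AT v T).map _).prod = _
    rw [map_sum_prod]
    exact Finset.prod_congr rfl fun T hT => hfac v T s

end

end Run7.h707.TE
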