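import Pool.Agent.Run7.h707.TE.Efg

/-! The local factors: values -/

set_option autoImplicit false
set_option linter.unusedVariables false
set_option linter.unusedSectionVars false
set_option linter.style.haveILetI false

open scoped Classical

namespace Run7.h707.TE

open Finset NumberField IsDedekindDomain
open Pool.Agent.H921R2.TatePole (nm two_le_nm)
open Pool.Agent.R433.MD (Fib fib_le fdeg nm_fib algFib_mk und fdeg_pos)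
open Pool.Agent.Y696 (HBd)
open Run7.h707.TC (GoodAt)

section
variable {K : Type} [Field K] [NumberField K]

/-- the eigenvalues at `v` -/
structure Bt (v : HeightOneSpectrum (𝓞 K)) (β : 𝓞 K → ℂ) : Prop where
  res : ∀ r r' : 𝓞 K, Ideal.Quotient.mk v.asIdeal r = Ideal.Quotient.mk v.asIdeal r' → β r = β r'
  cube : ∀ r z : 𝓞 K, z ∉ v.asIdeal → β (r * z ^ 3) = β r
  nrm : ∀ r : 𝓞 K, r ∉ v.asIdeal → β r * (starRingEnd ℂ) (β r) = nm v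
  ext : ∀ r : 𝓞 K, r ∉ v.asIdeal → ∀ (N : Type) [Field N] [NumberField N] [Algebra K N]
    (w : Fib N v), (Nv w.1 (algebraMap (𝓞 K) (𝓞 N) r) : ℂ) =
      nm w.1 - (β r ^ fdeg w + ((starRingEnd ℂ) (β r)) ^ fdeg w)
  cnt : ∀ r : 𝓞 K, r ∉ v.asIdeal → (Nv v r : ℂ) = nm v - (β r + (starRingEnd ℂ) (β r))
  chi : ∀ u : 𝓞 K, u ∉ v.asIdeal → (¬ ∃ z : 𝓞 K, z ^ 3 - u ∈ v.asIdeal) →
    ∃ ζ : ℂ, ζ ^ 2 + ζ + 1 = 0 ∧ ‖ζ‖ = 1 ∧ ∀ r : 𝓞 K, β (r * u) = ζ * β r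

theorem ex_Bt (v : HeightOneSpectrum (𝓞 K)) (h3 : (3 : 𝓞 K) ∉ v.asIdeal)
    (hω : ∃ z : K, z ^ 2 + z + 1 = 0) : ∃ β, Bt v β := by
  obtain ⟨β, h1, h2, h4, h5, h6, h7⟩ := ex_bt v h3 hω
  exact ⟨β, h1, h2, h4, h5, h6, h7⟩

/-- the eigenvalue does not depend on the model -/
theorem bt_wd {v : HeightOneSpectrum (𝓞 K)} {β : 𝓞 K → ℂ} (hβ : Bt v β) {δ r r' z₁ y₁ z₂ y₂ : 𝓞 K}
    (hδ : δ ≠ 0) (hr : r ∉ v.asIdeal) (hr' : r' ∉ v.asIdeal) (hz₁ : z₁ ≠ 0) (hz₂ : z₂ ≠ 0)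
    (h₁ : δ * z₁ ^ 3 = r * y₁ ^ 3) (h₂ : δ * z₂ ^ 3 = r' * y₂ ^ 3) : β r = β r' := by
  have hr0 : r ≠ 0 := by
    rintro rfl
    exact hr (zero_mem _)
  have hr0' : r' ≠ 0 := by
    rintro rfl
    exact hr' (zero_mem _)
  have hy₁ : y₁ ≠ 0 := by
    rintro rfl
    rw [zero_pow three_ne_zero, mul_zero] at h₁
    exact mul_ne_zero hδ (pow_ne_zero 3 hz₁) h₁
  have hy₂ : y₂ ≠ 0 := by
    rintro rfl
    rw [zero_pow three_ne_zero, mul_zero] at h₂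
    exact mul_ne_zero hδ (pow_ne_zero 3 hz₂) h₂
  obtain ⟨a, ha⟩ : ∃ a, a = y₁ * z₂ := ⟨_, rfl⟩
  obtain ⟨b, hb⟩ : ∃ b, b = y₂ * z₁ := ⟨_, rfl⟩
  have ha0 : a ≠ 0 := by rw [ha]; exact mul_ne_zero hy₁ hz₂
  have hb0 : b ≠ 0 := by rw [hb]; exact mul_ne_zero hy₂ hz₁
  have hab : r * a ^ 3 = r' * b ^ 3 := by
    rw [ha, hb]
    linear_combination z₁ ^ 3 * h₂ - z₂ ^ 3 * h₁
  have hod : od v a = od v b := by
    have := congrArg (od v) hab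
    rw [od_mul v hr0 (pow_ne_zero 3 ha0), od_mul v hr0' (pow_ne_zero 3 hb0), od_pow v ha0,
      od_pow v hb0, od_of_notMem v hr, od_of_notMem v hr'] at this
    omega
  obtain ⟨s, t, hs, ht, hot⟩ := ex_div v ha0 hb0 hod.le
  have ht0 : t ≠ 0 := by
    rintro rfl
    rw [mul_zero] at ht
    have hs0 : s ≠ 0 := by
      rintro rfl
      exact hs (zero_mem _)
    exact mul_ne_zero hs0 hb0 ht
  have htv : t ∉ v.asIdeal := by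
    rw [← od_zero v ht0]
    omega
  have h5 : r * s ^ 3 = r' * t ^ 3 := by
    apply mul_left_cancel₀ (pow_ne_zero 3 ha0)
    have h6 : s ^ 3 * b ^ 3 = a ^ 3 * t ^ 3 := by rw [← mul_pow, ht, mul_pow]
    linear_combination s ^ 3 * hab + r' * h6
  rw [← hβ.cube r s hs, h5, hβ.cube r' t htv]

/-- the trace of the Frobenius on the invariants of inertia -/
noncomputable def tr (δ : 𝓞 K) (v : HeightOneSpectrum (𝓞 K)) : ℤ :=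
  if h : (3 : 𝓞 K) ∉ v.asIdeal ∧ GoodAt δ v then (nm v : ℤ) - Nv v h.2.choose else 0

/-- its determinant -/
noncomputable def dt (δ : 𝓞 K) (v : HeightOneSpectrum (𝓞 K)) : ℤ :=
  if (3 : 𝓞 K) ∉ v.asIdeal ∧ GoodAt δ v then (nm v : ℤ) else 0

/-- the local factor -/
noncomputable def lf (δ : 𝓞 K) (v : HeightOneSpectrum (𝓞 K)) (x : ℂ) : ℂ :=
  (1 - (tr δ v : ℂ) * x + (dt δ v : ℂ) * x ^ 2)⁻¹

theorem tr_val {v : HeightOneSpectrum (𝓞 K)} (h3 : (3 : 𝓞 K) ∉ v.asIdeal) {β : 𝓞 K → ℂ}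
    (hβ : Bt v β) {δ r z z' : 𝓞 K} (hδ : δ ≠ 0) (hr : r ∉ v.asIdeal) (hz : z ≠ 0)
    (h : δ * z ^ 3 = r * z' ^ 3) :
    (tr δ v : ℂ) = β r + (starRingEnd ℂ) (β r) ∧ dt δ v = nm v := by
  have hg : (3 : 𝓞 K) ∉ v.asIdeal ∧ GoodAt δ v := ⟨h3, r, z, z', hz, hr, h⟩
  constructor
  · unfold tr
    rw [dif_pos hg]
    obtain ⟨z₂, z₂', hz₂, hr₂, h₂⟩ := hg.2.choose_spec
    have h5 := hβ.cnt _ hr₂
    rw [bt_wd hβ hδ hr₂ hr hz₂ hz h₂ h] at h5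
    push_cast
    rw [h5]
    ring
  · unfold dt
    rw [if_pos hg]

theorem lf_val {v : HeightOneSpectrum (𝓞 K)} (h3 : (3 : 𝓞 K) ∉ v.asIdeal) {β : 𝓞 K → ℂ}
    (hβ : Bt v β) {δ r z z' : 𝓞 K} (hδ : δ ≠ 0) (hr : r ∉ v.asIdeal) (hz : z ≠ 0)
    (h : δ * z ^ 3 = r * z' ^ 3) (x : ℂ) :
    lf δ v x = (1 - (β r + (starRingEnd ℂ) (β r)) * x + (nm v : ℂ) * x ^ 2)⁻¹ := by
  obtain ⟨h1, h2⟩ := tr_val h3 hβ hδ hr hz h
  unfold lf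
  rw [h1, h2]
  push_cast
  rfl

theorem lf_three {v : HeightOneSpectrum (𝓞 K)} (h3 : (3 : 𝓞 K) ∈ v.asIdeal) (δ : 𝓞 K) (x : ℂ) :
    lf δ v x = 1 := by
  unfold lf tr dt
  rw [dif_neg (fun h => h.1 h3), if_neg (fun h => h.1 h3)]
  simp

theorem lf_bad {v : HeightOneSpectrum (𝓞 K)} {δ : 𝓞 K} (hδ : δ ≠ 0) (h : ¬ 3 ∣ od v δ) (x : ℂ) :
    lf δ v x = 1 := by
  have hg : ¬ ((3 : 𝓞 K) ∉ v.asIdeal ∧ GoodAt δ v) := fun h' => h ((good_iff hδ v).1 h'.2)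
  unfold lf tr dt
  rw [dif_neg hg, if_neg hg]
  simp

/-- the local data are as they should be -/
theorem hbd_lf (hω : ∃ z : K, z ^ 2 + z + 1 = 0) (δ : 𝓞 K) (hδ : δ ≠ 0)
    (v : HeightOneSpectrum (𝓞 K)) : HBd (tr δ v) (dt δ v) (nm v) := by
  by_cases hg : (3 : 𝓞 K) ∉ v.asIdeal ∧ GoodAt δ v
  · obtain ⟨β, hβ⟩ := ex_Bt v hg.1 hω
    obtain ⟨r, z, z', hz, hr, h⟩ := hg.2
    obtain ⟨h1, h2⟩ := tr_val hg.1 hβ hδ hr hz h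
    refine Or.inr ⟨β r, h1, ?_, hβ.nrm r hr⟩
    rw [h2, hβ.nrm r hr]
    push_cast
    rfl
  · left
    unfold tr dt
    rw [dif_neg hg, if_neg hg]
    exact ⟨rfl, rfl⟩

end

section ext
variable {K : Type} [Field K] [NumberField K] {N : Type} [Field N] [NumberField N] [Algebra K N]

theorem three_notMem {v : HeightOneSpectrum (𝓞 K)} (h3 : (3 : 𝓞 K) ∉ v.asIdeal) (w : Fib N v) :
    (3 : 𝓞 N) ∉ w.1.asIdeal := by
  have := (mem_fib w (3 : 𝓞 K)).not.2 h3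
  rwa [map_ofNat] at this

/-- the local factor at a place above -/
theorem lf_fib (hω : ∃ z : K, z ^ 2 + z + 1 = 0) {v : HeightOneSpectrum (𝓞 K)}
    (h3 : (3 : 𝓞 K) ∉ v.asIdeal) {β : 𝓞 K → ℂ} (hβ : Bt v β) (w : Fib N v) {δ z z' : 𝓞 N}
    {r : 𝓞 K} (hδ : δ ≠ 0) (hr : r ∉ v.asIdeal) (hz : z ≠ 0)
    (h : δ * z ^ 3 = algebraMap (𝓞 K) (𝓞 N) r * z' ^ 3) (x : ℂ) :
    lf δ w.1 x = (1 - (β r ^ fdeg w + ((starRingEnd ℂ) (β r)) ^ fdeg w) * x +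
      (nm w.1 : ℂ) * x ^ 2)⁻¹ := by
  have h3w := three_notMem h3 w
  obtain ⟨γ, hγ⟩ := ex_Bt w.1 h3w (by
    obtain ⟨z, hz⟩ := hω
    refine ⟨algebraMap K N z, ?_⟩
    rw [← map_pow, ← map_add, ← map_one (algebraMap K N), ← map_add, hz, map_zero])
  have hrw : algebraMap (𝓞 K) (𝓞 N) r ∉ w.1.asIdeal := (mem_fib w r).not.2 hr
  rw [lf_val h3w hγ hδ hrw hz h x]
  have h5 := hγ.cnt _ hrw
  have h6 := hβ.ext r hr N w
  rw [h5] at h6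
  have h7 : γ (algebraMap (𝓞 K) (𝓞 N) r) + (starRingEnd ℂ) (γ (algebraMap (𝓞 K) (𝓞 N) r)) =
      β r ^ fdeg w + ((starRingEnd ℂ) (β r)) ^ fdeg w := by
    linear_combination -h6
  rw [h7]

end ext

end Run7.h707.TE
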