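import Pool.Agent.Run7.h707.TE.FF

/-! The local factors of the curves `y² + δ y = x³` -/

set_option autoImplicit false
set_option linter.unusedVariables false
set_option linter.unusedSectionVars false
set_option linter.style.haveILetI false

open scoped Classical

namespace Run7.h707.TE

open Finset NumberField IsDedekindDomain
open Pool.Agent.N883.DQ (IsBeta)
open Pool.Agent.H921R2.TatePole (nm two_le_nm)
open Pool.Agent.R433.MD (Fib fib_le fdeg nm_fib algFib_mk und)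
open Run7.h707.TC (GoodAt)

section nf
variable {K : Type} [Field K] [NumberField K]

theorem cast_three (v : HeightOneSpectrum (𝓞 K)) (h3 : (3 : 𝓞 K) ∉ v.asIdeal) :
    (3 : 𝓞 K ⧸ v.asIdeal) ≠ 0 := by
  intro h
  apply h3
  rw [← Ideal.Quotient.eq_zero_iff_mem, map_ofNat]
  exact h

theorem mk_ne {v : HeightOneSpectrum (𝓞 K)} {x : 𝓞 K} (hx : x ∉ v.asIdeal) :
    Ideal.Quotient.mk v.asIdeal x ≠ 0 := by
  rwa [Ne, Ideal.Quotient.eq_zero_iff_mem]

theorem card_nm (v : HeightOneSpectrum (𝓞 K)) : Nat.card (𝓞 K ⧸ v.asIdeal) = nm v :=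
  Pool.Agent.R432.V.qv_eq v

theorem good_iff {δ : 𝓞 K} (hδ : δ ≠ 0) (v : HeightOneSpectrum (𝓞 K)) :
    GoodAt δ v ↔ 3 ∣ od v δ := by
  constructor
  · rintro ⟨r, z, z', hz, hr, h⟩
    have hr0 : r ≠ 0 := by
      rintro rfl
      exact hr (zero_mem _)
    have hz' : z' ≠ 0 := by
      rintro rfl
      rw [zero_pow three_ne_zero, mul_zero] at h
      exact mul_ne_zero hδ (pow_ne_zero 3 hz) h
    have h1 := congrArg (od v) h
    rw [od_mul v hδ (pow_ne_zero 3 hz), od_mul v hr0 (pow_ne_zero 3 hz'), od_pow v hz, od_pow v hz',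
      od_of_notMem v hr] at h1
    omega
  · rintro ⟨k, hk⟩
    obtain ⟨π, hπ, hπ1⟩ := ex_unif v
    have h1 : od v ((π ^ k) ^ 3) = 3 * k := by
      rw [od_pow v (pow_ne_zero k hπ), od_pow v hπ, hπ1, mul_one]
    obtain ⟨s, t, hs, ht, hot⟩ := ex_div v (pow_ne_zero 3 (pow_ne_zero k hπ)) hδ
      (by rw [h1, hk])
    have ht0 : t ≠ 0 := by
      rintro rfl
      rw [mul_zero] at ht
      have hs0 : s ≠ 0 := by
        rintro rfl
        exact hs (zero_mem _)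
      exact mul_ne_zero hs0 hδ ht
    have htv : t ∉ v.asIdeal := by
      rw [← od_zero v ht0]
      omega
    refine ⟨t * s ^ 2, s, π ^ k, ?_, ?_, ?_⟩
    · rintro rfl
      exact hs (zero_mem _)
    · intro h2
      rcases v.isPrime.mem_or_mem h2 with h2 | h2
      · exact htv h2
      · exact hs (v.isPrime.mem_of_pow_mem _ h2)
    · linear_combination s ^ 2 * ht

/-- the number of the affine points over the residue field -/
noncomputable def Nv (v : HeightOneSpectrum (𝓞 K)) (r : 𝓞 K) : ℕ :=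
  Nat.card {P : (𝓞 K ⧸ v.asIdeal) × (𝓞 K ⧸ v.asIdeal) //
    P.2 ^ 2 + Ideal.Quotient.mk v.asIdeal r * P.2 = P.1 ^ 3}

/-- the eigenvalues over the residue field -/
theorem ex_bt (v : HeightOneSpectrum (𝓞 K)) (h3 : (3 : 𝓞 K) ∉ v.asIdeal)
    (hω : ∃ z : K, z ^ 2 + z + 1 = 0) :
    ∃ β : 𝓞 K → ℂ, (∀ r r' : 𝓞 K, Ideal.Quotient.mk v.asIdeal r = Ideal.Quotient.mk v.asIdeal r' →
        β r = β r') ∧
      (∀ r z : 𝓞 K, z ∉ v.asIdeal → β (r * z ^ 3) = β r) ∧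
      (∀ r : 𝓞 K, r ∉ v.asIdeal → β r * (starRingEnd ℂ) (β r) = nm v) ∧
      (∀ r : 𝓞 K, r ∉ v.asIdeal → ∀ (N : Type) [Field N] [NumberField N] [Algebra K N]
        (w : Fib N v), (Nv w.1 (algebraMap (𝓞 K) (𝓞 N) r) : ℂ) =
          nm w.1 - (β r ^ fdeg w + ((starRingEnd ℂ) (β r)) ^ fdeg w)) ∧
      (∀ r : 𝓞 K, r ∉ v.asIdeal → (Nv v r : ℂ) = nm v - (β r + (starRingEnd ℂ) (β r))) ∧
      (∀ u : 𝓞 K, u ∉ v.asIdeal → (¬ ∃ z : 𝓞 K, z ^ 3 - u ∈ v.asIdeal) →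
        ∃ ζ : ℂ, ζ ^ 2 + ζ + 1 = 0 ∧ ‖ζ‖ = 1 ∧ ∀ r : 𝓞 K, β (r * u) = ζ * β r) := by
  have hm : v.asIdeal.IsMaximal := v.isMaximal
  letI : Fintype (𝓞 K ⧸ v.asIdeal) := Fintype.ofFinite _
  have hcard : (Fintype.card (𝓞 K ⧸ v.asIdeal)) = nm v := by
    rw [← Nat.card_eq_fintype_card, card_nm]
  have h3' := cast_three v h3
  obtain ⟨β, hβ, hχ⟩ := ex_beta3 (k := 𝓞 K ⧸ v.asIdeal) h3' (by
    obtain ⟨z, hz⟩ := hω
    have hint : IsIntegral ℤ z := by
      refine ⟨Polynomial.X ^ 2 + Polynomial.X + 1, ?_, ?_⟩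
      · monicity!
      · simp [Polynomial.eval₂_add, Polynomial.eval₂_pow, hz]
    obtain ⟨z0, hz0⟩ : ∃ z0 : 𝓞 K, (z0 : K) = z := ⟨⟨z, hint⟩, rfl⟩
    refine ⟨Ideal.Quotient.mk v.asIdeal z0, ?_⟩
    have : z0 ^ 2 + z0 + 1 = 0 := by
      subst hz0
      exact_mod_cast hz
    rw [← map_pow, ← map_add, ← map_one (Ideal.Quotient.mk v.asIdeal), ← map_add, this, map_zero])
  refine ⟨fun r => β (Ideal.Quotient.mk v.asIdeal r), fun r r' h => congrArg β h,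
    fun r z hz => ?_,
    fun r hr => ?_, fun r hr N _ _ _ w => ?_, fun r hr => ?_, fun u hu hnc => ?_⟩
  · show β (Ideal.Quotient.mk v.asIdeal (r * z ^ 3)) = _
    rw [map_mul, map_pow]
    exact hβ.1 _ _ (mk_ne hz)
  · have := (hβ.2.1 _ (mk_ne hr)).1
    rw [hcard] at this
    exact this
  · have h1 := ext_ct hβ h3' (mk_ne hr) (𝓞 N ⧸ w.1.asIdeal)
    rw [card_nm w.1] at h1
    exact h1
  · have := (hβ.2.1 _ (mk_ne hr)).2
    rw [hcard] at this
    refine Eq.trans this ?_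
    ring
  · obtain ⟨ζ, h1, h2, h4⟩ := hχ (Ideal.Quotient.mk v.asIdeal u) (mk_ne hu) (by
      rintro ⟨z, hz⟩
      obtain ⟨z, rfl⟩ := Ideal.Quotient.mk_surjective z
      apply hnc
      refine ⟨z, ?_⟩
      rw [← Ideal.Quotient.eq_zero_iff_mem, map_sub, map_pow, hz, sub_self])
    refine ⟨ζ, h1, h2, fun r => ?_⟩
    show β (Ideal.Quotient.mk v.asIdeal (r * u)) = _
    rw [map_mul]
    exact h4 _

end nf

end Run7.h707.TE
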