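import Pool.Agent.Run7.h707.TE.LawA
import Pool.Agent.Run7.h707.TE.Hyp

/-! The `L`-function of one curve `E_δ` over `K`, all the places -/

set_option autoImplicit false
set_option linter.unusedVariables false
set_option linter.unusedSectionVars false

open scoped Classical

namespace Run7.h707.TE

open Finset Filter NumberField IsDedekindDomain
open Pool.Agent.N883.FG
open Pool.Agent.N883.FF
open Pool.Agent.W189.NF (aV eV)
open Pool.Agent.Y692.QS (Ei w nr)
open Pool.Agent.Y703.CT (pD)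
open Pool.Agent.H921R2.TatePole (nm)
open Pool.Agent.Y696.CTK (ED Tri)
open Run7.h707.TC (dlt UC NEc FamU FamO ExO famO_iff exO_iff famU_ex dlt_eq nec_iff Uu Tt eT tt_pq
  dt_U nx_iff one_T not_good GoodAt elw)

section
variable {K : Type} [Field K] [NumberField K]

/-- **the `L`-function of one curve**, elements of `ℤ[ω]` -/
theorem one_E (j : Ei ≃+* 𝓞 K) {m : ℕ} (n : Fin m → ℕ) {a : Fin m → Ei} (ha : ∀ k, FamU (a k))
    (hn : NEc (dlt n a)) :
    ∃ Lf : ℂ → ℂ, Differentiable ℂ Lf ∧ (∀ s : ℂ, 3 / 2 < s.re →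
      HasProd (fun v : HeightOneSpectrum (𝓞 K) => lf (j (dlt n a)) v ((nm v : ℂ) ^ (-s))) (Lf s)) ∧
      (Tri (j (dlt n a)) → Lf 1 ≠ 0) := by
  choose i M S hS hM haa using fun k => famU_ex (ha k)
  have hae : a = fun k => elw (i k) (M k) (S k) := funext haa
  rw [hae] at hn
  obtain ⟨z, hz, hzp, hd⟩ := dlt_eq n i hM hS
  have h0 := (nec_iff hM hS).1 hn
  have hTt := tt_pq hS
  have hD := dt_U hTt (eT n M S)
  have hnE : Nonempty ↥(Uu (Tt S) (eT n M S)) := h0.1.to_subtype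
  have hx : ∑ k, (n k : ZMod 3) * i k = 0 →
      ¬ (9 : ℤ) ∣ nr (pD (fun π : ↥(Uu (Tt S) (eT n M S)) => (π : Ei))
        (fun π => eT n M S π)) - 1 := by
    intro hy h9
    have h2 := (nx_iff hD (∑ k, (n k : ZMod 3) * i k) hzp).2 ⟨hy, h9⟩
    have h3 := hn.2
    rw [hd] at h3
    exact h3 h2
  obtain ⟨Lf, l1, l2, l3⟩ := one_T (K := K) j hD hx
  have hd' : dlt n a = pB (fun π : ↥(Uu (Tt S) (eT n M S)) => (π : Ei))
    (fun π => eT n M S π) (∑ k, (n k : ZMod 3) * i k) * z ^ 3 := by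
    rw [hae]
    exact hd
  have hjz : j z ≠ 0 := (map_ne_zero_iff j j.injective).2 hz
  have hd2 : j (dlt n a) = j (pB (fun π : ↥(Uu (Tt S) (eT n M S)) => (π : Ei))
    (fun π => eT n M S π) (∑ k, (n k : ZMod 3) * i k)) * (j z) ^ 3 := by
    rw [hd', map_mul, map_pow]
  have hbad := fun v => bad_allB (K := K) (i := ∑ k, (n k : ZMod 3) * i k) j hD v
  have hδ0 : j (dlt n a) ≠ 0 := by
    rw [map_ne_zero_iff j j.injective, hae]
    intro h0
    apply hn.1
    exact ⟨1, 0, isUnit_one, by rw [h0]; simp⟩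
  refine ⟨Lf, l1, fun s hs => ?_, fun ht => ?_⟩
  · rw [l2 s hs]
    have h1 := euler_one (K := K) (fun v hv => hbad v hv) 0 (s := s)
      (by rw [Nat.cast_zero, sub_zero]; exact hs)
    rw [Nat.cast_zero, sub_zero] at h1
    refine h1.congr_fun fun v => ?_
    rw [pow_zero, one_mul]
    exact lf_fac hδ0 hd2 (hbad v) (fun hv => not_good j hD hjz hd2 v hv) _
  · rw [hd'] at ht
    exact l3 z hz ht

/-- **the `L`-function of one curve** -/
theorem one_lf (j : Ei ≃+* 𝓞 K) (hj : ∀ z : Ei, Algebra.norm ℤ (j z) = nr z) {I : Type}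
    [Fintype I] (n : I → ℕ) {a : I → 𝓞 K} (ha : ∀ k, FamO (a k)) (hn : ¬ ExO (dO n a)) :
    ∃ Lf : ℂ → ℂ, Differentiable ℂ Lf ∧ (∀ s : ℂ, 3 / 2 < s.re →
      HasProd (fun v : HeightOneSpectrum (𝓞 K) => lf (dO n a) v ((nm v : ℂ) ^ (-s))) (Lf s)) ∧
      (Tri (dO n a) → Lf 1 ≠ 0) := by
  obtain ⟨b, rfl⟩ := (eqI j (Fintype.equivFin I)).surjective a
  rw [dO_eqI] at hn ⊢
  refine one_E j _ (fun k => ?_) ((exO_iff j hj _).1 hn)
  have h1 := ha ((Fintype.equivFin I).symm k)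
  rw [eqI_apply, Equiv.apply_symm_apply] at h1
  exact (famO_iff j _).1 h1

end

end Run7.h707.TE
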