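import Pool.Agent.Run7.h707.TC.LfT
import Pool.Agent.R433.MD.Relation

/-! The order of an element at a prime of a Dedekind domain -/

set_option autoImplicit false
set_option linter.unusedVariables false
set_option linter.unusedSectionVars false

open scoped Classical

namespace Run7.h707.TE

open IsDedekindDomain

section dedekind
variable {R : Type} [CommRing R] [IsDedekindDomain R] (w : HeightOneSpectrum R)

/-- the order of `x` at `w` -/
noncomputable def od (x : R) : ℕ := multiplicity w.asIdeal (Ideal.span {x})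

theorem span_ne {x : R} (hx : x ≠ 0) : Ideal.span {x} ≠ (0 : Ideal R) := by
  rw [Ideal.zero_eq_bot, Ne, Ideal.span_singleton_eq_bot]
  exact hx

theorem fin_od {x : R} (hx : x ≠ 0) : FiniteMultiplicity w.asIdeal (Ideal.span {x}) :=
  FiniteMultiplicity.of_not_isUnit w.prime.not_isUnit (span_ne hx)

theorem od_mul {x y : R} (hx : x ≠ 0) (hy : y ≠ 0) : od w (x * y) = od w x + od w y := by
  unfold od
  rw [← multiplicity_mul w.prime, Ideal.span_singleton_mul_span_singleton]
  rw [Ideal.span_singleton_mul_span_singleton]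
  exact fin_od w (mul_ne_zero hx hy)

theorem od_one : od w 1 = 0 := by
  unfold od
  rw [Ideal.span_singleton_one, ← Ideal.one_eq_top]
  exact multiplicity_eq_zero.2 fun h => w.prime.not_isUnit (isUnit_of_dvd_one h)

theorem od_pow {x : R} (hx : x ≠ 0) (n : ℕ) : od w (x ^ n) = n * od w x := by
  induction n with
  | zero => rw [pow_zero, od_one, zero_mul]
  | succ n ih => rw [pow_succ, od_mul w (pow_ne_zero n hx) hx, ih, Nat.succ_mul]

theorem od_le {x : R} (hx : x ≠ 0) {n : ℕ} : n ≤ od w x ↔ x ∈ w.asIdeal ^ n := by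
  unfold od
  rw [← (fin_od w hx).pow_dvd_iff_le_multiplicity, Ideal.dvd_span_singleton]

theorem od_zero {x : R} (hx : x ≠ 0) : od w x = 0 ↔ x ∉ w.asIdeal := by
  constructor
  · intro h h'
    have := (od_le w hx (n := 1)).2 (by rwa [pow_one])
    omega
  · intro h
    by_contra h'
    exact h (by have := (od_le w hx (n := 1)).1 (by omega); rwa [pow_one] at this)

theorem od_of_notMem {x : R} (hx : x ∉ w.asIdeal) : od w x = 0 := by
  rw [od_zero w]
  · exact hx
  · rintro rfl
    exact hx (zero_mem _)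

/-- an element of order one -/
theorem ex_unif : ∃ π : R, π ≠ 0 ∧ od w π = 1 := by
  obtain ⟨π, h1, h2⟩ : ∃ π ∈ w.asIdeal, π ∉ w.asIdeal ^ 2 := by
    by_contra h
    push Not at h
    have h3 : w.asIdeal ^ 2 = w.asIdeal ^ 1 := by
      rw [pow_one]
      exact le_antisymm (Ideal.pow_le_self (by norm_num)) fun x hx => h x hx
    rw [pow_two, pow_one] at h3
    have h4 : w.asIdeal * w.asIdeal = w.asIdeal * 1 := by rw [h3, mul_one]
    have h5 := mul_left_cancel₀ w.prime.ne_zero h4
    exact w.prime.not_isUnit (h5 ▸ isUnit_one)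
  have h0 : π ≠ 0 := by
    rintro rfl
    exact h2 (zero_mem _)
  refine ⟨π, h0, ?_⟩
  have h3 := (od_le w h0 (n := 1)).2 (by rwa [pow_one])
  have h4 : ¬ 2 ≤ od w π := fun h => h2 ((od_le w h0).1 h)
  omega

/-- divisibility up to an element prime to `w` -/
theorem ex_div {x y : R} (hx : x ≠ 0) (hy : y ≠ 0) (h : od w x ≤ od w y) :
    ∃ s t : R, s ∉ w.asIdeal ∧ s * y = x * t ∧ od w y = od w x + od w t := by
  obtain ⟨A, hA⟩ := pow_multiplicity_dvd w.asIdeal (Ideal.span {x})
  have hAw : ¬ A ≤ w.asIdeal := by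
    intro hle
    obtain ⟨B, hB⟩ := Ideal.dvd_iff_le.2 hle
    have h1 : w.asIdeal ^ (od w x + 1) ∣ Ideal.span {x} := by
      rw [hA, hB, pow_succ]
      show w.asIdeal ^ od w x * w.asIdeal ∣ w.asIdeal ^ od w x * (w.asIdeal * B)
      rw [← mul_assoc]
      exact Dvd.intro B rfl
    have h2 := ((fin_od w hx).pow_dvd_iff_le_multiplicity).1 h1
    unfold od at h2
    omega
  obtain ⟨s, hsA, hs⟩ := SetLike.not_le_iff_exists.1 hAw
  have h1 : s * y ∈ Ideal.span {x} := by
    rw [hA, mul_comm s y]
    exact Ideal.mul_mem_mul ((od_le w hy).1 h) hsA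
  obtain ⟨t, ht⟩ := Ideal.mem_span_singleton.1 h1
  have hs0 : s ≠ 0 := by
    rintro rfl
    exact hs (zero_mem _)
  have ht0 : t ≠ 0 := by
    rintro rfl
    rw [mul_zero] at ht
    exact mul_ne_zero hs0 hy ht
  refine ⟨s, t, hs, ht, ?_⟩
  have h2 := congrArg (od w) ht
  rw [od_mul w hs0 hy, od_mul w hx ht0, od_of_notMem w hs, zero_add] at h2
  exact h2

end dedekind

end Run7.h707.TE
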