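import Pool.Agent.Run7.h707.TE.Lf

/-! One step of the tower: the local factors -/

set_option autoImplicit false
set_option linter.unusedVariables false
set_option linter.unusedSectionVars false
set_option linter.style.haveILetI false

open scoped Classical

namespace Run7.h707.TE

open Finset NumberField IsDedekindDomain
open Pool.Agent.H921R2.TatePole (nm two_le_nm)
open Pool.Agent.R433.MD (Fib fib_le fdeg nm_fib algFib_mk und fdeg_pos)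
open Run7.h707.TC (GoodAt)

section
variable {K : Type} [Field K] [NumberField K] {N : Type} [Field N] [NumberField N] [Algebra K N]

/-- the cube root of a model -/
theorem ex_root {b u z z' : 𝓞 K} {θ : 𝓞 N} (hθ : θ ^ 3 = algebraMap (𝓞 K) (𝓞 N) b)
    (hz' : z' ≠ 0) (h : b * z ^ 3 = u * z' ^ 3) :
    ∃ θ' : 𝓞 N, θ' ^ 3 = algebraMap (𝓞 K) (𝓞 N) u ∧
      θ' * algebraMap (𝓞 K) (𝓞 N) z' = θ * algebraMap (𝓞 K) (𝓞 N) z := by
  have hz0 : algebraMap (𝓞 K) (𝓞 N) z' ≠ 0 := alg_ne hz'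
  have hzN : ((algebraMap (𝓞 K) (𝓞 N) z' : 𝓞 N) : N) ≠ 0 := by
    rwa [Ne, RingOfIntegers.coe_eq_zero_iff]
  set t : N := ((θ * algebraMap (𝓞 K) (𝓞 N) z : 𝓞 N) : N) / ((algebraMap (𝓞 K) (𝓞 N) z' : 𝓞 N) : N)
    with ht
  have h1 : (θ * algebraMap (𝓞 K) (𝓞 N) z) ^ 3 =
      algebraMap (𝓞 K) (𝓞 N) u * (algebraMap (𝓞 K) (𝓞 N) z') ^ 3 := by
    rw [mul_pow, hθ, ← map_pow, ← map_pow, ← map_mul, ← map_mul, h]
  have h2 : t ^ 3 = ((algebraMap (𝓞 K) (𝓞 N) u : 𝓞 N) : N) := by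
    rw [ht, div_pow, div_eq_iff (pow_ne_zero 3 hzN)]
    exact_mod_cast congrArg (fun x : 𝓞 N => (x : N)) h1
  have hint : IsIntegral ℤ t := by
    refine IsIntegral.of_pow (n := 3) (by norm_num) ?_
    rw [h2]
    exact RingOfIntegers.isIntegral_coe _
  obtain ⟨θ', hθ'⟩ : ∃ θ' : 𝓞 N, (θ' : N) = t := ⟨⟨t, hint⟩, rfl⟩
  refine ⟨θ', ?_, ?_⟩
  · apply RingOfIntegers.ext
    rw [← h2, ← hθ']
    push_cast
    rfl
  · apply RingOfIntegers.ext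
    have : (θ' : N) * ((algebraMap (𝓞 K) (𝓞 N) z' : 𝓞 N) : N) =
        ((θ * algebraMap (𝓞 K) (𝓞 N) z : 𝓞 N) : N) := by
      rw [hθ', ht, div_mul_cancel₀ _ hzN]
    rw [← this]
    push_cast
    rfl

theorem exists_fib (v : HeightOneSpectrum (𝓞 K)) (h3f : Module.finrank K N = 3) :
    Nonempty (Fib N v) := by
  by_contra h
  rw [not_nonempty_iff] at h
  have h1 := sum_fib (N := N) v
  rw [Finset.univ_eq_empty, Finset.sum_empty, h3f] at h1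
  omega

/-- a place of degree one: every element is congruent to an element of `K` -/
theorem surj_one {v : HeightOneSpectrum (𝓞 K)} (w : Fib N v) (h : fdeg w = 1) (y : 𝓞 N) :
    ∃ x : 𝓞 K, y - algebraMap (𝓞 K) (𝓞 N) x ∈ w.1.asIdeal := by
  have hb : Function.Surjective (algebraMap (𝓞 K ⧸ v.asIdeal) (𝓞 N ⧸ w.1.asIdeal)) := by
    have hinj := (algebraMap (𝓞 K ⧸ v.asIdeal) (𝓞 N ⧸ w.1.asIdeal)).injective
    have hc : Nat.card (𝓞 K ⧸ v.asIdeal) = Nat.card (𝓞 N ⧸ w.1.asIdeal) := by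
      rw [card_nm, card_nm, nm_fib w, h, pow_one]
    exact ((Nat.bijective_iff_injective_and_card _).2 ⟨hinj, hc⟩).2
  obtain ⟨x, hx⟩ := hb (Ideal.Quotient.mk w.1.asIdeal y)
  obtain ⟨x, rfl⟩ := Ideal.Quotient.mk_surjective x
  refine ⟨x, ?_⟩
  rw [← Ideal.Quotient.eq_zero_iff_mem, map_sub, ← hx, algFib_mk, sub_self]

/-- the place moved by an automorphism -/
noncomputable def mv {v : HeightOneSpectrum (𝓞 K)} (τ : 𝓞 N ≃ₐ[𝓞 K] 𝓞 N) (w : Fib N v) : Fib N v :=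
  ⟨⟨w.1.asIdeal.comap (τ : 𝓞 N →+* 𝓞 N), w.1.isPrime.comap _, by
      intro h
      obtain ⟨y, hy, hy0⟩ := Submodule.exists_mem_ne_zero_of_ne_bot w.1.ne_bot
      have h1 : τ.symm y ∈ w.1.asIdeal.comap (τ : 𝓞 N →+* 𝓞 N) := by
        rw [Ideal.mem_comap]
        show τ (τ.symm y) ∈ w.1.asIdeal
        rw [τ.apply_symm_apply]
        exact hy
      rw [h, Ideal.mem_bot] at h1
      exact hy0 ((map_eq_zero_iff _ τ.symm.injective).1 h1)⟩, by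
    apply HeightOneSpectrum.ext
    have h2 := congrArg HeightOneSpectrum.asIdeal w.2
    rw [← h2]
    ext x
    show τ (algebraMap (𝓞 K) (𝓞 N) x) ∈ w.1.asIdeal ↔ algebraMap (𝓞 K) (𝓞 N) x ∈ w.1.asIdeal
    rw [τ.commutes]⟩

theorem mem_mv {v : HeightOneSpectrum (𝓞 K)} (τ : 𝓞 N ≃ₐ[𝓞 K] 𝓞 N) (w : Fib N v) (y : 𝓞 N) :
    y ∈ (mv τ w).1.asIdeal ↔ τ y ∈ w.1.asIdeal := Iff.rfl

theorem cpow_three (n : ℕ) (s : ℂ) : (((n ^ 3 : ℕ)) : ℂ) ^ s = ((n : ℂ) ^ s) ^ 3 := by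
  have h1 : ((n ^ 3 : ℕ) : ℂ) = ((n * n : ℕ) : ℂ) * (n : ℂ) := by
    push_cast
    ring
  rw [h1, Complex.natCast_mul_natCast_cpow, Nat.cast_mul, Complex.natCast_mul_natCast_cpow]
  ring

theorem mv_ne {v : HeightOneSpectrum (𝓞 K)} (τ : 𝓞 N ≃ₐ[𝓞 K] 𝓞 N) (w : Fib N v) {θ Z : 𝓞 N}
    {y : 𝓞 K} (hτ : τ θ = Z * θ) (hθ : θ ∉ w.1.asIdeal) (hZ : Z - 1 ∉ w.1.asIdeal)
    (hy : θ - algebraMap (𝓞 K) (𝓞 N) y ∈ w.1.asIdeal) : mv τ w ≠ w := by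
  intro h
  have h1 : θ - algebraMap (𝓞 K) (𝓞 N) y ∈ (mv τ w).1.asIdeal := by rw [h]; exact hy
  rw [mem_mv, map_sub, hτ, τ.commutes] at h1
  have h2 := w.1.asIdeal.sub_mem h1 hy
  have e : Z * θ - algebraMap (𝓞 K) (𝓞 N) y - (θ - algebraMap (𝓞 K) (𝓞 N) y) = (Z - 1) * θ := by
    ring
  rw [e] at h2
  exact (w.1.isPrime.mem_or_mem h2).elim hZ hθ

theorem idx (a c : ℕ) (hc : ¬ 3 ∣ c) : ∃ i : Fin 3, 3 ∣ a + i * c ∧ ∀ j : Fin 3, j ≠ i →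
    ¬ 3 ∣ a + j * c := by
  have key : ∀ a c : Fin 3, c ≠ 0 → ∃ i : Fin 3, (a.val + i.val * c.val) % 3 = 0 ∧
    ∀ j : Fin 3, j ≠ i → (a.val + j.val * c.val) % 3 ≠ 0 := by decide
  obtain ⟨i, h1, h2⟩ := key ⟨a % 3, Nat.mod_lt _ (by norm_num)⟩ ⟨c % 3, Nat.mod_lt _ (by norm_num)⟩
    (by
      intro h
      have := congrArg Fin.val h
      apply hc
      exact Nat.dvd_of_mod_eq_zero this)
  have e : ∀ j : ℕ, (a + j * c) % 3 = (a % 3 + j * (c % 3)) % 3 := by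
    intro j
    exact (Nat.mod_modEq a 3).symm.add ((Nat.ModEq.refl j).mul (Nat.mod_modEq c 3).symm)
  refine ⟨i, ?_, fun j hj h => h2 j hj ?_⟩
  · apply Nat.dvd_of_mod_eq_zero
    rw [e]
    exact h1
  · have := Nat.mod_eq_zero_of_dvd h
    rw [e] at this
    exact this

section step
variable {ω : 𝓞 K} (hω : ω ^ 2 + ω + 1 = 0) (h3f : Module.finrank K N = 3) {b : 𝓞 K}
    (hb : b ≠ 0) {θ : 𝓞 N} (hθ : θ ^ 3 = algebraMap (𝓞 K) (𝓞 N) b) (τ : 𝓞 N ≃ₐ[𝓞 K] 𝓞 N)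
    (hτ : τ θ = algebraMap (𝓞 K) (𝓞 N) ω * θ) {δ : 𝓞 K} (hδ : δ ≠ 0)
    {v : HeightOneSpectrum (𝓞 K)} (s : ℂ) (h3 : (3 : 𝓞 K) ∉ v.asIdeal) {β : 𝓞 K → ℂ} (hβ : Bt v β)

include hω h3f hb hθ hδ h3 hβ in
/-- the ramified case -/
theorem step_ram (hvb : ¬ 3 ∣ od v b) :
    ∏ w : Fib N v, lf (algebraMap (𝓞 K) (𝓞 N) δ) w.1 ((nm w.1 : ℂ) ^ s) =
      ∏ i : Fin 3, lf (δ * b ^ (i : ℕ)) v ((nm v : ℂ) ^ s) := by
  have hω' : ∃ z : K, z ^ 2 + z + 1 = 0 := ⟨ω, by exact_mod_cast congrArg (fun x : 𝓞 K => (x : K)) hω⟩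
  have hδN : algebraMap (𝓞 K) (𝓞 N) δ ≠ 0 := alg_ne hδ
  have hθ0 : θ ≠ 0 := by
    rintro rfl
    rw [zero_pow three_ne_zero] at hθ
    exact alg_ne hb hθ.symm
  have hδi : ∀ i : Fin 3, δ * b ^ (i : ℕ) ≠ 0 := fun i => mul_ne_zero hδ (pow_ne_zero _ hb)
  have hodi : ∀ i : Fin 3, od v (δ * b ^ (i : ℕ)) = od v δ + i * od v b := fun i => by
    rw [od_mul v hδ (pow_ne_zero _ hb), od_pow v hb]
  obtain ⟨w₀⟩ := exists_fib v h3f
  have h1 : 3 * od w₀.1 θ = ram w₀ * od v b := by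
    rw [← od_pow w₀.1 hθ0, hθ, od_fib w₀ hb]
  have h2 : 3 ∣ ram w₀ := ((Nat.prime_three.dvd_mul).1 (Dvd.intro _ h1)).resolve_right hvb
  have hr3 : 3 ≤ ram w₀ := Nat.le_of_dvd (ram_pos w₀) h2
  obtain ⟨huni, hef⟩ := one_fib h3f w₀ (by
    have := fdeg_pos w₀
    nlinarith)
  have hf : fdeg w₀ = 1 := by
    have := fdeg_pos w₀
    nlinarith
  have hnm : nm w₀.1 = nm v := by rw [nm_fib w₀, hf, pow_one]
  obtain ⟨i, hi, hj⟩ := idx (od v δ) (od v b) hvb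
  rw [Fintype.prod_eq_single w₀ fun w hw => absurd (huni w) hw,
    Fintype.prod_eq_single i fun j hji => lf_bad (hδi j) (by rw [hodi]; exact hj j hji) _]
  obtain ⟨r, z, z', hz, hr, h⟩ := (good_iff (hδi i) v).2 (by rw [hodi]; exact hi)
  rw [lf_val h3 hβ (hδi i) hr hz h, lf_fib hω' h3 hβ w₀ (z := algebraMap (𝓞 K) (𝓞 N) z * θ ^ (i : ℕ))
    (z' := algebraMap (𝓞 K) (𝓞 N) z') hδN hr
    (mul_ne_zero (alg_ne hz) (pow_ne_zero _ hθ0)) ?_, hf, pow_one, pow_one, hnm]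
  have h5 := congrArg (algebraMap (𝓞 K) (𝓞 N)) h
  rw [map_mul, map_mul, map_mul, map_pow, map_pow, map_pow, ← hθ] at h5
  rw [← h5, mul_pow, ← pow_mul, ← pow_mul, mul_comm (i : ℕ) 3]
  ring

include hω h3f hb hδ h3 hβ in
/-- the inert case -/
theorem step_inert {u z z' : 𝓞 K} (hz : z ≠ 0) (hu : u ∉ v.asIdeal) (hbz : b * z ^ 3 = u * z' ^ 3)
    {θ' : 𝓞 N} (hθ' : θ' ^ 3 = algebraMap (𝓞 K) (𝓞 N) u)
    (hnc : ¬ ∃ x : 𝓞 K, x ^ 3 - u ∈ v.asIdeal) :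
    ∏ w : Fib N v, lf (algebraMap (𝓞 K) (𝓞 N) δ) w.1 ((nm w.1 : ℂ) ^ s) =
      ∏ i : Fin 3, lf (δ * b ^ (i : ℕ)) v ((nm v : ℂ) ^ s) := by
  have hω' : ∃ z : K, z ^ 2 + z + 1 = 0 := ⟨ω, by exact_mod_cast congrArg (fun x : 𝓞 K => (x : K)) hω⟩
  have hδN : algebraMap (𝓞 K) (𝓞 N) δ ≠ 0 := alg_ne hδ
  have hδi : ∀ i : Fin 3, δ * b ^ (i : ℕ) ≠ 0 := fun i => mul_ne_zero hδ (pow_ne_zero _ hb)
  have hodb : 3 ∣ od v b := (good_iff hb v).1 ⟨u, z, z', hz, hu, hbz⟩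
  have hodi : ∀ i : Fin 3, od v (δ * b ^ (i : ℕ)) = od v δ + i * od v b := fun i => by
    rw [od_mul v hδ (pow_ne_zero _ hb), od_pow v hb]
  obtain ⟨w₀⟩ := exists_fib v h3f
  have hf1 : ∀ w : Fib N v, fdeg w ≠ 1 := by
    intro w hw
    obtain ⟨x, hx⟩ := surj_one w hw θ'
    apply hnc
    refine ⟨x, ?_⟩
    rw [← mem_fib w, map_sub, map_pow, ← hθ']
    have e : algebraMap (𝓞 K) (𝓞 N) x ^ 3 - θ' ^ 3 = (θ' - algebraMap (𝓞 K) (𝓞 N) x) *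
        (-(θ' ^ 2 + θ' * algebraMap (𝓞 K) (𝓞 N) x + algebraMap (𝓞 K) (𝓞 N) x ^ 2)) := by ring
    rw [e]
    exact Ideal.mul_mem_right _ _ hx
  have hef3 : 3 ≤ ram w₀ * fdeg w₀ := by
    by_contra hlt
    have h1 := sum_fib (N := N) v
    rw [h3f, ← Finset.add_sum_erase univ _ (mem_univ w₀)] at h1
    have h2 := ram_pos w₀
    have h4 := fdeg_pos w₀
    have h5 := hf1 w₀
    have h6 : ram w₀ * fdeg w₀ = 2 := by
      have : 2 ≤ fdeg w₀ := by omega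
      nlinarith
    rw [h6] at h1
    have h7 : (univ.erase w₀).Nonempty := by
      by_contra h8
      rw [not_nonempty_iff_eq_empty] at h8
      rw [h8, Finset.sum_empty] at h1
      omega
    obtain ⟨w', hw'⟩ := h7
    have h8 : ram w' * fdeg w' ≤ ∑ x ∈ univ.erase w₀, ram x * fdeg x :=
      Finset.single_le_sum (f := fun x : Fib N v => ram x * fdeg x) (fun _ _ => Nat.zero_le _) hw'
    have h9 : ram w' * fdeg w' = 1 := by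
      have : 0 < ram w' * fdeg w' := Nat.mul_pos (ram_pos _) (fdeg_pos _)
      omega
    exact hf1 w' (Nat.eq_one_of_mul_eq_one_left h9)
  obtain ⟨huni, hef⟩ := one_fib h3f w₀ hef3
  have hf : fdeg w₀ = 3 :=
    ((Nat.dvd_prime Nat.prime_three).1 (Dvd.intro_left _ hef)).resolve_left (hf1 w₀)
  have hram : ram w₀ = 1 := by
    rw [hf] at hef
    omega
  have hnm : nm w₀.1 = nm v ^ 3 := by rw [nm_fib w₀, hf]
  rw [Fintype.prod_eq_single w₀ fun w hw => absurd (huni w) hw]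
  by_cases hvδ : 3 ∣ od v δ
  · obtain ⟨r, y, y', hy, hr, h⟩ := (good_iff hδ v).2 hvδ
    have hu0 : u ≠ 0 := by
      rintro rfl
      exact hu (zero_mem _)
    have hru : ∀ i : ℕ, r * u ^ i ∉ v.asIdeal := fun i h' =>
      (v.isPrime.mem_or_mem h').elim hr fun h'' => hu (v.isPrime.mem_of_pow_mem _ h'')
    have hrel : ∀ i : ℕ, (δ * b ^ i) * (y * z ^ i) ^ 3 = (r * u ^ i) * (y' * z' ^ i) ^ 3 := by
      intro i
      calc (δ * b ^ i) * (y * z ^ i) ^ 3 = (δ * y ^ 3) * (b * z ^ 3) ^ i := by ring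
        _ = _ := by rw [h, hbz]; ring
    have hyz : ∀ i : ℕ, y * z ^ i ≠ 0 := fun i => mul_ne_zero hy (pow_ne_zero _ hz)
    obtain ⟨ζ, hζ1, hζ2, hζ⟩ := hβ.chi u hu hnc
    have hval : ∀ i : Fin 3, lf (δ * b ^ (i : ℕ)) v ((nm v : ℂ) ^ s) =
        (1 - (β (r * u ^ (i : ℕ)) + (starRingEnd ℂ) (β (r * u ^ (i : ℕ)))) * ((nm v : ℂ) ^ s) +
          (nm v : ℂ) * ((nm v : ℂ) ^ s) ^ 2)⁻¹ := fun i =>
      lf_val h3 hβ (hδi i) (hru i) (hyz i) (hrel i) _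
    rw [Fin.prod_univ_three, hval, hval, hval, ← mul_inv, ← mul_inv, mul_assoc]
    have e0 : β (r * u ^ ((0 : Fin 3) : ℕ)) = β r := by
      show β (r * u ^ 0) = _
      rw [pow_zero, mul_one]
    have e1 : β (r * u ^ ((1 : Fin 3) : ℕ)) = ζ * β r := by
      show β (r * u ^ 1) = _
      rw [pow_one, hζ]
    have e2 : β (r * u ^ ((2 : Fin 3) : ℕ)) = ζ ^ 2 * β r := by
      show β (r * u ^ 2) = _
      rw [pow_two, ← mul_assoc, hζ, hζ]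
      ring
    rw [e0, e1, e2, three_fac hζ1 hζ2 _ (hβ.nrm r hr)]
    rw [lf_fib hω' h3 hβ w₀ (z := algebraMap (𝓞 K) (𝓞 N) y) (z' := algebraMap (𝓞 K) (𝓞 N) y')
      hδN hr (alg_ne hy) (by rw [← map_pow, ← map_mul, h, map_mul, map_pow]), hf, hnm, cpow_three]
    push_cast
    rfl
  · rw [lf_bad hδN (by rw [od_fib w₀ hδ, hram, one_mul]; exact hvδ),
      Finset.prod_eq_one fun i _ => lf_bad (hδi i) ?_ _]
    rw [hodi, (Nat.dvd_add_iff_left (hodb.mul_left _)).symm]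
    exact hvδ

include hω h3f hb hδ h3 hβ in
/-- the split case -/
theorem step_split {u z z' : 𝓞 K} (hz : z ≠ 0) (hu : u ∉ v.asIdeal) (hbz : b * z ^ 3 = u * z' ^ 3)
    {θ' : 𝓞 N} (hθ' : θ' ^ 3 = algebraMap (𝓞 K) (𝓞 N) u)
    (hτ' : τ θ' = algebraMap (𝓞 K) (𝓞 N) ω * θ')
    {x : 𝓞 K} (hx : x ^ 3 - u ∈ v.asIdeal) :
    ∏ w : Fib N v, lf (algebraMap (𝓞 K) (𝓞 N) δ) w.1 ((nm w.1 : ℂ) ^ s) =
      ∏ i : Fin 3, lf (δ * b ^ (i : ℕ)) v ((nm v : ℂ) ^ s) := by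
  have hω' : ∃ z : K, z ^ 2 + z + 1 = 0 := ⟨ω, by exact_mod_cast congrArg (fun x : 𝓞 K => (x : K)) hω⟩
  have hδN : algebraMap (𝓞 K) (𝓞 N) δ ≠ 0 := alg_ne hδ
  have hδi : ∀ i : Fin 3, δ * b ^ (i : ℕ) ≠ 0 := fun i => mul_ne_zero hδ (pow_ne_zero _ hb)
  have hodb : 3 ∣ od v b := (good_iff hb v).1 ⟨u, z, z', hz, hu, hbz⟩
  have hodi : ∀ i : Fin 3, od v (δ * b ^ (i : ℕ)) = od v δ + i * od v b := fun i => by
    rw [od_mul v hδ (pow_ne_zero _ hb), od_pow v hb]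
  obtain ⟨w₀⟩ := exists_fib v h3f
  have hxv : x ∉ v.asIdeal := by
    intro h
    apply hu
    have := (v.asIdeal).sub_mem (Ideal.pow_mem_of_mem _ h 3 (by norm_num)) hx
    rwa [sub_sub_cancel] at this
  have huw : ∀ w : Fib N v, θ' ∉ w.1.asIdeal := by
    intro w h
    apply hu
    rw [← mem_fib w, ← hθ']
    exact Ideal.pow_mem_of_mem _ h 3 (by norm_num)
  obtain ⟨Z, hZ⟩ : ∃ Z, Z = algebraMap (𝓞 K) (𝓞 N) ω := ⟨_, rfl⟩
  obtain ⟨X, hX⟩ : ∃ X, X = algebraMap (𝓞 K) (𝓞 N) x := ⟨_, rfl⟩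
  have hZ1 : Z ^ 2 + Z + 1 = 0 := by
    rw [hZ, ← map_pow, ← map_add, ← map_one (algebraMap (𝓞 K) (𝓞 N)), ← map_add, hω, map_zero]
  have hZ3 : Z ^ 3 = 1 := by linear_combination (Z - 1) * hZ1
  have h3w : ∀ w : Fib N v, (3 : 𝓞 N) ∉ w.1.asIdeal := three_notMem h3
  have hZm : ∀ w : Fib N v, Z - 1 ∉ w.1.asIdeal := by
    intro w h
    apply h3w w
    have e : (3 : 𝓞 N) = (Z - 1) * (Z ^ 2 - 1) := by
      linear_combination (-(Z - 2)) * hZ1 - 0 * hZ3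
    rw [e]
    exact Ideal.mul_mem_right _ _ h
  have hZm2 : ∀ w : Fib N v, Z ^ 2 - 1 ∉ w.1.asIdeal := by
    intro w h
    apply h3w w
    have e : (3 : 𝓞 N) = (Z - 1) * (Z ^ 2 - 1) := by
      linear_combination (-(Z - 2)) * hZ1 - 0 * hZ3
    rw [e]
    exact Ideal.mul_mem_left _ _ h
  have hex : ∀ w : Fib N v, ∃ y : 𝓞 K, θ' - algebraMap (𝓞 K) (𝓞 N) y ∈ w.1.asIdeal := by
    intro w
    have h1 : (θ' - X) * ((θ' - Z * X) * (θ' - Z ^ 2 * X)) =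
        -(algebraMap (𝓞 K) (𝓞 N) (x ^ 3 - u)) := by
      rw [map_sub, map_pow, ← hθ', ← hX]
      linear_combination (-θ' ^ 2 * X + Z * θ' * X ^ 2) * hZ1 - X ^ 3 * hZ3
    have h2 : (θ' - X) * ((θ' - Z * X) * (θ' - Z ^ 2 * X)) ∈ w.1.asIdeal := by
      rw [h1]
      exact neg_mem ((mem_fib w _).2 hx)
    rcases w.1.isPrime.mem_or_mem h2 with h | h
    · exact ⟨x, by rw [← hX]; exact h⟩
    · rcases w.1.isPrime.mem_or_mem h with h | h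
      · exact ⟨ω * x, by rw [map_mul, ← hX, ← hZ]; exact h⟩
      · exact ⟨ω ^ 2 * x, by rw [map_mul, map_pow, ← hX, ← hZ]; exact h⟩
  rw [← hZ] at hτ'
  have hττ : (τ.trans τ) θ' = Z ^ 2 * θ' := by
    show τ (τ θ') = _
    rw [hτ', map_mul, hτ', hZ, τ.commutes]
    ring
  have n1 : mv τ w₀ ≠ w₀ := by
    obtain ⟨y, hy⟩ := hex w₀
    exact mv_ne τ w₀ hτ' (huw w₀) (hZm w₀) hy
  have n2 : mv (τ.trans τ) w₀ ≠ w₀ := by
    obtain ⟨y, hy⟩ := hex w₀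
    exact mv_ne (τ.trans τ) w₀ hττ (huw w₀) (hZm2 w₀) hy
  have n3 : mv (τ.trans τ) w₀ ≠ mv τ w₀ := by
    obtain ⟨y, hy⟩ := hex (mv τ w₀)
    have h1 : mv (τ.trans τ) w₀ = mv τ (mv τ w₀) := by
      apply Subtype.ext
      apply HeightOneSpectrum.ext
      ext y
      rw [mem_mv, mem_mv, mem_mv]
      rfl
    rw [h1]
    exact mv_ne τ (mv τ w₀) hτ' (huw _) (hZm _) hy
  obtain ⟨hbij, hefi⟩ := three_fib h3f ![w₀, mv τ w₀, mv (τ.trans τ) w₀] (by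
    intro i j hij
    fin_cases i <;> fin_cases j
    · rfl
    · exact absurd hij.symm n1
    · exact absurd hij.symm n2
    · exact absurd hij n1
    · rfl
    · exact absurd hij.symm n3
    · exact absurd hij n2
    · exact absurd hij n3
    · rfl)
  rw [← hbij.prod_comp fun w : Fib N v => lf (algebraMap (𝓞 K) (𝓞 N) δ) w.1 ((nm w.1 : ℂ) ^ s)]
  refine Finset.prod_congr rfl fun i _ => ?_
  obtain ⟨w, hw⟩ : ∃ w, w = ![w₀, mv τ w₀, mv (τ.trans τ) w₀] i := ⟨_, rfl⟩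
  have hwi := hefi i
  rw [← hw] at hwi ⊢
  obtain ⟨hram, hf⟩ := hwi
  have hnm : nm w.1 = nm v := by rw [nm_fib w, hf, pow_one]
  by_cases hvδ : 3 ∣ od v δ
  · obtain ⟨r, y, y', hy, hr, h⟩ := (good_iff hδ v).2 hvδ
    have hrel : (δ * b ^ (i : ℕ)) * (y * z ^ (i : ℕ)) ^ 3 =
        (r * u ^ (i : ℕ)) * (y' * z' ^ (i : ℕ)) ^ 3 := by
      calc (δ * b ^ (i : ℕ)) * (y * z ^ (i : ℕ)) ^ 3 = (δ * y ^ 3) * (b * z ^ 3) ^ (i : ℕ) := by ring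
        _ = _ := by rw [h, hbz]; ring
    have hru : r * u ^ (i : ℕ) ∉ v.asIdeal := fun h' =>
      (v.isPrime.mem_or_mem h').elim hr fun h'' => hu (v.isPrime.mem_of_pow_mem _ h'')
    rw [lf_val h3 hβ (hδi i) hru (mul_ne_zero hy (pow_ne_zero _ hz)) hrel,
      lf_fib hω' h3 hβ w (z := algebraMap (𝓞 K) (𝓞 N) y) (z' := algebraMap (𝓞 K) (𝓞 N) y')
      hδN hr (alg_ne hy) (by rw [← map_pow, ← map_mul, h, map_mul, map_pow]), hf, hnm, pow_one,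
      pow_one]
    have hbu : β (r * u ^ (i : ℕ)) = β r := by
      have e1 : Ideal.Quotient.mk v.asIdeal (r * u ^ (i : ℕ)) =
          Ideal.Quotient.mk v.asIdeal (r * (x ^ (i : ℕ)) ^ 3) := by
        have e2 : Ideal.Quotient.mk v.asIdeal u = Ideal.Quotient.mk v.asIdeal (x ^ 3) := by
          rw [eq_comm, Ideal.Quotient.mk_eq_mk_iff_sub_mem]
          exact hx
        rw [map_mul, map_pow, e2, map_mul, ← map_pow, ← pow_mul, ← pow_mul, mul_comm 3]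
      rw [hβ.res _ _ e1, hβ.cube r _ fun h' => hxv (v.isPrime.mem_of_pow_mem _ h')]
    rw [hbu]
  · rw [lf_bad hδN (by rw [od_fib w hδ, hram, one_mul]; exact hvδ),
      lf_bad (hδi i) ?_ _]
    rw [hodi, (Nat.dvd_add_iff_left (hodb.mul_left _)).symm]
    exact hvδ

end step

/-- **One step of the tower: the local factors.** -/
theorem step_loc {ω : 𝓞 K} (hω : ω ^ 2 + ω + 1 = 0) (h3f : Module.finrank K N = 3) {b : 𝓞 K}
    (hb : b ≠ 0) {θ : 𝓞 N} (hθ : θ ^ 3 = algebraMap (𝓞 K) (𝓞 N) b) (τ : 𝓞 N ≃ₐ[𝓞 K] 𝓞 N)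
    (hτ : τ θ = algebraMap (𝓞 K) (𝓞 N) ω * θ) {δ : 𝓞 K} (hδ : δ ≠ 0)
    (v : HeightOneSpectrum (𝓞 K)) (s : ℂ) :
    ∏ w : Fib N v, lf (algebraMap (𝓞 K) (𝓞 N) δ) w.1 ((nm w.1 : ℂ) ^ s) =
      ∏ i : Fin 3, lf (δ * b ^ (i : ℕ)) v ((nm v : ℂ) ^ s) := by
  have hω' : ∃ z : K, z ^ 2 + z + 1 = 0 := ⟨ω, by exact_mod_cast congrArg (fun x : 𝓞 K => (x : K)) hω⟩
  by_cases h3 : (3 : 𝓞 K) ∈ v.asIdeal
  · rw [Finset.prod_eq_one fun w _ => ?_, Finset.prod_eq_one fun i _ => lf_three h3 _ _]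
    refine lf_three ?_ _ _
    have := (mem_fib w (3 : 𝓞 K)).2 h3
    rwa [map_ofNat] at this
  obtain ⟨β, hβ⟩ := ex_Bt v h3 hω'
  by_cases hvb : 3 ∣ od v b
  · obtain ⟨u, z, z', hz, hu, hbz⟩ := (good_iff hb v).2 hvb
    have hz' : z' ≠ 0 := by
      rintro rfl
      rw [zero_pow three_ne_zero, mul_zero] at hbz
      exact mul_ne_zero hb (pow_ne_zero 3 hz) hbz
    obtain ⟨θ', hθ', hrel⟩ := ex_root hθ hz' hbz
    have hτ' : τ θ' = algebraMap (𝓞 K) (𝓞 N) ω * θ' := by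
      have h1 := congrArg τ hrel
      rw [map_mul, map_mul, τ.commutes, τ.commutes, hτ] at h1
      apply mul_right_cancel₀ (alg_ne (N := N) hz')
      rw [h1, mul_assoc, ← hrel, mul_assoc]
    by_cases hcu : ∃ x : 𝓞 K, x ^ 3 - u ∈ v.asIdeal
    · obtain ⟨x, hx⟩ := hcu
      exact step_split hω h3f hb τ hδ s h3 hβ hz hu hbz hθ' hτ' hx
    · exact step_inert hω h3f hb hδ s h3 hβ hz hu hbz hθ' hcu
  · exact step_ram hω h3f hb hθ hδ s h3 hβ hvb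

end

end Run7.h707.TE
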