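import Pool.Agent.Run7.h707.TE.Glob

/-! Towers of cubic Kummer extensions -/

set_option autoImplicit false
set_option linter.unusedVariables false
set_option linter.unusedSectionVars false
set_option linter.style.haveILetI false

open scoped Classical

namespace Run7.h707.TE

open Finset NumberField IsDedekindDomain Polynomial IntermediateField
open Pool.Agent.H921R2.TatePole (nm)

section kummer
variable {K : Type} [Field K] [CharZero K] {N : Type} [Field N] [Algebra K N]

/-- **Kummer's lemma**: an element of `K` that becomes a cube in `K(∛b)` is a cube times a power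
of `b`. -/
theorem kum {ω : K} (hω : ω ^ 2 + ω + 1 = 0) {b : K} (hb : b ≠ 0) {θ : N}
    (hθ : θ ^ 3 = algebraMap K N b) (hgen : ∀ y : N, ∃ f : K[X], y = aeval θ f) (τ : N ≃ₐ[K] N)
    (hτ : τ θ = algebraMap K N ω * θ) {x : K} (hx : x ≠ 0) {y : N}
    (hy : y ^ 3 = algebraMap K N x) :
    ∃ m : ZMod 3, ∃ z : K, z ^ 3 = b ^ m.val * x := by
  have : CharZero N := charZero_of_injective_algebraMap (algebraMap K N).injective
  set z : N := algebraMap K N ω with hz
  have hz1 : z ^ 2 + z + 1 = 0 := by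
    rw [hz, ← map_pow, ← map_add, ← map_one (algebraMap K N), ← map_add, hω, map_zero]
  have hz3 : z ^ 3 = 1 := by linear_combination (z - 1) * hz1
  have hθ0 : θ ≠ 0 := by
    rintro rfl
    rw [zero_pow (by norm_num)] at hθ
    exact hb ((map_eq_zero _).1 hθ.symm)
  have hy0 : y ≠ 0 := by
    rintro rfl
    rw [zero_pow (by norm_num)] at hy
    exact hx ((map_eq_zero _).1 hy.symm)
  have hτz : τ z = z := τ.commutes ω
  -- the projection
  have hS : ∀ f : K[X], ∃ c : K, aeval θ f + τ (aeval θ f) + τ (τ (aeval θ f)) =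
      algebraMap K N c := by
    intro f
    induction f using Polynomial.induction_on' with
    | add p q hp hq =>
      obtain ⟨c, hc⟩ := hp
      obtain ⟨d, hd⟩ := hq
      refine ⟨c + d, ?_⟩
      rw [map_add (algebraMap K N), ← hc, ← hd]
      simp only [map_add]
      ring
    | monomial n a =>
      have e1 : aeval θ (monomial n a) = algebraMap K N a * θ ^ n := by
        rw [aeval_monomial]
      have e2 : τ (aeval θ (monomial n a)) = algebraMap K N a * (z ^ n * θ ^ n) := by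
        rw [e1, map_mul, τ.commutes, map_pow, hτ, mul_pow]
      have e3 : τ (τ (aeval θ (monomial n a))) = algebraMap K N a * (z ^ n * (z ^ n * θ ^ n)) := by
        rw [e2, map_mul, τ.commutes, map_mul, map_pow, map_pow, hτz, hτ, mul_pow]
      rw [e3, e2, e1]
      obtain ⟨q, r, hr, rfl⟩ : ∃ q r : ℕ, r < 3 ∧ n = 3 * q + r := ⟨n / 3, n % 3,
        Nat.mod_lt _ (by norm_num), by omega⟩
      have e4 : z ^ (3 * q + r) = z ^ r := by rw [pow_add, pow_mul, hz3, one_pow, one_mul]
      have e5 : θ ^ (3 * q + r) = algebraMap K N (b ^ q) * θ ^ r := by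
        rw [pow_add, pow_mul, hθ, map_pow]
      rw [e4, e5]
      interval_cases r
      · refine ⟨3 * (a * b ^ q), ?_⟩
        rw [map_mul, map_mul, map_ofNat]
        ring
      · refine ⟨0, ?_⟩
        rw [map_zero]
        linear_combination (algebraMap K N a * (algebraMap K N (b ^ q) * θ)) * hz1
      · refine ⟨0, ?_⟩
        rw [map_zero]
        linear_combination (algebraMap K N a * (algebraMap K N (b ^ q) * θ ^ 2)) *
          (z ^ 2 - z + 1) * hz1
  have hfix : ∀ u : N, τ u = u → ∃ c : K, u = algebraMap K N c := by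
    intro u hu
    obtain ⟨f, hf⟩ := hgen u
    obtain ⟨c, hc⟩ := hS f
    rw [← hf, hu, hu] at hc
    refine ⟨c / 3, ?_⟩
    rw [map_div₀, map_ofNat, ← hc]
    field_simp
    ring
  -- `τ` acts on `y` by a cube root of unity
  have h1 : (τ y - y) * ((τ y - z * y) * (τ y - z ^ 2 * y)) = 0 := by
    have h2 : (τ y) ^ 3 = y ^ 3 := by
      rw [← map_pow, hy, τ.commutes]
    linear_combination h2 + (τ y * y ^ 2 - (τ y) ^ 2 * y) * hz1 + (τ y * y ^ 2 - y ^ 3) * hz3
  have key : ∀ m : ZMod 3, τ y * z ^ m.val = y → ∃ m : ZMod 3, ∃ z : K, z ^ 3 = b ^ m.val * x := by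
    intro m hm
    obtain ⟨c, hc⟩ := hfix (θ ^ m.val * y) (by
      rw [map_mul, map_pow, hτ, mul_pow]
      linear_combination θ ^ m.val * hm)
    refine ⟨m, c, (algebraMap K N).injective ?_⟩
    rw [map_pow, ← hc, map_mul, mul_pow, hy, map_pow, ← hθ]
    ring
  rcases mul_eq_zero.1 h1 with h | h
  · exact key 0 (by rw [ZMod.val_zero, pow_zero, mul_one]; exact sub_eq_zero.1 h)
  · rcases mul_eq_zero.1 h with h | h
    · refine key 2 ?_
      have : (2 : ZMod 3).val = 2 := rfl
      rw [this]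
      linear_combination z ^ 2 * h + y * hz3
    · refine key 1 ?_
      have : (1 : ZMod 3).val = 1 := rfl
      rw [this, pow_one]
      linear_combination z * h + y * hz3

/-- the field generated by a cube root -/
theorem ex_step {F : Type} [Field F] [Algebra K F] {ω : K} (hω : ω ^ 2 + ω + 1 = 0) {b : K}
    (hb : ∀ y : K, y ^ 3 ≠ b) {θ : F} (hθ : θ ^ 3 = algebraMap K F b) :
    FiniteDimensional K K⟮θ⟯ ∧ Module.finrank K K⟮θ⟯ = 3 ∧
    (∀ y : K⟮θ⟯, ∃ f : K[X], y = aeval (AdjoinSimple.gen K θ) f) ∧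
    ∃ τ : K⟮θ⟯ ≃ₐ[K] K⟮θ⟯,
      τ (AdjoinSimple.gen K θ) = algebraMap K K⟮θ⟯ ω * AdjoinSimple.gen K θ := by
  have hirr : Irreducible (X ^ 3 - C b : K[X]) := X_pow_sub_C_irreducible_of_prime Nat.prime_three hb
  have hmon : (X ^ 3 - C b : K[X]).Monic := monic_X_pow_sub_C b (by norm_num)
  have hint : IsIntegral K θ := ⟨X ^ 3 - C b, hmon, by
    rw [eval₂_sub, eval₂_pow, eval₂_X, eval₂_C, hθ, sub_self]⟩
  have hmin : minpoly K θ = X ^ 3 - C b := by
    refine (minpoly.eq_of_irreducible_of_monic hirr ?_ hmon).symm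
    rw [map_sub, map_pow, aeval_X, aeval_C, hθ, sub_self]
  have hfd : FiniteDimensional K K⟮θ⟯ := adjoin.finiteDimensional hint
  refine ⟨hfd, ?_, ?_, ?_⟩
  · rw [adjoin.finrank hint, hmin, natDegree_X_pow_sub_C]
  · intro y
    exact (adjoin.powerBasis hint).exists_eq_aeval' y
  · have hgen3 : (AdjoinSimple.gen K θ) ^ 3 = algebraMap K K⟮θ⟯ b := by
      apply Subtype.ext
      rw [SubmonoidClass.coe_pow, AdjoinSimple.coe_gen, hθ]
      rfl
    have hω3 : ω ^ 3 = 1 := by linear_combination (ω - 1) * hω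
    have h1 : aeval (algebraMap K K⟮θ⟯ ω * AdjoinSimple.gen K θ)
        (minpoly K (adjoin.powerBasis hint).gen) = 0 := by
      rw [adjoin.powerBasis_gen, minpoly_gen, hmin, map_sub, map_pow, aeval_X, aeval_C, mul_pow,
        ← map_pow, hω3, map_one, one_mul, hgen3, sub_self]
    have h2 := PowerBasis.lift_gen (adjoin.powerBasis hint) _ h1
    rw [adjoin.powerBasis_gen] at h2
    refine ⟨AlgEquiv.ofBijective _ (AlgHom.bijective ((adjoin.powerBasis hint).lift _ h1)), ?_⟩
    rw [AlgEquiv.coe_ofBijective]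
    exact h2

theorem ex_step' {F : Type} [Field F] [Algebra K F] {ω : K} (hω : ω ^ 2 + ω + 1 = 0) {b : K}
    (hb : ∀ y : K, y ^ 3 ≠ b) {θ : F} (hθ : θ ^ 3 = algebraMap K F b) :
    ∃ N : IntermediateField K F, FiniteDimensional K N ∧ Module.finrank K N = 3 ∧
    ∃ g : N, algebraMap N F g = θ ∧ g ^ 3 = algebraMap K N b ∧
      (∀ y : N, ∃ f : K[X], y = aeval g f) ∧
      ∃ τ : N ≃ₐ[K] N, τ g = algebraMap K N ω * g := by
  obtain ⟨hfd, h3f, hpb, τ, hτ⟩ := ex_step (F := F) hω hb hθ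
  refine ⟨K⟮θ⟯, hfd, h3f, AdjoinSimple.gen K θ, AdjoinSimple.algebraMap_gen K θ, ?_, hpb, τ, hτ⟩
  apply Subtype.ext
  rw [SubmonoidClass.coe_pow, AdjoinSimple.coe_gen, hθ]
  rfl

end kummer

section tower

theorem coe_pw {K : Type} [Field K] (x : 𝓞 K) (n : ℕ) : ((x ^ n : 𝓞 K) : K) = (x : K) ^ n := rfl

theorem coe_ml {K : Type} [Field K] (x y : 𝓞 K) : ((x * y : 𝓞 K) : K) = (x : K) * (y : K) := rfl

theorem tower (r : ℕ) : ∀ (K F : Type) [Field K] [NumberField K] [Field F] [NumberField F]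
    [Algebra K F] (ω : 𝓞 K) (hω : ω ^ 2 + ω + 1 = 0) (β : Fin r → 𝓞 K) (hβ : ∀ i, β i ≠ 0)
    (hind : ∀ ν : Fin r → ZMod 3, ν ≠ 0 → ∀ y : K, y ^ 3 ≠ ∏ i, (β i : K) ^ (ν i).val)
    (θ : Fin r → 𝓞 F) (hθ : ∀ i, θ i ^ 3 = algebraMap (𝓞 K) (𝓞 F) (β i))
    (hgen : ∀ S : Subfield F, (∀ k : K, algebraMap K F k ∈ S) → (∀ i, (θ i : F) ∈ S) → S = ⊤),
    Module.finrank K F = 3 ^ r ∧
    ∀ (δ : 𝓞 K) (hδ : δ ≠ 0) (s : ℂ) (hs : 3 / 2 < s.re) (L : (Fin r → ZMod 3) → ℂ)
      (hL : ∀ ν : Fin r → ZMod 3, HasProd (fun v : HeightOneSpectrum (𝓞 K) =>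
        lf (δ * ∏ i, β i ^ (ν i).val) v ((nm v : ℂ) ^ (-s))) (L ν)),
      HasProd (fun w : HeightOneSpectrum (𝓞 F) =>
        lf (algebraMap (𝓞 K) (𝓞 F) δ) w ((nm w : ℂ) ^ (-s))) (∏ ν, L ν) := by
  induction r with
  | zero =>
    intro K F _ _ _ _ _ ω hω β hβ hind θ hθ hgen
    have h1 : Module.finrank K F = 1 := by
      have h2 := hgen (algebraMap K F).fieldRange (fun k => ⟨k, rfl⟩) (fun i => i.elim0)
      have h3 : Function.Surjective (algebraMap K F) := fun y => by
        have : y ∈ (algebraMap K F).fieldRange := by rw [h2]; trivial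
        exact this
      exact finrank_eq_one_iff_of_nonzero' (1 : F) one_ne_zero |>.2 fun w => by
        obtain ⟨c, hc⟩ := h3 w
        exact ⟨c, by rw [Algebra.smul_def, mul_one, hc]⟩
    refine ⟨by rw [h1, pow_zero], ?_⟩
    intro δ hδ s hs L hL
    have h2 := hL default
    rw [Finset.univ_eq_empty, Finset.prod_empty, mul_one] at h2
    rw [Fintype.prod_subsingleton _ (default : Fin 0 → ZMod 3)]
    exact triv_glob hω h1 hδ hs h2
  | succ r ih =>
    intro K F _ _ _ _ _ ω hω β hβ hind θ hθ hgen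
    have hωK : (ω : K) ^ 2 + (ω : K) + 1 = 0 := by
      exact_mod_cast congrArg (fun x : 𝓞 K => (x : K)) hω
    have hb0 : ∀ y : K, y ^ 3 ≠ (β 0 : K) := by
      intro y hy
      refine hind (Pi.single 0 1) (fun h => ?_) y ?_
      · have := congrFun h 0
        rw [Pi.single_eq_same] at this
        exact one_ne_zero this
      · rw [Fin.prod_univ_succ, Pi.single_eq_same, ZMod.val_one, pow_one, Finset.prod_eq_one, mul_one,
          hy]
        intro i _
        rw [Pi.single_eq_of_ne (Fin.succ_ne_zero i), ZMod.val_zero, pow_zero]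
    have hθK : ∀ i, (θ i : F) ^ 3 = algebraMap K F (β i) := by
      intro i
      have := congrArg (fun x : 𝓞 F => (x : F)) (hθ i)
      exact this
    have hbK0 : (β 0 : K) ≠ 0 := fun h => hβ 0 (RingOfIntegers.ext h)
    obtain ⟨N, hfd, h3f, gN, hgF, hg3, hpb, τ, hτ⟩ := ex_step' (F := F) hωK hb0 (hθK 0)
    have hNF : NumberField N := NumberField.of_module_finite K N
    -- the generator
    have hgint : IsIntegral ℤ gN := by
      refine IsIntegral.of_pow (n := 3) (by norm_num) ?_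
      rw [hg3]
      exact ((β 0).isIntegral_coe).map (algebraMap K N).toIntAlgHom
    obtain ⟨g, hgc⟩ : ∃ g : 𝓞 N, (g : N) = gN := ⟨⟨gN, hgint⟩, rfl⟩
    have hgθ : algebraMap (𝓞 N) (𝓞 F) g = θ 0 := by
      apply RingOfIntegers.ext
      show algebraMap N F (g : N) = _
      rw [hgc]
      exact hgF
    have hg3' : g ^ 3 = algebraMap (𝓞 K) (𝓞 N) (β 0) := by
      apply RingOfIntegers.ext
      rw [coe_pw, hgc]
      exact hg3
    have hτ' : RingOfIntegers.mapAlgEquiv τ g = algebraMap (𝓞 K) (𝓞 N) ω * g := by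
      apply RingOfIntegers.ext
      rw [coe_ml, hgc]
      show τ (g : N) = algebraMap K N (ω : K) * gN
      rw [hgc]
      exact hτ
    -- the induction hypothesis over `N`
    have halg : ∀ x : 𝓞 K, algebraMap (𝓞 N) (𝓞 F) (algebraMap (𝓞 K) (𝓞 N) x) =
        algebraMap (𝓞 K) (𝓞 F) x := fun x => (IsScalarTower.algebraMap_apply _ _ _ _).symm
    have hβN : ∀ i : Fin r, algebraMap (𝓞 K) (𝓞 N) (β i.succ) ≠ 0 := fun i => alg_ne (hβ i.succ)
    have hindN : ∀ ν : Fin r → ZMod 3, ν ≠ 0 → ∀ y : N,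
        y ^ 3 ≠ ∏ i, ((algebraMap (𝓞 K) (𝓞 N) (β i.succ) : 𝓞 N) : N) ^ (ν i).val := by
      intro ν hν y hy
      have h1 : algebraMap K N (∏ i : Fin r, (β i.succ : K) ^ (ν i).val) = y ^ 3 := by
        rw [hy, map_prod]
        refine Finset.prod_congr rfl fun i _ => ?_
        rw [map_pow]
        rfl
      obtain ⟨m, z, hz⟩ := kum hωK hbK0 hg3 hpb τ hτ (x := ∏ i : Fin r, (β i.succ : K) ^ (ν i).val)
        (Finset.prod_ne_zero_iff.2 fun i _ => pow_ne_zero _ fun h =>
          hβ i.succ (RingOfIntegers.ext h)) h1.symm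
      refine hind (Fin.cons m ν) (fun h => hν ?_) z ?_
      · funext i
        exact congrFun h i.succ
      · rw [hz, Fin.prod_univ_succ]
        rfl
    have hgenN : ∀ S : Subfield F, (∀ k : N, algebraMap N F k ∈ S) →
        (∀ i : Fin r, (θ i.succ : F) ∈ S) → S = ⊤ := by
      intro S hS hS'
      refine hgen S (fun k => ?_) (fun i => ?_)
      · rw [IsScalarTower.algebraMap_apply K N F]
        exact hS _
      · refine Fin.cases ?_ (fun j => hS' j) i
        rw [← hgF]
        exact hS _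
    obtain ⟨hd, hE⟩ := ih N F (algebraMap (𝓞 K) (𝓞 N) ω) (om_N hω)
      (fun i => algebraMap (𝓞 K) (𝓞 N) (β i.succ)) hβN hindN (fun i => θ i.succ)
      (fun i => by rw [hθ i.succ, halg]) hgenN
    refine ⟨?_, ?_⟩
    · rw [← Module.finrank_mul_finrank K N F, h3f, hd, pow_succ, mul_comm]
    · intro δ hδ s hs L hL
      have h1 := hE (algebraMap (𝓞 K) (𝓞 N) δ) (alg_ne hδ) s hs
        (fun ν => ∏ i : Fin 3, L (Fin.cons (show ZMod 3 from i) ν)) ?_
      · rw [halg] at h1
        have h2 : ∏ ν : Fin (r + 1) → ZMod 3, L ν =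
            ∏ ν : Fin r → ZMod 3, ∏ i : Fin 3, L (Fin.cons (show ZMod 3 from i) ν) := by
          rw [← (Fin.consEquiv (fun _ : Fin (r + 1) => ZMod 3)).prod_comp, Fintype.prod_prod_type,
            Finset.prod_comm]
          rfl
        rw [h2]
        exact h1
      · intro ν
        have h3 : algebraMap (𝓞 K) (𝓞 N) δ * ∏ i, algebraMap (𝓞 K) (𝓞 N) (β i.succ) ^ (ν i).val =
            algebraMap (𝓞 K) (𝓞 N) (δ * ∏ i : Fin r, β i.succ ^ (ν i).val) := by
          rw [map_mul, map_prod]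
          simp only [map_pow]
        rw [h3]
        refine step_glob hω h3f (hβ 0) hg3' (RingOfIntegers.mapAlgEquiv τ) hτ'
          (mul_ne_zero hδ (Finset.prod_ne_zero_iff.2 fun i _ => pow_ne_zero _ (hβ i.succ))) hs ?_
        intro i
        have h4 := hL (Fin.cons (show ZMod 3 from i) ν)
        rw [Fin.prod_univ_succ] at h4
        have h5 : (Fin.cons (show ZMod 3 from i) ν : Fin (r + 1) → ZMod 3) 0 = i := rfl
        have h6 : ∀ j : Fin r, (Fin.cons (show ZMod 3 from i) ν : Fin (r + 1) → ZMod 3) j.succ = ν j :=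
          fun j => rfl
        simp only [h6] at h4
        have h7 : δ * (β 0 ^ ((Fin.cons (show ZMod 3 from i) ν : Fin (r + 1) → ZMod 3) 0).val *
            ∏ j : Fin r, β j.succ ^ (ν j).val) =
            δ * (∏ j : Fin r, β j.succ ^ (ν j).val) * β 0 ^ (i : ℕ) := by
          have : ((Fin.cons (show ZMod 3 from i) ν : Fin (r + 1) → ZMod 3) 0).val = (i : ℕ) := rfl
          rw [this]
          ring
        rw [h7] at h4
        exact h4

end tower

end Run7.h707.TE
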